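import Pool.Agent.Lib.MP_449609_pr.Few

set_option autoImplicit false
set_option linter.unusedSectionVars false

open Finset Equiv
open Classical

namespace Pool.Agent.Lib.MP_449609_pr

theorem le_two_pow {a q : ℕ} (h : a ≤ q) : a ≤ 2 ^ q := h.trans Nat.lt_two_pow_self.le

theorem two_pow_mono {a b : ℕ} (h : a ≤ b) : 2 ^ a ≤ 2 ^ b := Nat.pow_le_pow_right two_pos h

theorem le_two_mul_div {n k : ℕ} (h0 : 0 < k) (h : k ≤ n) : n ≤ 2 * (k * (n / k)) := by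
  have h1 := Nat.lt_mul_div_succ n h0
  have h2 : k * 1 ≤ k * (n / k) := Nat.mul_le_mul_left k ((Nat.le_div_iff_mul_le h0).2 (by omega))
  rw [mul_add] at h1
  omega

theorem mul_le_cube {a q : ℕ} (h : a ≤ q) : a * (q * q) ≤ q * q * q := by
  rw [mul_comm]; gcongr

theorem par_B {d n L x v : ℕ} (hd : 3 ≤ d) (hx : n + 1 ≤ 2 ^ x) (h1 : 8 * d * (2 * d) ^ 8 * 2 ^ v ≤ L)
    (h2 : (d + 1) * x + 2 ≤ v * (L / 4)) (l : ℕ) (hl : L ≤ l) : ∃ m J, m + 2 * J ≤ l ∧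
      4 * n * (2 * d) ^ l * ((n + 1) ^ d * (d * l) ^ J) ≤ (m * (m - 1 - d)) ^ J := by
  have h0 : 8 * d ≤ L := le_trans (by rw [mul_assoc]; exact Nat.le_mul_of_pos_right _ (by positivity)) h1
  refine ⟨l - 2 * (l / 4), l / 4, by omega, ?_⟩
  set J := l / 4
  set m := l - 2 * J
  have e1 : l * l ≤ 8 * (m * (m - 1 - d)) := by
    calc l * l ≤ (2 * m) * (4 * (m - 1 - d)) := Nat.mul_le_mul (by omega) (by omega)
      _ = _ := by ring
  have e2 : 2 ^ v * (2 * d) ^ 8 * (d * l) ≤ m * (m - 1 - d) := by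
    refine Nat.le_of_mul_le_mul_left (le_trans ?_ e1) (show 0 < 8 by norm_num)
    calc _ = (8 * d * (2 * d) ^ 8 * 2 ^ v) * l := by ring
      _ ≤ _ := by gcongr; exact h1.trans hl
  have e3 : 4 * n * (n + 1) ^ d ≤ (2 ^ v) ^ J := by
    calc _ ≤ 4 * 2 ^ x * (2 ^ x) ^ d := by gcongr; omega
      _ = 2 ^ ((d + 1) * x + 2) := by ring
      _ ≤ 2 ^ (v * J) := two_pow_mono (h2.trans (by gcongr; exact Nat.div_le_div_right hl))
      _ = _ := pow_mul _ _ _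
  have e4 : (2 * d) ^ l ≤ ((2 * d) ^ 8) ^ J := by
    rw [← pow_mul]; exact Nat.pow_le_pow_right (by omega) (by omega)
  calc _ = 4 * n * (n + 1) ^ d * (2 * d) ^ l * (d * l) ^ J := by ring
    _ ≤ (2 ^ v) ^ J * ((2 * d) ^ 8) ^ J * (d * l) ^ J := by gcongr
    _ = (2 ^ v * (2 * d) ^ 8 * (d * l)) ^ J := by rw [← mul_pow, ← mul_pow]
    _ ≤ _ := by gcongr

theorem par_3 {d n L q e : ℕ} (hd : 3 ≤ d) (hx : n ≤ 2 ^ (e + 16 * q + 1)) (he : 383 * q ≤ e)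
    (hL : (d + 1) * L ≤ q) (h1 : 8 * (d ^ 2) ^ (d - 1) ≤ q) (h2 : 200 * d ≤ q)
    (s : ℕ) (s1 : 1 ≤ s) (s2 : s ≤ n) : ∃ m, 4 * (d * s) ≤ m * (m - L - d) ∧
      4 * n * (2 * d) ^ L * (2 * ((d + 1) * L + L * m + 8 * d ^ 2 * 2 ^ (16 * q) + 1) ^ d *
        (d ^ 2) ^ (d - 1)) ≤ s * (2 * 2 ^ e - (d + 1) ^ 2 * L) ^ (d - 1) := by
  set t := Nat.sqrt (4 * (d * s)) + 1 with ht
  have t1 : 4 * (d * s) < t * t := Nat.lt_succ_sqrt _
  have t2 : t * t ≤ 13 * (d * s) := by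
    have := Nat.sqrt_le (4 * (d * s))
    have : 1 ≤ d * s := Nat.mul_pos (by omega) s1
    have := Nat.le_mul_self (Nat.sqrt (4 * (d * s)))
    rw [ht, add_mul, mul_add]
    omega
  have hLq : L ≤ q := le_trans (Nat.le_mul_of_pos_left _ (by omega)) hL
  refine ⟨L + d + t, ?_, ?_⟩
  · have : L + d + t - L - d = t := by omega
    rw [this]
    exact t1.le.trans (by gcongr; omega)
  have q1 := Nat.lt_two_pow_self (n := q)
  have a1 : 2 ^ e ≤ 2 * 2 ^ e - (d + 1) ^ 2 * L := by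
    have : (d + 1) ^ 2 * L ≤ 2 ^ e := by
      calc _ = (d + 1) * ((d + 1) * L) := by ring
        _ ≤ 2 ^ q * 2 ^ q := by gcongr <;> omega
        _ ≤ _ := by rw [← pow_add]; exact two_pow_mono (by omega)
    omega
  have a2 : (d + 1) * L + L * (L + d + t) + 8 * d ^ 2 * 2 ^ (16 * q) + 1 ≤ 2 ^ (19 * q) * t := by
    have b1 : (d + 1) * L + L * (L + d + 1) + 8 * d ^ 2 + 1 ≤ 2 ^ (3 * q) := by
      have b0 : L * (L + d + 1) ≤ q * (q + q) := Nat.mul_le_mul hLq (by omega)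
      have b0' : d ^ 2 ≤ q ^ 2 := Nat.pow_le_pow_left (by omega) 2
      calc _ ≤ q + q * (q + q) + 8 * q ^ 2 + q := by omega
        _ ≤ 12 * (q * q) := by
            have := Nat.le_mul_self q
            rw [mul_add, sq]; omega
        _ ≤ q * q * q := mul_le_cube (by omega)
        _ ≤ 2 ^ q * 2 ^ q * 2 ^ q := by gcongr
        _ = _ := by ring
    have b2 : 1 ≤ 2 ^ (16 * q) * t := Nat.mul_pos (by positivity) (by omega)
    have b3 : t ≤ 2 ^ (16 * q) * t := Nat.le_mul_of_pos_left _ (by positivity)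
    have b4 : 2 ^ (16 * q) ≤ 2 ^ (16 * q) * t := Nat.le_mul_of_pos_right _ (by omega)
    calc _ ≤ (d + 1) * L * (2 ^ (16 * q) * t) + L * (L * (2 ^ (16 * q) * t) + d * (2 ^ (16 * q) * t) +
          (2 ^ (16 * q) * t)) + 8 * d ^ 2 * (2 ^ (16 * q) * t) + (2 ^ (16 * q) * t) := by
          have c1 := Nat.le_mul_of_pos_right ((d + 1) * L) b2
          have c2 := Nat.le_mul_of_pos_right L b2
          have c3 := Nat.le_mul_of_pos_right d b2
          exact add_le_add (add_le_add (add_le_add c1 (Nat.mul_le_mul_left _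
            (add_le_add (add_le_add c2 c3) b3))) (Nat.mul_le_mul_left _ b4)) b2
      _ = ((d + 1) * L + L * (L + d + 1) + 8 * d ^ 2 + 1) * (2 ^ (16 * q) * t) := by ring
      _ ≤ 2 ^ (3 * q) * (2 ^ (16 * q) * t) := by gcongr
      _ = _ := by ring
  have a3 : (2 * d) ^ L ≤ 2 ^ q := by
    calc _ ≤ (2 ^ (d + 1)) ^ L := by
          gcongr; rw [pow_succ']; gcongr; exact Nat.lt_two_pow_self.le
      _ ≤ _ := by rw [← pow_mul]; exact two_pow_mono hL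
  obtain ⟨k, rfl⟩ : ∃ k, d = k + 2 := ⟨d - 2, by omega⟩
  have hk : k + 2 - 1 = k + 1 := rfl
  rw [hk] at h1 ⊢
  refine le_trans ?_ (Nat.mul_le_mul_left s (Nat.pow_le_pow_left a1 _))
  refine (Nat.pow_le_pow_iff_left two_ne_zero).1 ?_
  set x := e + 16 * q + 1
  have a4 : 8 * ((k + 2) ^ 2) ^ (k + 1) ≤ 2 ^ q := le_two_pow h1
  clear ht hk
  clear_value t
  generalize (k + 2 + 1) * L + L * (L + (k + 2) + t) + 8 * (k + 2) ^ 2 * 2 ^ (16 * q) + 1 = E at *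
  generalize (2 * (k + 2)) ^ L = F at *
  generalize ((k + 2) ^ 2) ^ (k + 1) = G at *
  calc _ = (n * F * (8 * G)) ^ 2 * (E ^ 2) ^ (k + 2) := by ring
    _ ≤ (2 ^ x * 2 ^ q * 2 ^ q) ^ 2 * ((2 ^ (19 * q) * t) ^ 2) ^ (k + 2) := by gcongr
    _ ≤ (2 ^ x * 2 ^ q * 2 ^ q) ^ 2 * (2 ^ (39 * q) * s) ^ (k + 2) := by
        gcongr
        calc _ = 2 ^ (38 * q) * (t * t) := by ring
          _ ≤ 2 ^ (38 * q) * (13 * (k + 2) * s) := Nat.mul_le_mul_left _ (by rw [mul_assoc]; exact t2)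
          _ ≤ 2 ^ (38 * q) * (2 ^ q * s) := by gcongr; omega
          _ = _ := by ring
    _ = s ^ 2 * ((2 ^ x * 2 ^ q * 2 ^ q) ^ 2 * (2 ^ (39 * q)) ^ (k + 2) * s ^ k) := by ring
    _ ≤ s ^ 2 * ((2 ^ x * 2 ^ q * 2 ^ q) ^ 2 * (2 ^ (39 * q)) ^ (k + 2) * (2 ^ x) ^ k) := by
        gcongr; omega
    _ ≤ _ := by
        rw [mul_pow s]
        gcongr
        simp only [← pow_mul, ← pow_add]
        refine two_pow_mono ?_
        obtain ⟨j, rfl⟩ : ∃ j, k = j + 1 := ⟨k - 1, by omega⟩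
        obtain ⟨f, rfl⟩ := Nat.exists_eq_add_of_le he
        have := Nat.mul_le_mul_left j (show 1 ≤ q by omega)
        simp only [x]
        ring_nf at this ⊢
        omega

theorem par_F {d n L q e β : ℕ} (hd : 3 ≤ d) (hx : n + 1 ≤ 2 ^ (e + 16 * q + 1))
    (hx' : 2 ^ (e + 16 * q) ≤ n) (he : 383 * q ≤ e) (he' : e + 16 * q + 1 ≤ 800 * q) (hL0 : 0 < L)
    (hL : L ≤ q) (h2 : 200 * d ≤ q) (hβ : 16 * L * (β + 3) ≤ 200 * q) :
    2 * ((n + 1) ^ (d * (2 * 2 ^ e + 1)) * 2 ^ (d * (2 * 2 ^ e + 1) *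
      ((e + 16 * q + 1) * d * (2 ^ (8 * q) + 1)) + β * n)) * (3 ^ n * (d * n) ^ (n / (8 * L))) ≤
      (n / (4 * L) * (n / (4 * L) - L - d)) ^ (n / (8 * L)) := by
  set x := e + 16 * q + 1
  set m := n / (4 * L)
  set J := n / (8 * L)
  have q1 := Nat.lt_two_pow_self (n := q)
  have q3 : q * q * q ≤ 2 ^ (3 * q) := by
    calc _ ≤ 2 ^ q * 2 ^ q * 2 ^ q := by gcongr
      _ = _ := by ring
  have n1 : q * q * q ≤ n := q3.trans ((two_pow_mono (by omega)).trans hx')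
  have n2 : 32 * (q * q) ≤ n := le_trans (mul_le_cube (by omega)) n1
  have n3 : 8 * L ≤ n := by have := Nat.le_mul_self q; omega
  have m1 : n ≤ 8 * L * m :=
    (le_two_mul_div (k := 4 * L) (by omega) (by omega)).trans_eq (by ring)
  have j1 : n ≤ 16 * L * J :=
    (le_two_mul_div (k := 8 * L) (by omega) (by omega)).trans_eq (by ring)
  have m2 : 4 * q ≤ m := by
    refine Nat.le_of_mul_le_mul_left (c := 8 * q) ?_ (by omega)
    calc _ = 32 * (q * q) := by ring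
      _ ≤ 8 * L * m := n2.trans m1
      _ ≤ _ := by gcongr
  have m3 : 2 ^ (200 * q) * (d * n) ≤ m * (m - L - d) := by
    refine Nat.le_of_mul_le_mul_left (c := 128 * (L * L)) ?_ (by positivity)
    calc _ = (128 * d * L * L * 2 ^ (200 * q)) * n := by ring
      _ ≤ (q * q * q * 2 ^ (200 * q)) * n := by gcongr; omega
      _ ≤ (2 ^ (3 * q) * 2 ^ (200 * q)) * n := by gcongr
      _ ≤ n * n := by
          gcongr; rw [← pow_add]; exact (two_pow_mono (by omega)).trans hx'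
      _ ≤ (8 * L * m) * (8 * L * m) := by gcongr
      _ ≤ (8 * L * m) * (8 * L * (2 * (m - L - d))) := by gcongr; omega
      _ = _ := by ring
  have r1 : 1 + x * (d * (2 * 2 ^ e + 1)) + d * (2 * 2 ^ e + 1) * (x * d * (2 ^ (8 * q) + 1)) ≤ n := by
    have p1 : 1 ≤ 2 ^ e := Nat.one_le_two_pow
    have p2 : 1 ≤ 2 ^ (8 * q) := Nat.one_le_two_pow
    have p3 : 1 ≤ x * d * d * (2 ^ e * 2 ^ (8 * q)) := Nat.mul_pos (by positivity) (by positivity)
    have p4 : x * (d * (2 * 2 ^ e + 1)) ≤ 3 * (x * d * d * (2 ^ e * 2 ^ (8 * q))) := by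
      calc _ ≤ x * (d * (2 * 2 ^ e + 2 ^ e)) * (d * 2 ^ (8 * q)) :=
            le_trans (by gcongr) (Nat.le_mul_of_pos_right _ (by positivity))
        _ = _ := by ring
    have p5 : d * (2 * 2 ^ e + 1) * (x * d * (2 ^ (8 * q) + 1)) ≤
        6 * (x * d * d * (2 ^ e * 2 ^ (8 * q))) := by
      calc _ ≤ d * (2 * 2 ^ e + 2 ^ e) * (x * d * (2 ^ (8 * q) + 2 ^ (8 * q))) := by gcongr
        _ = _ := by ring
    have p6 : 10 * (x * d * d * (2 ^ e * 2 ^ (8 * q))) ≤ n := by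
      calc _ ≤ 10 * (800 * q * d * d * (2 ^ e * 2 ^ (8 * q))) := by gcongr
        _ = q * (200 * d) * (40 * d) * (2 ^ e * 2 ^ (8 * q)) := by ring
        _ ≤ q * q * q * (2 ^ e * 2 ^ (8 * q)) := by gcongr; omega
        _ ≤ 2 ^ (3 * q) * (2 ^ e * 2 ^ (8 * q)) := by gcongr
        _ ≤ _ := by rw [← pow_add, ← pow_add]; exact (two_pow_mono (by omega)).trans hx'
    omega
  have r2 : (β + 3) * n ≤ 200 * q * J := by
    calc _ ≤ (β + 3) * (16 * L * J) := by gcongr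
      _ = 16 * L * (β + 3) * J := by ring
      _ ≤ _ := by gcongr
  calc _ ≤ 2 * ((2 ^ x) ^ (d * (2 * 2 ^ e + 1)) * 2 ^ (d * (2 * 2 ^ e + 1) *
        (x * d * (2 ^ (8 * q) + 1)) + β * n)) * ((2 ^ 2) ^ n * (d * n) ^ J) := by
        gcongr; norm_num
    _ = 2 ^ (1 + x * (d * (2 * 2 ^ e + 1)) + d * (2 * 2 ^ e + 1) * (x * d * (2 ^ (8 * q) + 1)) +
        β * n + 2 * n) * (d * n) ^ J := by
        simp only [← pow_mul]
        simp only [pow_add]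
        ring
    _ ≤ 2 ^ (200 * q * J) * (d * n) ^ J := by
        refine Nat.mul_le_mul_right _ (two_pow_mono ?_)
        rw [add_mul] at r2
        omega
    _ = (2 ^ (200 * q) * (d * n)) ^ J := by rw [pow_mul, ← mul_pow]
    _ ≤ _ := by gcongr

theorem exists_par {d : ℕ} (hd : 3 ≤ d) : ∃ n₀, ∀ n, n₀ ≤ n →
    ∃ L M T q κ x y b c m J, Par d n L M T q κ x y b c m J := by
  obtain ⟨K, hK⟩ : ∃ K, K = d + 3 := ⟨_, rfl⟩
  obtain ⟨κ, hκ⟩ : ∃ κ, κ = 16384 * (d + 1) * K := ⟨_, rfl⟩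
  obtain ⟨β₀, hβ₀⟩ : ∃ β₀, β₀ = d + 1 + 3 * 800 * (d * κ + 1) + d ^ 2 * κ ^ 2 + 3 := ⟨_, rfl⟩
  obtain ⟨C, c1, c2, c3, c4, c5, c6, c7⟩ : ∃ C, 8 * d * (2 * d) ^ 8 ≤ C ∧ 1024 * K * β₀ ≤ C ∧
      6400 * K * (d + 1) ≤ C ∧ (d + 1) * κ ≤ C ∧ 8 * (d ^ 2) ^ (d - 1) ≤ C ∧ 200 * d ≤ C ∧
      800 ≤ C :=
    ⟨8 * d * (2 * d) ^ 8 + 1024 * K * β₀ + 6400 * K * (d + 1) + (d + 1) * κ +
      8 * (d ^ 2) ^ (d - 1) + 200 * d + 800, by omega, by omega, by omega, by omega, by omega, by omega, by omega⟩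
  refine ⟨2 ^ 2 ^ (3 * C), fun n hn => ?_⟩
  have hn0 : n ≠ 0 := (lt_of_lt_of_le (by positivity) hn).ne'
  obtain ⟨w, w1, w2, w3⟩ : ∃ w, 2 ^ w ≤ n ∧ n < 2 ^ (w + 1) ∧ 2 ^ (3 * C) ≤ w :=
    ⟨Nat.log 2 n, Nat.pow_log_le_self 2 hn0, Nat.lt_pow_succ_log_self one_lt_two n,
      Nat.le_log_of_pow_le one_lt_two hn⟩
  obtain ⟨z, z1, z2, z3⟩ : ∃ z, 2 ^ z ≤ w + 1 ∧ w + 1 < 2 ^ (z + 1) ∧ 3 * C ≤ z :=
    ⟨Nat.log 2 (w + 1), Nat.pow_log_le_self 2 (by omega), Nat.lt_pow_succ_log_self one_lt_two _,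
      Nat.le_log_of_pow_le one_lt_two (by omega)⟩
  obtain ⟨v, v1, v2, v3⟩ : ∃ v, 3 * v ≤ z ∧ z < 3 * v + 3 ∧ C ≤ v := ⟨z / 3, by omega, by omega, by omega⟩
  obtain ⟨q, q1, q2⟩ : ∃ q, 400 * q ≤ w + 1 ∧ w + 1 < 400 * q + 400 :=
    ⟨(w + 1) / 400, by omega, by omega⟩
  have v4 := Nat.lt_two_pow_self (n := v)
  have x1 : 2 ^ v * 2 ^ v * 2 ^ v ≤ w + 1 := by
    rw [← pow_add, ← pow_add]; exact (two_pow_mono (by omega)).trans z1
  have x2 : 800 * v ≤ w + 1 := by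
    calc 800 * v ≤ 800 * 1 * v := by omega
      _ ≤ v * v * v := by gcongr <;> omega
      _ ≤ 2 ^ v * 2 ^ v * 2 ^ v := by gcongr
      _ ≤ _ := x1
  have q3 : v ≤ q := by omega
  have q4 : w + 1 ≤ 800 * q := by omega
  obtain ⟨e, he⟩ : ∃ e, w = e + 16 * q := ⟨w - 16 * q, by omega⟩
  obtain ⟨L, hL⟩ : ∃ L, L = 4 * (K * ((w + 1) / v + 1)) := ⟨_, rfl⟩
  have l1 : w + 1 < v * ((w + 1) / v + 1) := Nat.lt_mul_div_succ _ (by omega)
  have l2 : v * L ≤ 6400 * K * q := by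
    have := Nat.mul_div_le (w + 1) v
    calc v * L = 4 * K * (v * ((w + 1) / v) + v) := by rw [hL]; ring
      _ ≤ 4 * K * (800 * q + 800 * q) := Nat.mul_le_mul_left _ (by omega)
      _ = _ := by ring
  have l3 : (d + 1) * L ≤ q := by
    refine Nat.le_of_mul_le_mul_left (c := 6400 * K) ?_ (by omega)
    calc _ = 6400 * K * (d + 1) * L := by ring
      _ ≤ v * L := by gcongr; omega
      _ ≤ _ := l2
  have l4 : 2 ^ v * 2 ^ v ≤ L := by
    have : 2 ^ v * 2 ^ v ≤ (w + 1) / v := (Nat.le_div_iff_mul_le (by omega)).2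
      (le_trans (by gcongr) x1)
    calc _ ≤ 1 * (1 * ((w + 1) / v + 1)) := by omega
      _ ≤ _ := by rw [hL]; gcongr <;> omega
  have l5 : 2 ≤ L := le_trans (le_trans (by omega) (Nat.le_mul_self _)) l4
  have l6 : L ≤ q := le_trans (Nat.le_mul_of_pos_left _ (by omega)) l3
  obtain ⟨b, b1, b2⟩ : ∃ b, 1024 * K * b ≤ v ∧ v ≤ 2048 * K * b := by
    refine ⟨v / (1024 * K), Nat.mul_div_le _ _, ?_⟩
    have := Nat.le_mul_of_pos_right (1024 * K) (show 0 < β₀ by omega)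
    exact (le_two_mul_div (k := 1024 * K) (by omega) (by omega)).trans_eq (by ring)
  have p1 : (d + 1) ^ 2 ≤ 2 ^ e := by
    calc _ ≤ (2 ^ q) ^ 2 := by gcongr; exact le_two_pow (by omega)
      _ ≤ _ := by rw [← pow_mul]; exact two_pow_mono (by omega)
  subst he
  refine ⟨L, 2 * 2 ^ e, 8 * d ^ 2 * 2 ^ (16 * q), q, κ, e + 16 * q + 1, z + 1, b, 800, n / (4 * L),
    n / (8 * L), l5, by omega, par_B (v := v) hd w2 ?_ ?_,
    par_3 hd w2.le (by omega) l3 (by omega) (by omega), ?_, by omega, by rw [hκ, hK]; positivity, w2,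
    by omega, ?_, q4, ?_, par_F hd w2 w1 (by omega) q4 (by omega) l6 (by omega) ?_⟩
  · exact le_trans (by gcongr; omega) l4
  · have : L / 4 = K * ((e + 16 * q + 1) / v + 1) := by omega
    rw [this, mul_left_comm]
    refine le_trans ?_ (Nat.mul_le_mul_left K l1.le)
    rw [hK, add_mul d 3, add_mul d 1]; omega
  · calc _ ≤ 4 * (2 ^ (e + 16 * q + 1) * d ^ 2) := by gcongr
      _ = 8 * d ^ 2 * 2 ^ (16 * q) * 2 ^ e := by ring
      _ ≤ _ := by gcongr; omega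
  · calc _ ≤ 2 * (d + 1) * (4 * (2048 * K * b)) := by gcongr; omega
      _ = _ := by rw [hκ]; ring
  · have h1 := Nat.mul_div_le n (4 * L)
    have h2 := Nat.mul_div_le n (8 * L)
    have h3 : 4 * 2 ^ e ≤ n := by
      refine le_trans ?_ w1
      rw [pow_add, mul_comm]
      gcongr
      exact le_two_pow (by omega)
    rw [mul_assoc] at h1 h2 ⊢
    omega
  · refine Nat.le_of_mul_le_mul_left (c := v) ?_ (by omega)
    calc _ = 16 * (v * L) * (β₀ + b) := by rw [hβ₀]; ring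
      _ ≤ 16 * (6400 * K * q) * (β₀ + b) := by gcongr
      _ = 100 * q * (1024 * K * β₀ + 1024 * K * b) := by ring
      _ ≤ 100 * q * (v + v) := by gcongr; omega
      _ = _ := by ring

theorem poinc_three {d : ℕ} (hd : 3 ≤ d) :
    ∃ c k : ℕ, ∀ n : ℕ, Poinc (Fin n) d (c * (n + 1) ^ k) := by
  obtain ⟨n₀, h⟩ := exists_par hd
  refine ⟨n₀.factorial + 300, d + 3, fun n => ?_⟩
  have h0 : (0 : ℝ) ≤ n := by positivity
  have h1 : (1 : ℝ) ≤ (n + 1) ^ d := one_le_pow₀ (by linarith)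
  have h2 : (1 : ℝ) ≤ (n + 1) ^ (d + 3) := one_le_pow₀ (by linarith)
  have h3 : (0 : ℝ) ≤ n₀.factorial := by positivity
  rcases le_total n n₀ with hn | hn
  · refine (poinc_trivial d).mono ?_
    rw [Fintype.card_perm, Fintype.card_fin]
    have : (n.factorial : ℝ) ≤ n₀.factorial := by exact_mod_cast Nat.factorial_le hn
    push_cast
    nlinarith
  · obtain ⟨L, M, T, q, κ, x, y, b, c, m, J, hp⟩ := h n hn
    refine (poinc_of_par (V := Fin n) hd (by simpa using hp)).mono ?_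
    rw [Fintype.card_fin]
    push_cast
    have h4 : (0 : ℝ) ≤ n₀.factorial * (n + 1) ^ (d + 3) := by positivity
    have h5 : (10 + 16 * n : ℝ) ≤ 16 * (n + 1) ^ 3 * (n + 1) ^ d := by
      nlinarith [pow_nonneg h0 2, pow_nonneg h0 3]
    have h6 : (2 + 16 * n : ℝ) * (n + n ^ 2) ≤ 16 * (n + 1) ^ 3 := by
      nlinarith [pow_nonneg h0 2, pow_nonneg h0 3]
    have h7 := mul_le_mul_of_nonneg_right h6 (show (0 : ℝ) ≤ (n + 1) ^ d by positivity)
    rw [add_mul, pow_add] at *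
    nlinarith

end Pool.Agent.Lib.MP_449609_pr
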