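import Pool.Agent.Lib.MP_449609_pr.Mix

set_option autoImplicit false
set_option linter.unusedSectionVars false

open Finset Equiv
open Classical

namespace Pool.Agent.Lib.MP_449609_pr

variable {V : Type} [Fintype V] [DecidableEq V]

noncomputable def nb (G : SimpleGraph V) (v : V) : Finset V := univ.filter (G.Adj v)

@[simp] theorem mem_nb {G : SimpleGraph V} {v u : V} : u ∈ nb G v ↔ G.Adj v u := by simp [nb]

/-- all degrees at most `d` -/
def Deg (d : ℕ) (G : SimpleGraph V) : Prop := ∀ v, (nb G v).card ≤ d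

def IsAut (G : SimpleGraph V) (σ : Perm V) : Prop := ∀ u v, G.Adj (σ u) (σ v) ↔ G.Adj u v

noncomputable def Prs (V : Type) [Fintype V] [DecidableEq V] (d : ℕ) :
    Finset (SimpleGraph V × Perm V) := univ.filter fun p => Deg d p.1 ∧ IsAut p.1 p.2

@[simp] theorem mem_Prs {d : ℕ} {p : SimpleGraph V × Perm V} :
    p ∈ Prs V d ↔ Deg d p.1 ∧ IsAut p.1 p.2 := by simp [Prs]

noncomputable def fixs (d : ℕ) (g : Perm V) : Finset (SimpleGraph V) :=
  univ.filter fun X => Deg d X ∧ IsAut X g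

@[simp] theorem mem_fixs {d : ℕ} {g : Perm V} {X : SimpleGraph V} :
    X ∈ fixs d g ↔ Deg d X ∧ IsAut X g := by simp [fixs]

noncomputable def auts (X : SimpleGraph V) : Finset (Perm V) := univ.filter fun g => IsAut X g

@[simp] theorem mem_auts {g : Perm V} {X : SimpleGraph V} : g ∈ auts X ↔ IsAut X g := by
  simp [auts]

noncomputable def mean (d : ℕ) (f : SimpleGraph V → ℝ) (g : Perm V) : ℝ :=
  (∑ X ∈ fixs d g, f X) / (fixs d g).card

noncomputable def aa (d : ℕ) (f : SimpleGraph V → ℝ) (p : SimpleGraph V × Perm V) : ℝ :=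
  (f p.1 - mean d f p.2) ^ 2

theorem aa_nonneg (d : ℕ) (f : SimpleGraph V → ℝ) (p : SimpleGraph V × Perm V) : 0 ≤ aa d f p :=
  sq_nonneg _

noncomputable def DD (d : ℕ) (f : SimpleGraph V → ℝ) : ℝ := ∑ p ∈ Prs V d, aa d f p

theorem DD_nonneg (d : ℕ) (f : SimpleGraph V → ℝ) : 0 ≤ DD d f :=
  sum_nonneg fun p _ => aa_nonneg d f p

/-- Poincare inequality on the space of pairs -/
def Poinc (V : Type) [Fintype V] [DecidableEq V] (d : ℕ) (Λ : ℝ) : Prop :=
  ∀ f : SimpleGraph V → ℝ, ∃ c : ℝ, ∑ p ∈ Prs V d, (f p.1 - c) ^ 2 ≤ Λ * DD d f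

theorem Poinc.mono {d : ℕ} {Λ Λ' : ℝ} (h : Poinc V d Λ) (hle : Λ ≤ Λ') : Poinc V d Λ' := by
  intro f
  obtain ⟨c, hc⟩ := h f
  exact ⟨c, hc.trans (mul_le_mul_of_nonneg_right hle (DD_nonneg d f))⟩

theorem IsAut.one (X : SimpleGraph V) : IsAut X 1 := fun _ _ => Iff.rfl

theorem IsAut.mul {X : SimpleGraph V} {g h : Perm V} (hg : IsAut X g) (hh : IsAut X h) :
    IsAut X (g * h) := fun u v => (hg (h u) (h v)).trans (hh u v)

theorem IsAut.inv {X : SimpleGraph V} {g : Perm V} (hg : IsAut X g) : IsAut X g⁻¹ := by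
  intro u v
  have := hg (g⁻¹ u) (g⁻¹ v)
  simpa using this.symm

theorem IsAut.pow {X : SimpleGraph V} {g : Perm V} (hg : IsAut X g) (k : ℕ) : IsAut X (g ^ k) := by
  induction k with
  | zero => exact IsAut.one X
  | succ k ih => rw [pow_succ]; exact ih.mul hg

theorem IsAut.zpow {X : SimpleGraph V} {g : Perm V} (hg : IsAut X g) (k : ℤ) :
    IsAut X (g ^ k) := by
  cases k with
  | ofNat k => simpa using hg.pow k
  | negSucc k => simpa using (hg.pow (k + 1)).inv

theorem IsAut.card_nb {X : SimpleGraph V} {g : Perm V} (hg : IsAut X g) (v : V) :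
    (nb X (g v)).card = (nb X v).card := by
  symm
  refine card_bij (fun u _ => g u) (fun u hu => ?_) (fun a _ b _ h => g.injective h)
    (fun b hb => ⟨g⁻¹ b, ?_, by simp⟩)
  · simpa using (hg v u).2 (by simpa using hu)
  · have := (hg v (g⁻¹ b)).1 (by simpa using hb)
    simpa using this

/-- the automorphism group as a subgroup -/
def autG (X : SimpleGraph V) : Subgroup (Perm V) where
  carrier := {g | IsAut X g}
  one_mem' := IsAut.one X
  mul_mem' := fun hg hh => IsAut.mul hg hh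
  inv_mem' := fun hg => IsAut.inv hg

@[simp] theorem mem_autG {X : SimpleGraph V} {g : Perm V} : g ∈ autG X ↔ IsAut X g := Iff.rfl

theorem sum_Prs_left (d : ℕ) (φ : SimpleGraph V × Perm V → ℝ) :
    ∑ p ∈ Prs V d, φ p = ∑ X ∈ univ.filter (Deg d), ∑ g ∈ auts X, φ (X, g) := by
  simp only [Prs, auts, sum_filter]
  rw [Fintype.sum_prod_type]
  refine sum_congr rfl fun X _ => ?_
  by_cases h : Deg d X <;> simp [h]

theorem sum_Prs_right (d : ℕ) (φ : SimpleGraph V × Perm V → ℝ) :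
    ∑ p ∈ Prs V d, φ p = ∑ g, ∑ X ∈ fixs d g, φ (X, g) := by
  simp only [Prs, fixs, sum_filter]
  rw [Fintype.sum_prod_type_right]

theorem poinc_trivial (d : ℕ) : Poinc V d (Fintype.card (Perm V)) := by
  intro f
  refine ⟨mean d f 1, ?_⟩
  rw [sum_Prs_left]
  calc _ ≤ ∑ X ∈ univ.filter (Deg d), (Fintype.card (Perm V) : ℝ) * aa d f (X, 1) := by
        refine sum_le_sum fun X _ => ?_
        simp only [sum_const, nsmul_eq_mul, aa]
        gcongr
        exact card_le_univ _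
    _ ≤ _ := by
        rw [← mul_sum, DD, sum_Prs_left]
        gcongr with X _
        exact single_le_sum (f := fun g => aa d f (X, g)) (fun g _ => aa_nonneg _ _ _)
          (mem_auts.2 (IsAut.one X))

theorem tv_of_poinc_eps {n d : ℕ} {Λ : ℝ} (hΛ : 1 ≤ Λ) (hP : Poinc (Fin n) d Λ) (t : ℕ)
    {ε : ℝ} (hε : 0 < ε) (ht : Λ * (2 * (n * n) + 2 * Real.log (2 * ε)⁻¹) ≤ t) (x : {G : SimpleGraph (Fin n) // ∀ v, G.degree v ≤ d}) :
    (1 / 2 : ℝ) * ∑ y, |(Kmat (fun (a : {G : SimpleGraph (Fin n) // ∀ v, G.degree v ≤ d})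
      (b : Perm (Fin n)) => IsAut a.1 b) ^ t) x y -
      wA (fun (a : {G : SimpleGraph (Fin n) // ∀ v, G.degree v ≤ d})
        (b : Perm (Fin n)) => IsAut a.1 b) y /
      ∑ a, wA (fun (a : {G : SimpleGraph (Fin n) // ∀ v, G.degree v ≤ d})
        (b : Perm (Fin n)) => IsAut a.1 b) a| ≤ ε := by
  have hdeg : ∀ G : SimpleGraph (Fin n), (∀ v, G.degree v ≤ d) ↔ Deg d G := by
    intro G
    refine forall_congr' fun v => ?_
    rw [← SimpleGraph.card_neighborFinset_eq_degree, SimpleGraph.neighborFinset_eq_filter]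
    rfl
  refine tv_bound _ (fun a => ?_) hΛ (fun F => ?_) t hε ?_ x
  · unfold wA
    exact_mod_cast card_pos.2 ⟨1, by simp [IsAut.one]⟩
  · let f : SimpleGraph (Fin n) → ℝ := fun G => if h : ∀ v, G.degree v ≤ d then F ⟨G, h⟩ else 0
    have hf : ∀ a : {G : SimpleGraph (Fin n) // ∀ v, G.degree v ≤ d}, f a.1 = F a :=
      fun a => dif_pos a.2
    have hs : ∀ (g : Perm (Fin n)) (φ : SimpleGraph (Fin n) → ℝ), ∑ X ∈ fixs d g, φ X =
        ∑ a ∈ univ.filter (fun a : {G : SimpleGraph (Fin n) // ∀ v, G.degree v ≤ d} =>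
          IsAut a.1 g), φ a.1 := by
      intro g φ
      symm
      refine sum_bij (fun a _ => a.1) (fun a ha => ?_) (fun a _ b _ h => Subtype.ext h)
        (fun X hX => ?_) (fun _ _ => rfl)
      · simp only [mem_filter, mem_univ, true_and] at ha
        exact mem_fixs.2 ⟨(hdeg _).1 a.2, ha⟩
      · rw [mem_fixs] at hX
        exact ⟨⟨X, (hdeg _).2 hX.1⟩, by simpa using hX.2, rfl⟩
    have hm : ∀ g, mean d f g = avg (fun (a : {G : SimpleGraph (Fin n) // ∀ v, G.degree v ≤ d})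
        (b : Perm (Fin n)) => IsAut a.1 b) F g := by
      intro g
      unfold mean avg wB
      rw [hs, card_eq_sum_ones, card_eq_sum_ones, Nat.cast_sum, Nat.cast_sum, hs]
      simp only [hf]
    obtain ⟨c, hc⟩ := hP f
    refine ⟨c, ?_⟩
    rw [DD, sum_Prs_right, sum_Prs_right] at hc
    simp only [hs, aa, hm, hf] at hc
    rw [← sum_swap (fun (a : {G : SimpleGraph (Fin n) // ∀ v, G.degree v ≤ d})
        (b : Perm (Fin n)) => IsAut a.1 b) (fun a _ => (F a - c) ^ 2)] at hc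
    simpa [wA] using hc
  · have h1 : Fintype.card {G : SimpleGraph (Fin n) // ∀ v, G.degree v ≤ d} ≤ 2 ^ (n * n) := by
      have : Fintype.card (Fin n × Fin n → Prop) = 2 ^ (n * n) := by simp
      rw [← this]
      refine Fintype.card_le_of_injective (fun a p => a.1.Adj p.1 p.2) fun a b h => ?_
      ext u v
      exact iff_of_eq (congrFun h (u, v))
    have h2 : ∀ a, wA (fun (a : {G : SimpleGraph (Fin n) // ∀ v, G.degree v ≤ d})
        (b : Perm (Fin n)) => IsAut a.1 b) a ≤ 2 ^ (n * n) := by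
      intro a
      unfold wA
      have : (univ.filter fun b : Perm (Fin n) => IsAut a.1 b).card ≤ 2 ^ (n * n) := by
        refine (card_le_univ _).trans ?_
        rw [Fintype.card_perm, Fintype.card_fin, pow_mul]
        exact (Nat.factorial_le_pow n).trans (Nat.pow_le_pow_left Nat.lt_two_pow_self.le n)
      exact_mod_cast this
    have h3 := sum_le_card_nsmul univ _ _ (fun a _ => h2 a)
    rw [card_univ, nsmul_eq_mul] at h3
    have h1' : (Fintype.card {G : SimpleGraph (Fin n) // ∀ v, G.degree v ≤ d} : ℝ) ≤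
        2 ^ (n * n) := by exact_mod_cast h1
    have h4 : ((2 * (n * n) : ℕ) : ℝ) + 2 * Real.log (2 * ε)⁻¹ ≤ t / Λ := by
      rw [le_div_iff₀ (by linarith)]
      push_cast
      linarith
    have h5 : Real.exp (2 * Real.log (2 * ε)⁻¹) = 1 / (4 * ε ^ 2) := by
      rw [two_mul, Real.exp_add, Real.exp_log (by positivity)]
      field_simp
      norm_num
    calc _ ≤ (2 ^ (n * n) * 2 ^ (n * n) : ℝ) / (4 * ε ^ 2) := by
          gcongr
          exact h3.trans (by gcongr)
      _ = 2 ^ (2 * (n * n)) / (4 * ε ^ 2) := by ring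
      _ ≤ Real.exp 1 ^ (2 * (n * n)) / (4 * ε ^ 2) := by
          gcongr
          linarith [Real.add_one_le_exp 1]
      _ = Real.exp (((2 * (n * n) : ℕ) : ℝ) + 2 * Real.log (2 * ε)⁻¹) := by
          rw [← Real.exp_nat_mul, mul_one, Real.exp_add, h5]; ring
      _ ≤ _ := Real.exp_le_exp.2 h4

theorem tv_of_poinc {n d : ℕ} {Λ : ℝ} (hΛ : 1 ≤ Λ) (hP : Poinc (Fin n) d Λ) (t : ℕ)
    (ht : Λ * (2 * (n + 1) ^ 2) ≤ t) (x : {G : SimpleGraph (Fin n) // ∀ v, G.degree v ≤ d}) :
    (1 / 2 : ℝ) * ∑ y, |(Kmat (fun (a : {G : SimpleGraph (Fin n) // ∀ v, G.degree v ≤ d})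
      (b : Perm (Fin n)) => IsAut a.1 b) ^ t) x y -
      wA (fun (a : {G : SimpleGraph (Fin n) // ∀ v, G.degree v ≤ d})
        (b : Perm (Fin n)) => IsAut a.1 b) y /
      ∑ a, wA (fun (a : {G : SimpleGraph (Fin n) // ∀ v, G.degree v ≤ d})
        (b : Perm (Fin n)) => IsAut a.1 b) a| ≤ 1 / 4 := by
  refine tv_of_poinc_eps hΛ hP t (by norm_num) (le_trans ?_ ht) x
  have h1 : Real.log (2 * (1 / 4))⁻¹ ≤ 1 := by
    have := Real.log_le_sub_one_of_pos (x := (2 * (1 / 4))⁻¹) (by norm_num)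
    linarith
  have : (0 : ℝ) ≤ n := by positivity
  gcongr
  nlinarith

end Pool.Agent.Lib.MP_449609_pr
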