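import Pool.Agent.Lib.MP_449609_pr.Moves

set_option autoImplicit false
set_option linter.unusedSectionVars false

open Finset Equiv
open Classical

namespace Pool.Agent.Lib.MP_449609_pr

variable {V : Type} [Fintype V] [DecidableEq V]

theorem eq_of_pows {g g' : Perm V} {v : V} (ho : off g v = off g' v) (hp : per g v = per g' v)
    (h : ∀ i < per g v, (g ^ i) v = (g' ^ i) v) : g = g' := by
  have hc : cyc g v = cyc g' v := by
    rw [cyc_eq_image, cyc_eq_image, ← hp]
    exact image_congr fun i hi => h i (by simpa using hi)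
  ext x
  by_cases hx : x ∈ cyc g v
  · obtain ⟨i, hi, rfl⟩ := exists_pow_of_mem hx
    conv_rhs => rw [h i hi]
    rw [← Perm.mul_apply, ← Perm.mul_apply, ← pow_succ', ← pow_succ']
    rcases (Nat.succ_le_of_lt hi).lt_or_eq with h1 | h1
    · exact h _ h1
    · have h1' : i + 1 = per g v := h1
      rw [h1', pow_per, hp, pow_per]
  · rw [← off_of_not_mem hx, ho, off_of_not_mem (hc ▸ hx)]

theorem exists_code {d : ℕ} {Y : SimpleGraph V} (hY : Deg d Y) :
    ∃ code : V → V → ℕ, (∀ x y, Y.Adj x y → code x y < d) ∧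
      ∀ x y z, Y.Adj x y → Y.Adj x z → code x y = code x z → y = z := by
  refine ⟨fun x y => if h : y ∈ nb Y x then ((nb Y x).equivFin ⟨y, h⟩ : ℕ) else 0,
    fun x y h => ?_, fun x y z h h' e => ?_⟩
  · simp only [dif_pos (mem_nb.2 h)]
    exact (Fin.is_lt _).trans_le (hY x)
  · simp only [dif_pos (mem_nb.2 h), dif_pos (mem_nb.2 h')] at e
    simpa using (nb Y x).equivFin.injective (Fin.ext e)

theorem path_adj {g : Perm V} {v : V} {i : ℕ} (hi : i + 1 < per g v) :
    (path g v).Adj ((g ^ i) v) ((g ^ (i + 1)) v) := by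
  refine arcs_adj.2 ⟨fun h => ?_, Or.inl ⟨mem_erase.2 ⟨fun h => ?_, pow_mem_cyc g v i⟩, ?_⟩⟩
  · have := pow_inj (by omega) hi h
    omega
  · have h1 : (g ^ (i + 1)) v = (g ^ 0) v := by rw [pow_succ', Perm.mul_apply, h]; simp
    have := pow_inj hi (by omega) h1
    omega
  · rw [pow_succ', Perm.mul_apply]

theorem card_path_fiber {d : ℕ} {Y : SimpleGraph V} (hY : Deg d Y) (h : Perm V) (l : ℕ) :
    (univ.filter fun q : Perm V × V => (off q.1 q.2 = h ∧ path q.1 q.2 ≤ Y) ∧
      per q.1 q.2 = l + 1).card ≤ Fintype.card V * d ^ l := by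
  obtain ⟨code, c1, c2⟩ := exists_code hY
  have : Fintype.card V * d ^ l =
      ((univ : Finset V) ×ˢ Fintype.piFinset fun _ : Fin l => range d).card := by simp
  rw [this]
  refine card_le_card_of_injOn
    (fun q => (q.2, fun i : Fin l => code ((q.1 ^ (i : ℕ)) q.2) ((q.1 ^ ((i : ℕ) + 1)) q.2)))
    (fun q hq => ?_) fun q hq q' hq' e => ?_
  · simp only [coe_filter, mem_univ, true_and, Set.mem_ofPred_eq] at hq
    simp only [coe_product, Set.mem_prod, coe_univ, Set.mem_univ, true_and, mem_coe,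
      Fintype.mem_piFinset, mem_range]
    exact fun i => c1 _ _ (hq.1.2 (path_adj (by have := i.2; omega)))
  · obtain ⟨g, v⟩ := q
    obtain ⟨g', v'⟩ := q'
    simp only [coe_filter, mem_univ, true_and, Set.mem_ofPred_eq] at hq hq'
    simp only [Prod.mk.injEq] at e
    obtain ⟨rfl, e⟩ := e
    refine Prod.ext (eq_of_pows (hq.1.1.trans hq'.1.1.symm) (hq.2.trans hq'.2.symm) ?_) rfl
    intro i hi
    simp only at hi
    induction i with
    | zero => rfl
    | succ i ih =>
      have e1 := congrFun e ⟨i, by omega⟩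
      have e2 := ih (by omega)
      have a1 := hq.1.2 (path_adj hi)
      have a2 := hq'.1.2 (path_adj (i := i) (by omega))
      simp only at e1 e2
      rw [← e2] at e1 a2
      exact c2 _ _ _ a1 a2 e1

theorem sum_path_fiber {d : ℕ} (hd : 1 ≤ d) {Y : SimpleGraph V} (hY : Deg d Y) (h : Perm V) :
    ∑ q ∈ univ.filter (fun q : Perm V × V => off q.1 q.2 = h ∧ path q.1 q.2 ≤ Y),
      (1 : ℝ) / (4 * Fintype.card V * (2 * d) ^ per q.1 q.2) ≤ 1 / 4 := by
  rw [← sum_fiberwise_of_maps_to (t := range (Fintype.card V)) (g := fun q => per q.1 q.2 - 1)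
    (fun q _ => by have := per_le_card q.1 q.2; have := per_pos q.1 q.2; simp; omega)]
  have hd' : (1 : ℝ) ≤ d := by exact_mod_cast hd
  calc _ ≤ ∑ l ∈ range (Fintype.card V), (1 / 8 : ℝ) * (1 / 2) ^ l := by
        refine sum_le_sum fun l hl => ?_
        have hn : (0 : ℝ) < Fintype.card V := by
          have := mem_range.1 hl
          exact_mod_cast (by omega : 0 < Fintype.card V)
        rw [filter_filter, sum_congr (s₂ := univ.filter fun q : Perm V × V =>
          (off q.1 q.2 = h ∧ path q.1 q.2 ≤ Y) ∧ per q.1 q.2 = l + 1)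
          (g := fun _ => (1 : ℝ) / (4 * Fintype.card V * (2 * d) ^ (l + 1)))
          (filter_congr fun q _ => and_congr_right fun _ => by have := per_pos q.1 q.2; omega)
          (fun q hq => by rw [(mem_filter.1 hq).2.2]), sum_const, nsmul_eq_mul]
        have h1 : ((univ.filter fun q : Perm V × V => (off q.1 q.2 = h ∧ path q.1 q.2 ≤ Y) ∧
          per q.1 q.2 = l + 1).card : ℝ) ≤ Fintype.card V * d ^ l := by
          exact_mod_cast card_path_fiber hY h l
        calc _ ≤ (Fintype.card V * d ^ l : ℝ) * (1 / (4 * Fintype.card V * (2 * d) ^ (l + 1))) := by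
              gcongr
          _ = (1 / 8 : ℝ) * (1 / 2) ^ l * (1 / d) := by
              rw [pow_succ, mul_pow, one_div_pow]; field_simp; norm_num
          _ ≤ _ := mul_le_of_le_one_right (by positivity) (by rw [div_le_one (by linarith)]; exact hd')
    _ ≤ _ := by
        rw [← mul_sum]
        have := sum_geometric_two_le (Fintype.card V)
        linarith

noncomputable def ringSet (d : ℕ) (g : Perm V) (v : V) : Finset (SimpleGraph V) :=
  (fixs d g).image fun X => cut X (cyc g v) ⊔ arcs g (cyc g v)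

theorem card_ringSet (d : ℕ) (g : Perm V) (v : V) :
    (fixs d g).card ≤ (Fintype.card V + 1) ^ d * (ringSet d g v).card :=
  card_le_cut _ _ (arcs_inside Subset.rfl) Subset.rfl (fun _ hX => mem_image_of_mem _ hX)
    (fun _ => univ) (fun _ _ => subset_univ _) fun _ _ => card_univ.le

theorem ringSet_mem {d : ℕ} (hd : 2 ≤ d) {g : Perm V} {v : V} {Y : SimpleGraph V}
    (hY : Y ∈ ringSet d g v) : Y ∈ fixs d g ∧ Y ∈ fixs d (off g v) := by
  obtain ⟨X, hX, rfl⟩ := mem_image.1 hY
  have := cut_sup_arcs_mem hd hX (A := cyc g v) Subset.rfl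
  refine ⟨mem_fixs.2 ⟨(mem_fixs.1 this).1, (isAut_cut (mem_fixs.1 hX).2 v).sup ?_⟩, this⟩
  exact isAut_arcs (Commute.refl g) fun x => apply_mem_cyc

theorem ring_nb {d : ℕ} {g : Perm V} {v x : V} {Y : SimpleGraph V} (hv : g v ≠ v)
    (hY : Y ∈ ringSet d g v) (hx : x ∈ cyc g v) : g x ∈ nb Y x ∧ nb Y x ⊆ {g x, g⁻¹ x} := by
  obtain ⟨X, _, rfl⟩ := mem_image.1 hY
  rw [nb_cut_sup_of_mem hx]
  exact ⟨mem_nb.2 (arcs_adj.2 ⟨(not_fixed_of_mem hv hx).symm, Or.inl ⟨hx, rfl⟩⟩),
    nb_arcs_subset _ _ _⟩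

theorem card_ring_fiber (d : ℕ) (Y : SimpleGraph V) (h : Perm V) :
    (univ.filter fun q : Perm V × V => q.1 q.2 ≠ q.2 ∧ Y ∈ ringSet d q.1 q.2 ∧
      off q.1 q.2 = h).card ≤ Fintype.card V ^ 2 := by
  have : Fintype.card V ^ 2 = (univ : Finset (V × V)).card := by simp [sq]
  rw [this]
  refine card_le_card_of_injOn (fun q => (q.2, q.1 q.2)) (fun _ _ => by simp)
    fun q hq q' hq' e => ?_
  obtain ⟨g, v⟩ := q
  obtain ⟨g', v'⟩ := q'
  simp only [coe_filter, mem_univ, true_and, Set.mem_ofPred_eq] at hq hq'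
  simp only [Prod.mk.injEq] at e
  obtain ⟨rfl, e⟩ := e
  have key : ∀ i : ℕ, (g ^ i) v = (g' ^ i) v ∧ (g ^ (i + 1)) v = (g' ^ (i + 1)) v := by
    intro i
    induction i with
    | zero => simpa using e
    | succ i ih =>
      refine ⟨ih.2, ?_⟩
      have r1 := ring_nb hq.1 hq.2.1 (pow_mem_cyc g v (i + 1))
      have r2 := ring_nb hq'.1 hq'.2.1 (pow_mem_cyc g' v (i + 1))
      have p1 : g⁻¹ ((g ^ (i + 1)) v) = (g ^ i) v := by rw [pow_succ']; simp
      have p2 : g'⁻¹ ((g' ^ (i + 1)) v) = (g' ^ i) v := by rw [pow_succ']; simp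
      rw [pow_succ' g (i + 1), pow_succ' g' (i + 1), Perm.mul_apply, Perm.mul_apply]
      rw [p1] at r1
      rw [p2] at r2
      rw [← ih.2, ← ih.1] at r2
      rw [← ih.2]
      have s1 := r2.2 r1.1
      have s2 := r1.2 r2.1
      simp only [mem_insert, mem_singleton] at s1 s2
      rcases s1 with s1 | s1
      · exact s1
      · rcases s2 with s2 | s2
        · exact s2.symm
        · exact s1.trans s2.symm
  refine Prod.ext (eq_of_pows (hq.2.2.trans hq'.2.2.symm) ?_ fun i _ => (key i).1) rfl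
  apply Nat.dvd_antisymm
  · rw [← pow_eq_iff, (key _).1, pow_per]
  · rw [← pow_eq_iff, ← (key _).1, pow_per]

theorem sum_ring {d : ℕ} (hd : 2 ≤ d) (f : SimpleGraph V → ℝ) :
    ∑ q ∈ univ.filter (fun q : Perm V × V => q.1 q.2 ≠ q.2),
      ((fixs d q.1).card : ℝ) * (mean d f q.1 - mean d f (off q.1 q.2)) ^ 2 ≤
      2 * (Fintype.card V + 1) ^ d * (Fintype.card V + Fintype.card V ^ 2) * DD d f := by
  set n := Fintype.card V
  set Q := univ.filter (fun q : Perm V × V => q.1 q.2 ≠ q.2)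
  have h1 : ∀ q ∈ Q, ((fixs d q.1).card : ℝ) * (mean d f q.1 - mean d f (off q.1 q.2)) ^ 2 ≤
      2 * (n + 1) ^ d * (∑ Y ∈ ringSet d q.1 q.2, aa d f (Y, q.1) +
        ∑ Y ∈ ringSet d q.1 q.2, aa d f (Y, off q.1 q.2)) := by
    intro q _
    have c : ((fixs d q.1).card : ℝ) ≤ (n + 1) ^ d * (ringSet d q.1 q.2).card := by
      exact_mod_cast card_ringSet d q.1 q.2
    have e : ((ringSet d q.1 q.2).card : ℝ) * (mean d f q.1 - mean d f (off q.1 q.2)) ^ 2 ≤
        2 * (∑ Y ∈ ringSet d q.1 q.2, aa d f (Y, q.1) +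
        ∑ Y ∈ ringSet d q.1 q.2, aa d f (Y, off q.1 q.2)) := by
      rw [← nsmul_eq_mul, ← sum_const, ← sum_add_distrib, mul_sum]
      refine sum_le_sum fun Y _ => ?_
      simp only [aa]
      nlinarith [sq_nonneg (f Y - mean d f q.1 + (f Y - mean d f (off q.1 q.2)))]
    calc _ ≤ ((n + 1) ^ d * (ringSet d q.1 q.2).card : ℝ) *
          (mean d f q.1 - mean d f (off q.1 q.2)) ^ 2 := by gcongr
      _ ≤ _ := by
          rw [mul_assoc, mul_comm 2, mul_assoc]
          exact mul_le_mul_of_nonneg_left e (by positivity)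
  have h2 : ∑ q ∈ Q, ∑ Y ∈ ringSet d q.1 q.2, aa d f (Y, q.1) ≤ n * DD d f := by
    calc _ ≤ ∑ q : Perm V × V, ∑ Y ∈ fixs d q.1, aa d f (Y, q.1) := by
          refine (sum_le_sum fun q _ => ?_).trans (sum_le_univ_sum_of_nonneg fun q =>
            sum_nonneg fun Y _ => aa_nonneg _ _ _)
          exact sum_le_sum_of_subset_of_nonneg (fun Y hY => (ringSet_mem hd hY).1)
            fun _ _ _ => aa_nonneg _ _ _
      _ = _ := by
          rw [Fintype.sum_prod_type_right, DD, sum_Prs_right]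
          simp [n]
  have h3 : ∑ q ∈ Q, ∑ Y ∈ ringSet d q.1 q.2, aa d f (Y, off q.1 q.2) ≤ n ^ 2 * DD d f := by
    rw [sum_sigma', DD, mul_sum, ← sum_fiberwise_of_maps_to (t := Prs V d)
      (g := fun z => (z.2, off z.1.1 z.1.2)) (fun z hz => by
        have := mem_fixs.1 (ringSet_mem hd (mem_sigma.1 hz).2).2
        exact mem_Prs.2 this)]
    refine sum_le_sum fun p _ => ?_
    rw [sum_congr rfl (g := fun _ => aa d f p) (fun z hz => by rw [(mem_filter.1 hz).2]),
      sum_const, nsmul_eq_mul]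
    refine mul_le_mul_of_nonneg_right ?_ (aa_nonneg _ _ _)
    norm_cast
    refine le_trans ?_ (card_ring_fiber d p.1 p.2)
    refine card_le_card_of_injOn (fun z => z.1) (fun z hz => ?_) fun z hz z' hz' e => ?_
    · simp only [coe_filter, mem_sigma, Set.mem_ofPred_eq, Q, mem_filter, mem_univ,
        true_and] at hz ⊢
      obtain ⟨⟨a, b⟩, rfl⟩ := hz
      exact ⟨a, b, rfl⟩
    · simp only [coe_filter, Set.mem_ofPred_eq] at hz hz'
      obtain ⟨a, b⟩ := z
      obtain ⟨a', b'⟩ := z'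
      have e1 := congrArg Prod.fst (hz.2.trans hz'.2.symm)
      simp only at e e1
      subst e e1
      rfl
  refine (sum_le_sum h1).trans ?_
  rw [← mul_sum, sum_add_distrib, mul_assoc (2 * _), add_mul]
  gcongr

/-- the vertices whose cycle may be removed -/
noncomputable def wset (L : ℕ) (g : Perm V) : Finset V :=
  if long L g = ∅ then g.support else long L g

theorem wset_ne {L : ℕ} (hL : 2 ≤ L) {g : Perm V} {v : V} (h : v ∈ wset L g) : g v ≠ v := by
  unfold wset at h
  split_ifs at h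
  · simpa using h
  · rw [Ne, ← per_eq_one_iff]
    have := mem_long.1 h
    omega

theorem wset_pos {L : ℕ} {g : Perm V} (h : g ≠ 1) : 0 < (wset L g).card := by
  unfold wset
  split_ifs with h1
  · rwa [card_pos, nonempty_iff_ne_empty, Ne, Perm.support_eq_empty_iff]
  · exact card_pos.2 (nonempty_iff_ne_empty.2 h1)

theorem key_K {d L M T : ℕ} (hd : 3 ≤ d) (hL : 2 ≤ L)
    (hB : ∀ l, L ≤ l → ∃ m J, m + 2 * J ≤ l ∧ 4 * Fintype.card V * (2 * d) ^ l *
      ((Fintype.card V + 1) ^ d * (d * l) ^ J) ≤ (m * (m - 1 - d)) ^ J)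
    (h3 : ∀ s, 1 ≤ s → s ≤ Fintype.card V → ∃ m, 4 * (d * s) ≤ m * (m - L - d) ∧
      4 * Fintype.card V * (2 * d) ^ L * (2 * ((d + 1) * L + L * m + T + 1) ^ d *
        (d ^ 2) ^ (d - 1)) ≤ s * (M - (d + 1) ^ 2 * L) ^ (d - 1))
    (hT : 4 * (Fintype.card V * d ^ 2) ≤ T * (M - (d + 1) ^ 2)) {g : Perm V} {v : V}
    (hv : v ∈ wset L g) : (fixS d L M g).card * (4 * Fintype.card V * (2 * d) ^ per g v) ≤
      (wset L g).card * (pathSet d L M g v).card := by
  have hv' := wset_ne hL hv
  have hn : 0 < Fintype.card V := Fintype.card_pos_iff.2 ⟨v⟩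
  have hp := per_pos g v
  unfold wset at hv ⊢
  split_ifs at hv ⊢ with h
  · have hs : 0 < g.support.card := card_pos.2 ⟨v, hv⟩
    obtain ⟨m, m1, m2⟩ := h3 _ hs (card_le_univ _)
    have h1 := move3 hd hv' h m1 hT
    have hper : per g v ≤ L := by
      have : v ∉ long L g := by simp [h]
      rw [mem_long] at this
      omega
    have pos : 0 < (M - (d + 1) ^ 2 * L) ^ (d - 1) :=
      Nat.pos_of_mul_pos_left (lt_of_lt_of_le (by positivity) m2)
    refine Nat.le_of_mul_le_mul_right ?_ pos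
    calc _ ≤ (fixS d L M g).card * (4 * Fintype.card V * (2 * d) ^ L) *
          (M - (d + 1) ^ 2 * L) ^ (d - 1) := by gcongr; omega
      _ = 4 * Fintype.card V * (2 * d) ^ L *
          ((fixS d L M g).card * (M - (d + 1) ^ 2 * L) ^ (d - 1)) := by ring
      _ ≤ 4 * Fintype.card V * (2 * d) ^ L * _ := Nat.mul_le_mul_left _ h1
      _ = (pathSet d L M g v).card * (4 * Fintype.card V * (2 * d) ^ L *
          (2 * ((d + 1) * L + L * m + T + 1) ^ d * (d ^ 2) ^ (d - 1))) := by ring
      _ ≤ _ := (Nat.mul_le_mul_left _ m2).trans (le_of_eq (by ring))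
  · obtain ⟨m, J, m1, m2⟩ := hB _ (mem_long.1 hv)
    have h1 := moveB (L := L) (M := M) hd hv' m1
    have hs : 0 < (long L g).card := card_pos.2 ⟨v, hv⟩
    have pos : 0 < (m * (m - 1 - d)) ^ J := lt_of_lt_of_le (by positivity) m2
    refine Nat.le_of_mul_le_mul_right ?_ pos
    calc _ = 4 * Fintype.card V * (2 * d) ^ per g v *
          ((fixS d L M g).card * (m * (m - 1 - d)) ^ J) := by ring
      _ ≤ 4 * Fintype.card V * (2 * d) ^ per g v * _ := Nat.mul_le_mul_left _ h1
      _ = (pathSet d L M g v).card * (4 * Fintype.card V * (2 * d) ^ per g v *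
          ((Fintype.card V + 1) ^ d * (d * per g v) ^ J)) := by ring
      _ ≤ (pathSet d L M g v).card * (m * (m - 1 - d)) ^ J := Nat.mul_le_mul_left _ m2
      _ ≤ _ := by gcongr; exact Nat.le_mul_of_pos_left _ hs

theorem contract {d L M : ℕ} (hd : 2 ≤ d) (hL : 2 ≤ L)
    (hK : ∀ (g : Perm V) v, v ∈ wset L g →
      (fixS d L M g).card * (4 * Fintype.card V * (2 * d) ^ per g v) ≤
      (wset L g).card * (pathSet d L M g v).card) (f : SimpleGraph V → ℝ) :
    ∑ g, ((fixS d L M g).card : ℝ) * (mean d f g - mean d f 1) ^ 2 ≤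
      8 * (Fintype.card V + 1) ^ d * (Fintype.card V + Fintype.card V ^ 2) * DD d f := by
  set n := Fintype.card V
  set φ : Perm V → ℝ := fun g => (mean d f g - mean d f 1) ^ 2 with hφ
  have φ0 : ∀ g, 0 ≤ φ g := fun g => sq_nonneg _
  set W := univ.filter (fun q : Perm V × V => q.2 ∈ wset L q.1)
  have hW : ∀ ψ : Perm V × V → ℝ, ∑ q ∈ W, ψ q = ∑ g, ∑ v ∈ wset L g, ψ (g, v) := by
    intro ψ
    simp only [W, sum_filter, Fintype.sum_prod_type]
    simp
  have h1 : ∑ g, ((fixS d L M g).card : ℝ) * φ g ≤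
      ∑ q ∈ W, (2 * ((fixS d L M q.1).card / (wset L q.1).card * φ (off q.1 q.2)) +
        2 * ((fixs d q.1).card * (mean d f q.1 - mean d f (off q.1 q.2)) ^ 2)) := by
    rw [hW]
    refine sum_le_sum fun g _ => ?_
    by_cases hg : g = 1
    · subst hg
      simp only [hφ, sub_self, ne_eq, OfNat.ofNat_ne_zero, not_false_eq_true, zero_pow, mul_zero]
      positivity
    have hw : (1 : ℝ) ≤ (wset L g).card := by exact_mod_cast wset_pos hg
    have e : ((fixS d L M g).card : ℝ) * φ g =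
        ∑ v ∈ wset L g, (fixS d L M g).card / (wset L g).card * φ g := by
      rw [sum_const, nsmul_eq_mul]; field_simp
    rw [e]
    refine sum_le_sum fun v _ => ?_
    have c1 : ((fixS d L M g).card : ℝ) / (wset L g).card ≤ (fixs d g).card :=
      (div_le_self (by positivity) hw).trans (by exact_mod_cast card_filter_le _ _)
    have c2 : φ g ≤ 2 * φ (off g v) + 2 * (mean d f g - mean d f (off g v)) ^ 2 := by
      simp only [hφ]
      nlinarith [sq_nonneg (mean d f (off g v) - mean d f 1 - (mean d f g - mean d f (off g v)))]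
    have c3 := mul_le_mul_of_nonneg_left c2
      (show 0 ≤ ((fixS d L M g).card : ℝ) / (wset L g).card by positivity)
    have c4 := mul_le_mul_of_nonneg_right c1 (sq_nonneg (mean d f g - mean d f (off g v)))
    simp only
    linarith
  have h2 : ∑ q ∈ W, (fixs d q.1).card * (mean d f q.1 - mean d f (off q.1 q.2)) ^ 2 ≤
      2 * (n + 1) ^ d * (n + n ^ 2) * DD d f := by
    refine le_trans (sum_le_sum_of_subset_of_nonneg (fun q hq => ?_) fun _ _ _ => by positivity)
      (sum_ring hd f)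
    exact mem_filter.2 ⟨mem_univ _, wset_ne hL (mem_filter.1 hq).2⟩
  have h3 : ∑ q ∈ W, (fixS d L M q.1).card / (wset L q.1).card * φ (off q.1 q.2) ≤
      1 / 4 * ∑ g, ((fixS d L M g).card : ℝ) * φ g := by
    calc _ ≤ ∑ q : Perm V × V, ∑ Y ∈ pathSet d L M q.1 q.2,
          φ (off q.1 q.2) * (1 / (4 * n * (2 * d) ^ per q.1 q.2)) := by
          refine le_trans (sum_le_sum fun q hq => ?_) (sum_le_univ_sum_of_nonneg fun q =>
            sum_nonneg fun Y _ => mul_nonneg (φ0 _) (by positivity))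
          have hq' := (mem_filter.1 hq).2
          have k : ((fixS d L M q.1).card : ℝ) * (4 * n * (2 * d) ^ per q.1 q.2) ≤
              (wset L q.1).card * (pathSet d L M q.1 q.2).card := by exact_mod_cast hK _ _ hq'
          have hw : (0 : ℝ) < (wset L q.1).card := by exact_mod_cast card_pos.2 ⟨_, hq'⟩
          have hn : (0 : ℝ) < n := by exact_mod_cast Fintype.card_pos_iff.2 ⟨q.2⟩
          have hd' : (0 : ℝ) < d := by exact_mod_cast (by omega : 0 < d)
          rw [sum_const, nsmul_eq_mul, mul_comm (φ _), ← mul_assoc]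
          refine mul_le_mul_of_nonneg_right ?_ (φ0 _)
          rw [mul_one_div, div_le_div_iff₀ hw (by positivity)]
          linarith
      _ = ∑ h, ∑ Y ∈ fixS d L M h, φ h * ∑ q ∈ univ.filter
          (fun q : Perm V × V => off q.1 q.2 = h ∧ path q.1 q.2 ≤ Y),
          (1 : ℝ) / (4 * n * (2 * d) ^ per q.1 q.2) := by
          rw [← sum_fiberwise (s := univ) (g := fun q : Perm V × V => off q.1 q.2)]
          refine sum_congr rfl fun h _ => ?_
          simp only [mul_sum, sum_filter, pathSet]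
          rw [sum_comm]
          refine sum_congr rfl fun q _ => ?_
          split_ifs with hq
          · subst hq; simp
          · simp [hq]
      _ ≤ ∑ h, ∑ Y ∈ fixS d L M h, φ h * (1 / 4) := by
          refine sum_le_sum fun h _ => sum_le_sum fun Y hY => mul_le_mul_of_nonneg_left ?_ (φ0 _)
          exact sum_path_fiber (by omega) (mem_fixs.1 (mem_fixS.1 hY).1).1 h
      _ = _ := by
          rw [mul_sum]
          refine sum_congr rfl fun h _ => ?_
          rw [sum_const, nsmul_eq_mul]; ring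
  rw [sum_add_distrib, ← mul_sum, ← mul_sum] at h1
  linarith

end Pool.Agent.Lib.MP_449609_pr
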