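import Pool.Agent.Lib.MP_449609_pr.Basic

set_option autoImplicit false
set_option linter.unusedSectionVars false

open Finset Equiv
open Classical

namespace Pool.Agent.Lib.MP_449609_pr

variable {V : Type} [Fintype V] [DecidableEq V]

/-- length of the cycle of `g` through `v` -/
noncomputable def per (g : Perm V) (v : V) : ℕ := MulAction.period g v

/-- the cycle of `g` through `v` -/
noncomputable def cyc (g : Perm V) (v : V) : Finset V := univ.filter (g.SameCycle v)

@[simp] theorem mem_cyc {g : Perm V} {v u : V} : u ∈ cyc g v ↔ g.SameCycle v u := by simp [cyc]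

theorem per_pos (g : Perm V) (v : V) : 0 < per g v :=
  MulAction.period_pos_of_orderOf_pos (orderOf_pos g) v

theorem zpow_eq_iff {g : Perm V} {v : V} {j : ℤ} : (g ^ j) v = v ↔ (per g v : ℤ) ∣ j :=
  MulAction.zpow_smul_eq_iff_period_dvd (g := g) (a := v)

theorem pow_eq_iff {g : Perm V} {v : V} {j : ℕ} : (g ^ j) v = v ↔ per g v ∣ j :=
  MulAction.pow_smul_eq_iff_period_dvd (m := g) (a := v)

theorem pow_per (g : Perm V) (v : V) : (g ^ per g v) v = v := pow_eq_iff.2 dvd_rfl

theorem per_eq_one_iff {g : Perm V} {v : V} : per g v = 1 ↔ g v = v :=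
  MulAction.period_eq_one_iff (m := g) (a := v)

theorem zpow_eq_zpow_iff {g : Perm V} {v : V} {i j : ℤ} :
    (g ^ i) v = (g ^ j) v ↔ (per g v : ℤ) ∣ i - j := by
  rw [← zpow_eq_iff, sub_eq_neg_add, zpow_add, Perm.mul_apply, zpow_neg, Perm.inv_eq_iff_eq]

theorem pow_inj {g : Perm V} {v : V} {i j : ℕ} (hi : i < per g v) (hj : j < per g v)
    (h : (g ^ i) v = (g ^ j) v) : i = j := by
  have h' : (g ^ (i : ℤ)) v = (g ^ (j : ℤ)) v := by simpa using h
  rw [zpow_eq_zpow_iff] at h'
  have := Int.eq_zero_of_abs_lt_dvd h' (by rw [abs_lt]; constructor <;> omega)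
  omega

theorem exists_pow_of_mem {g : Perm V} {v u : V} (h : u ∈ cyc g v) :
    ∃ i < per g v, (g ^ i) v = u := by
  obtain ⟨i, hi⟩ := (mem_cyc.1 h).exists_nat_pow_eq
  refine ⟨i % per g v, Nat.mod_lt _ (per_pos g v), ?_⟩
  rw [← hi]
  exact MulAction.pow_mod_period_smul (m := g) (a := v) i

theorem pow_mem_cyc (g : Perm V) (v : V) (i : ℕ) : (g ^ i) v ∈ cyc g v :=
  mem_cyc.2 ⟨i, by simp⟩

theorem zpow_mem_cyc (g : Perm V) (v : V) (i : ℤ) : (g ^ i) v ∈ cyc g v :=
  mem_cyc.2 ⟨i, rfl⟩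

theorem self_mem_cyc (g : Perm V) (v : V) : v ∈ cyc g v := mem_cyc.2 (Perm.SameCycle.refl _ _)

theorem cyc_eq_image (g : Perm V) (v : V) :
    cyc g v = (range (per g v)).image fun i => (g ^ i) v := by
  ext u
  simp only [mem_image, mem_range]
  exact ⟨fun h => exists_pow_of_mem h, fun ⟨i, _, h⟩ => h ▸ pow_mem_cyc g v i⟩

theorem card_cyc (g : Perm V) (v : V) : (cyc g v).card = per g v := by
  rw [cyc_eq_image, card_image_of_injOn, card_range]
  intro i hi j hj h
  exact pow_inj (by simpa using hi) (by simpa using hj) h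

theorem apply_mem_cyc {g : Perm V} {v u : V} : g u ∈ cyc g v ↔ u ∈ cyc g v := by simp

theorem inv_apply_mem_cyc {g : Perm V} {v u : V} : g⁻¹ u ∈ cyc g v ↔ u ∈ cyc g v := by
  rw [← apply_mem_cyc]; simp

theorem zpow_apply_mem_cyc {g : Perm V} {v u : V} (i : ℤ) :
    (g ^ i) u ∈ cyc g v ↔ u ∈ cyc g v := by simp

theorem cyc_eq_of_mem {g : Perm V} {v u : V} (h : u ∈ cyc g v) : cyc g u = cyc g v := by
  ext x
  simp only [mem_cyc] at *
  exact ⟨fun h' => h.trans h', fun h' => h.symm.trans h'⟩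

theorem per_eq_of_mem {g : Perm V} {v u : V} (h : u ∈ cyc g v) : per g u = per g v := by
  rw [← card_cyc, ← card_cyc, cyc_eq_of_mem h]

theorem per_le_card (g : Perm V) (v : V) : per g v ≤ Fintype.card V := by
  rw [← card_cyc]; exact card_le_univ _

theorem not_fixed_of_mem {g : Perm V} {v u : V} (hv : g v ≠ v) (h : u ∈ cyc g v) : g u ≠ u := by
  rw [Ne, ← per_eq_one_iff] at *
  rwa [per_eq_of_mem h]

/-- `g` with the cycle through `v` removed -/
noncomputable def off (g : Perm V) (v : V) : Perm V := g * (g.cycleOf v)⁻¹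

theorem off_apply (g : Perm V) (v x : V) : off g v x = if x ∈ cyc g v then x else g x := by
  simp only [off, Perm.mul_apply, Perm.cycleOf_inv, Perm.cycleOf_apply, Perm.sameCycle_inv,
    mem_cyc]
  split_ifs <;> simp

theorem off_of_mem {g : Perm V} {v x : V} (h : x ∈ cyc g v) : off g v x = x := by
  rw [off_apply, if_pos h]

theorem off_of_not_mem {g : Perm V} {v x : V} (h : x ∉ cyc g v) : off g v x = g x := by
  rw [off_apply, if_neg h]

theorem off_mem_cyc {g : Perm V} {v x : V} : off g v x ∈ cyc g v ↔ x ∈ cyc g v := by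
  rw [off_apply]; split_ifs with h
  · rfl
  · exact apply_mem_cyc

theorem off_pow_of_not_mem {g : Perm V} {v x : V} (h : x ∉ cyc g v) (i : ℕ) :
    (off g v ^ i) x = (g ^ i) x := by
  induction i with
  | zero => rfl
  | succ i ih =>
    rw [pow_succ', pow_succ', Perm.mul_apply, Perm.mul_apply, ih, off_of_not_mem]
    simpa using h

theorem per_off_of_not_mem {g : Perm V} {v x : V} (h : x ∉ cyc g v) :
    per (off g v) x = per g x := by
  apply Nat.dvd_antisymm
  · rw [← pow_eq_iff, off_pow_of_not_mem h, pow_per]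
  · rw [← pow_eq_iff, ← off_pow_of_not_mem h, pow_per]

theorem off_fixed_of_fixed {g : Perm V} {v x : V} (h : g x = x) : off g v x = x := by
  rw [off_apply]; split_ifs <;> simp [h]

/-- delete all edges touching `c` -/
def cut (X : SimpleGraph V) (c : Finset V) : SimpleGraph V where
  Adj x y := X.Adj x y ∧ x ∉ c ∧ y ∉ c
  symm := ⟨fun _ _ h => ⟨h.1.symm, h.2.2, h.2.1⟩⟩
  loopless := ⟨fun _ h => h.1.ne rfl⟩

@[simp] theorem cut_adj {X : SimpleGraph V} {c : Finset V} {x y : V} :
    (cut X c).Adj x y ↔ X.Adj x y ∧ x ∉ c ∧ y ∉ c := Iff.rfl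

/-- the edges from `x` to `g x` for `x` in `A` -/
def arcs (g : Perm V) (A : Finset V) : SimpleGraph V :=
  SimpleGraph.fromRel fun x y => x ∈ A ∧ y = g x

theorem arcs_adj {g : Perm V} {A : Finset V} {x y : V} :
    (arcs g A).Adj x y ↔ x ≠ y ∧ ((x ∈ A ∧ y = g x) ∨ (y ∈ A ∧ x = g y)) := by
  simp [arcs, SimpleGraph.fromRel_adj]

/-- a graph all of whose edges lie inside `c` -/
def Inside (H : SimpleGraph V) (c : Finset V) : Prop := ∀ x y, H.Adj x y → x ∈ c

theorem arcs_inside {g : Perm V} {v : V} {A : Finset V} (hA : A ⊆ cyc g v) :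
    Inside (arcs g A) (cyc g v) := by
  intro x y h
  rcases (arcs_adj.1 h).2 with h | h
  · exact hA h.1
  · rw [h.2, apply_mem_cyc]; exact hA h.1

theorem nb_arcs_subset (g : Perm V) (A : Finset V) (x : V) : nb (arcs g A) x ⊆ {g x, g⁻¹ x} := by
  intro y hy
  rcases (arcs_adj.1 (mem_nb.1 hy)).2 with h | h
  · simp [h.2]
  · simp [h.2]

theorem card_nb_arcs (g : Perm V) (A : Finset V) (x : V) : (nb (arcs g A) x).card ≤ 2 :=
  (card_le_card (nb_arcs_subset g A x)).trans card_le_two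

theorem isAut_arcs {g φ : Perm V} {A : Finset V} (hc : Commute g φ) (hA : ∀ x, g x ∈ A ↔ x ∈ A) :
    IsAut (arcs φ A) g := by
  intro x y
  have e : ∀ x, φ (g x) = g (φ x) := fun x => by
    rw [← Perm.mul_apply, ← hc.eq, Perm.mul_apply]
  simp [arcs_adj, hA, e]

theorem IsAut.sup {X Y : SimpleGraph V} {g : Perm V} (hX : IsAut X g) (hY : IsAut Y g) :
    IsAut (X ⊔ Y) g := fun x y => by simp [hX x y, hY x y]

theorem isAut_cut {X : SimpleGraph V} {g : Perm V} (hX : IsAut X g) (v : V) :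
    IsAut (cut X (cyc g v)) g := fun x y => by
  simp only [cut_adj, hX x y, apply_mem_cyc]

theorem isAut_cut_off {X : SimpleGraph V} {g : Perm V} (hX : IsAut X g) (v : V) :
    IsAut (cut X (cyc g v)) (off g v) := fun x y => by
  simp only [cut_adj, off_mem_cyc]
  refine and_congr_left fun h => ?_
  rw [off_of_not_mem h.1, off_of_not_mem h.2, hX x y]

theorem Inside.isAut_off {H : SimpleGraph V} {g : Perm V} {v : V} (hH : Inside H (cyc g v)) :
    IsAut H (off g v) := fun x y => by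
  by_cases hx : x ∈ cyc g v
  · by_cases hy : y ∈ cyc g v
    · rw [off_of_mem hx, off_of_mem hy]
    · exact ⟨fun h => absurd (off_mem_cyc.1 (hH _ _ h.symm)) hy, fun h => absurd (hH _ _ h.symm) hy⟩
  · exact ⟨fun h => absurd (off_mem_cyc.1 (hH _ _ h)) hx, fun h => absurd (hH _ _ h) hx⟩

theorem nb_cut_sup_of_mem {X H : SimpleGraph V} {c : Finset V} {x : V} (hx : x ∈ c) :
    nb (cut X c ⊔ H) x = nb H x := by
  ext y; simp [hx]

theorem nb_cut_sup_of_not_mem {X H : SimpleGraph V} {c : Finset V} (hH : Inside H c) {x : V}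
    (hx : x ∉ c) : nb (cut X c ⊔ H) x ⊆ nb X x := by
  intro y hy
  rcases (mem_nb.1 hy) with h | h
  · exact mem_nb.2 h.1
  · exact absurd (hH _ _ h) hx

theorem deg_cut_sup {d : ℕ} {X H : SimpleGraph V} {c : Finset V} (hH : Inside H c) (hX : Deg d X)
    (hd : ∀ x, (nb H x).card ≤ d) : Deg d (cut X c ⊔ H) := fun x => by
  by_cases hx : x ∈ c
  · rw [nb_cut_sup_of_mem hx]; exact hd x
  · exact (card_le_card (nb_cut_sup_of_not_mem hH hx)).trans (hX x)

theorem cut_cut_sup {X H : SimpleGraph V} {c : Finset V} (hH : Inside H c) :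
    cut (cut X c ⊔ H) c = cut X c := by
  ext x y
  simp only [cut_adj, SimpleGraph.sup_adj]
  constructor
  · rintro ⟨h | h, h1, h2⟩
    · exact h
    · exact absurd (hH _ _ h) h1
  · exact fun h => ⟨Or.inl h, h.2⟩

theorem eq_of_cut_nb {X X' : SimpleGraph V} {g : Perm V} {v : V} (hX : IsAut X g)
    (hX' : IsAut X' g) (hc : cut X (cyc g v) = cut X' (cyc g v)) (hn : nb X v = nb X' v) :
    X = X' := by
  have key : ∀ x y, x ∈ cyc g v → (X.Adj x y ↔ X'.Adj x y) := by
    intro x y hx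
    obtain ⟨i, rfl⟩ := mem_cyc.1 hx
    have e : y = (g ^ i) ((g ^ i)⁻¹ y) := by simp
    rw [e, hX.zpow i, hX'.zpow i, ← mem_nb, ← mem_nb, hn]
  ext x y
  by_cases hx : x ∈ cyc g v
  · exact key x y hx
  by_cases hy : y ∈ cyc g v
  · rw [X.adj_comm, X'.adj_comm]; exact key y x hy
  have := congrArg (fun Z : SimpleGraph V => Z.Adj x y) hc
  simpa [hx, hy, -mem_cyc] using this

/-- subsets of size at most `k` -/
noncomputable def subs {α : Type*} (k : ℕ) (E : Finset α) : Finset (Finset α) :=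
  E.powerset.filter fun s => s.card ≤ k

theorem mem_subs {α : Type*} {k : ℕ} {E s : Finset α} : s ∈ subs k E ↔ s ⊆ E ∧ s.card ≤ k := by
  simp [subs]

theorem card_subs {α : Type*} (k : ℕ) (E : Finset α) : (subs k E).card ≤ (E.card + 1) ^ k := by
  induction k with
  | zero =>
    simp only [pow_zero]
    refine card_le_one.2 fun a ha b hb => ?_
    rw [mem_subs, Nat.le_zero, card_eq_zero] at ha hb
    rw [ha.2, hb.2]
  | succ k ih =>
    have : subs (k + 1) E ⊆ subs k E ∪ (E ×ˢ subs k E).image fun p => insert p.1 p.2 := by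
      intro s hs
      rw [mem_subs] at hs
      rw [mem_union]
      rcases s.eq_empty_or_nonempty with rfl | ⟨a, ha⟩
      · left; simp [mem_subs]
      · right
        refine mem_image.2 ⟨(a, s.erase a), ?_, insert_erase ha⟩
        rw [mem_product, mem_subs, card_erase_of_mem ha]
        exact ⟨hs.1 ha, (erase_subset _ _).trans hs.1, by omega⟩
    calc _ ≤ (subs k E).card + (E ×ˢ subs k E).card :=
          (card_le_card this).trans ((card_union_le _ _).trans (by gcongr; exact card_image_le))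
      _ = (E.card + 1) * (subs k E).card := by rw [card_product]; ring
      _ ≤ _ := by rw [pow_succ']; gcongr

/-- counting by fibres, each fibre being coded inside a small set -/
theorem card_le_of_code {α β γ : Type*} (A : Finset α) (B : Finset β) (F : α → β) (G : α → γ)
    (T : α → Finset γ) (k : ℕ) (hF : ∀ x ∈ A, F x ∈ B) (hT : ∀ x ∈ A, (T x).card ≤ k)
    (hG : ∀ x ∈ A, ∀ y ∈ A, F x = F y → G y ∈ T x)
    (hinj : ∀ x ∈ A, ∀ y ∈ A, F x = F y → G x = G y → x = y) : A.card ≤ k * B.card := by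
  refine card_le_mul_card_image_of_maps_to hF k fun b _ => ?_
  rcases (A.filter fun x => F x = b).eq_empty_or_nonempty with h | ⟨x, hx⟩
  · simp [h]
  rw [mem_filter] at hx
  refine le_trans (card_le_card_of_injOn G (fun y hy => ?_) fun y hy z hz h => ?_) (hT x hx.1)
  · rw [coe_filter] at hy
    exact hG x hx.1 y hy.1 (hx.2.trans hy.2.symm)
  · rw [coe_filter] at hy hz
    exact hinj y hy.1 z hz.1 (hy.2.trans hz.2.symm) h

theorem card_le_cut {d E : ℕ} {g : Perm V} {v : V} (A B : Finset (SimpleGraph V))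
    {H : SimpleGraph V} (hH : Inside H (cyc g v)) (hA : A ⊆ fixs d g)
    (hB : ∀ X ∈ A, cut X (cyc g v) ⊔ H ∈ B) (Cand : SimpleGraph V → Finset V)
    (h1 : ∀ X ∈ A, nb X v ⊆ Cand (cut X (cyc g v)))
    (h2 : ∀ X ∈ A, (Cand (cut X (cyc g v))).card ≤ E) : A.card ≤ (E + 1) ^ d * B.card := by
  have hc : ∀ X Y : SimpleGraph V, cut X (cyc g v) ⊔ H = cut Y (cyc g v) ⊔ H →
      cut X (cyc g v) = cut Y (cyc g v) := fun X Y h => by
    rw [← cut_cut_sup hH, h, cut_cut_sup hH]
  refine card_le_of_code A B (fun X => cut X (cyc g v) ⊔ H) (fun X => nb X v)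
    (fun X => subs d (Cand (cut X (cyc g v)))) _ hB (fun X hX => ?_) (fun X hX Y hY h => ?_)
    fun X hX Y hY h h' => ?_
  · exact (card_subs _ _).trans (by gcongr; exact h2 X hX)
  · rw [mem_subs, hc X Y h]
    exact ⟨h1 Y hY, (mem_fixs.1 (hA hY)).1 v⟩
  · exact eq_of_cut_nb (mem_fixs.1 (hA hX)).2 (mem_fixs.1 (hA hY)).2 (hc X Y h) h'

/-- double counting of switchings -/
theorem dcount {α β γ : Type*} (A : Finset α) (B : Finset β) (P : α → Finset γ) (F : α → γ → β)
    (R : β → Finset γ) (a b : ℕ) (hP : ∀ x ∈ A, a ≤ (P x).card)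
    (hF : ∀ x ∈ A, ∀ p ∈ P x, F x p ∈ B) (hR : ∀ y ∈ B, (R y).card ≤ b)
    (hR' : ∀ x ∈ A, ∀ p ∈ P x, p ∈ R (F x p))
    (hinj : ∀ x ∈ A, ∀ x' ∈ A, ∀ p ∈ P x, p ∈ P x' → F x p = F x' p → x = x') :
    A.card * a ≤ B.card * b := by
  calc A.card * a ≤ ∑ x ∈ A, (P x).card := by
        rw [← smul_eq_mul]; exact card_nsmul_le_sum A _ a hP
    _ = (A.sigma P).card := (card_sigma _ _).symm
    _ ≤ (B.sigma R).card := by
        refine card_le_card_of_injOn (fun q => ⟨F q.1 q.2, q.2⟩) (fun q hq => ?_)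
          fun q hq q' hq' h => ?_
        · simp only [coe_sigma, Set.mem_sigma_iff, mem_coe] at hq ⊢
          exact ⟨hF _ hq.1 _ hq.2, hR' _ hq.1 _ hq.2⟩
        · simp only [coe_sigma, Set.mem_sigma_iff, mem_coe] at hq hq'
          obtain ⟨x, p⟩ := q
          obtain ⟨x', p'⟩ := q'
          simp only [Sigma.mk.injEq, heq_eq_eq] at h ⊢
          obtain ⟨h1, rfl⟩ := h
          exact ⟨hinj x hq.1 x' hq'.1 p hq.2 hq'.2 h1, rfl⟩
    _ = ∑ y ∈ B, (R y).card := card_sigma _ _
    _ ≤ B.card * b := by rw [← smul_eq_mul]; exact sum_le_card_nsmul B _ b hR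

theorem levels (c : ℕ → ℕ) (a b J : ℕ) (h : ∀ j < J, c j * a ≤ c (j + 1) * b) :
    c 0 * a ^ J ≤ c J * b ^ J := by
  induction J with
  | zero => simp
  | succ J ih =>
    have h1 := ih fun j hj => h j (by omega)
    have h2 := h J (by omega)
    calc c 0 * a ^ (J + 1) = c 0 * a ^ J * a := by ring
      _ ≤ c J * b ^ J * a := by gcongr
      _ = c J * a * b ^ J := by ring
      _ ≤ c (J + 1) * b * b ^ J := by gcongr
      _ = _ := by ring

/-- arcs starting in `U` -/
noncomputable def arcsFrom (X : SimpleGraph V) (U : Finset V) : Finset (V × V) :=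
  univ.filter fun p => p.1 ∈ U ∧ X.Adj p.1 p.2

theorem card_arcsFrom {d : ℕ} {X : SimpleGraph V} (hX : Deg d X) (U : Finset V) :
    (arcsFrom X U).card ≤ d * U.card := by
  refine card_le_mul_card_image_of_maps_to (f := Prod.fst) (fun p hp => ?_) d fun u _ => ?_
  · exact (mem_filter.1 hp).2.1
  · refine le_trans (card_le_card_of_injOn Prod.snd (fun p hp => ?_) fun p hp q hq h => ?_) (hX u)
    · simp only [arcsFrom, coe_filter, mem_filter, mem_univ, true_and, Set.mem_ofPred_eq] at hp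
      simpa [← hp.2] using hp.1.2
    · simp only [coe_filter, Set.mem_ofPred_eq] at hp hq
      exact Prod.ext (hp.2.trans hq.2.symm) h

/-- closed neighbourhood of a set -/
noncomputable def ball (X : SimpleGraph V) (C : Finset V) : Finset V := C ∪ C.biUnion (nb X)

theorem card_ball {d : ℕ} {X : SimpleGraph V} (hX : Deg d X) (C : Finset V) :
    (ball X C).card ≤ (d + 1) * C.card := by
  have : (C.biUnion (nb X)).card ≤ C.card * d :=
    card_biUnion_le_card_mul _ _ _ fun x _ => hX x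
  have := card_union_le C (C.biUnion (nb X))
  unfold ball
  nlinarith

theorem mem_ball {X : SimpleGraph V} {C : Finset V} {x : V} :
    x ∈ ball X C ↔ x ∈ C ∨ ∃ c ∈ C, X.Adj c x := by simp [ball]

end Pool.Agent.Lib.MP_449609_pr
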