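import Pool.Agent.Lib.MP_449609_pr.Contract

set_option autoImplicit false
set_option linter.unusedSectionVars false

open Finset Equiv
open Classical

namespace Pool.Agent.Lib.MP_449609_pr

variable {V : Type} [Fintype V] [DecidableEq V]

/-- relabelling -/
def act (σ : Perm V) (X : SimpleGraph V) : SimpleGraph V := X.comap σ.symm

theorem act_adj {σ : Perm V} {X : SimpleGraph V} {x y : V} :
    (act σ X).Adj x y ↔ X.Adj (σ⁻¹ x) (σ⁻¹ y) := Iff.rfl

theorem act_adj' {σ : Perm V} {X : SimpleGraph V} {x y : V} :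
    (act σ X).Adj (σ x) (σ y) ↔ X.Adj x y := by simp [act_adj]

theorem act_one (X : SimpleGraph V) : act 1 X = X := rfl

theorem act_mul (σ τ : Perm V) (X : SimpleGraph V) : act (σ * τ) X = act σ (act τ X) := rfl

theorem isAut_iff_act {σ : Perm V} {X : SimpleGraph V} : IsAut X σ ↔ act σ X = X := by
  constructor
  · intro h
    ext x y
    exact h.inv x y
  · intro h x y
    conv_lhs => rw [← h]
    exact act_adj'

theorem isAut_act {σ g : Perm V} {X : SimpleGraph V} :
    IsAut (act σ X) g ↔ IsAut X (σ⁻¹ * g * σ) := by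
  constructor
  · intro h x y
    simpa [act_adj] using h (σ x) (σ y)
  · intro h x y
    simpa [act_adj] using h (σ⁻¹ x) (σ⁻¹ y)

theorem nb_act (σ : Perm V) (X : SimpleGraph V) (v : V) :
    nb (act σ X) (σ v) = (nb X v).map σ.toEmbedding := by
  ext y
  simp [act_adj]

theorem Deg.act {d : ℕ} {X : SimpleGraph V} (h : Deg d X) (σ : Perm V) : Deg d (act σ X) := by
  intro v
  obtain ⟨u, rfl⟩ := σ.surjective v
  rw [nb_act, card_map]
  exact h u

theorem card_auts_pos (X : SimpleGraph V) : 0 < (auts X).card :=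
  card_pos.2 ⟨1, mem_auts.2 (IsAut.one X)⟩

theorem card_fiber_act (σ₀ : Perm V) (R : SimpleGraph V) :
    (univ.filter fun σ => act σ R = act σ₀ R).card = (auts R).card := by
  refine card_bij (fun σ _ => σ₀⁻¹ * σ) (fun σ h => ?_) (fun _ _ _ _ h => mul_left_cancel h)
    fun τ h => ⟨σ₀ * τ, ?_, by simp⟩
  · rw [mem_auts, isAut_iff_act, act_mul, (mem_filter.1 h).2, ← act_mul, inv_mul_cancel, act_one]
  · rw [mem_filter, act_mul, isAut_iff_act.1 (mem_auts.1 h)]
    simp

theorem card_auts_act (σ : Perm V) (R : SimpleGraph V) :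
    (auts (act σ R)).card = (auts R).card := by
  refine card_bij (fun g _ => σ⁻¹ * g * σ) (fun g h => ?_) (fun _ _ _ _ h => by simpa using h)
    fun τ h => ⟨σ * τ * σ⁻¹, ?_, by group⟩
  · exact mem_auts.2 (isAut_act.1 (mem_auts.1 h))
  · rw [mem_auts, isAut_act]
    have : σ⁻¹ * (σ * τ * σ⁻¹) * σ = τ := by group
    rw [this]
    exact mem_auts.1 h

/-- centraliser -/
noncomputable def cent (g : Perm V) : Finset (Perm V) := univ.filter fun φ => Commute g φ

theorem card_fix_class (d : ℕ) (g : Perm V) (Y : SimpleGraph V) :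
    ((fixs d g).filter fun X => ∃ σ, X = act σ Y).card ≤ (cent g).card := by
  refine Nat.le_of_mul_le_mul_right ?_ (card_auts_pos Y)
  set T := univ.filter fun σ : Perm V => act σ Y ∈ fixs d g
  have h1 : ((fixs d g).filter fun X => ∃ σ, X = act σ Y).card * (auts Y).card ≤ T.card := by
    rw [card_eq_sum_card_fiberwise (s := T) (t := (fixs d g).filter fun X => ∃ σ, X = act σ Y)
      (f := fun σ => act σ Y) fun σ h => mem_coe.2 (mem_filter.2 ⟨(mem_filter.1 h).2, σ, rfl⟩),
      ← smul_eq_mul]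
    refine card_nsmul_le_sum _ _ _ fun X hX => ?_
    obtain ⟨h, σ₀, rfl⟩ := mem_filter.1 hX
    rw [← card_fiber_act σ₀]
    refine card_le_card fun σ hσ => ?_
    have := (mem_filter.1 hσ).2
    exact mem_filter.2 ⟨mem_filter.2 ⟨mem_univ _, this ▸ h⟩, this⟩
  refine h1.trans (card_le_of_code T (auts Y) (fun σ => σ⁻¹ * g * σ) id
    (fun σ => (cent g).image (· * σ)) _ (fun σ h => ?_) (fun _ _ => card_image_le)
    (fun σ _ τ _ h => ?_) fun _ _ _ _ _ h => h)
  · exact mem_auts.2 (isAut_act.1 (mem_fixs.1 (mem_filter.1 h).2).2)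
  · refine mem_image.2 ⟨τ * σ⁻¹, mem_filter.2 ⟨mem_univ _, ?_⟩, by simp⟩
    have e : g * (τ * σ⁻¹) = τ * (τ⁻¹ * g * τ) * σ⁻¹ := by group
    rw [Commute, SemiconjBy, e, ← h]
    group

theorem count_II {d L M m J : ℕ} (hd : 3 ≤ d) (hL : 0 < L) {g : Perm V}
    (hg : (long L g).card ≤ M) (hm : L * m + 2 * L * J + M ≤ Fintype.card V) :
    (cent g).card * (m * (m - L - d)) ^ J ≤
      3 ^ Fintype.card V * (fixs d g).card * (d * Fintype.card V) ^ J := by
  have h1 := orb_levels (g := g) (d := d) (m := m) (J := J) hd hL (fixs d g) (long L g)ᶜ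
    (fun x hx => by rw [mem_compl, mem_long] at hx; omega) Subset.rfl (fun _ _ _ h _ => h)
    (by rw [card_compl]; omega)
  have h2 := card_le_of_code (cent g)
    ((fixs d g).filter fun X => ∀ x ∈ (long L g)ᶜ, (nb X x).card ≤ 2) (fun φ => arcs φ univ)
    (fun φ => (φ : V → V)) (fun φ => Fintype.piFinset fun x => insert x (nb (arcs φ univ) x))
    (3 ^ Fintype.card V) (fun φ hφ => mem_filter.2 ⟨mem_fixs.2 ⟨fun x =>
      (card_nb_arcs _ _ _).trans (by omega), isAut_arcs (mem_filter.1 hφ).2 (by simp)⟩,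
      fun x _ => card_nb_arcs _ _ _⟩) (fun φ _ => by
        rw [Fintype.card_piFinset, ← card_univ]
        exact prod_le_pow_card _ _ _ fun x _ =>
          (card_insert_le _ _).trans (Nat.succ_le_succ (card_nb_arcs _ _ _)))
    (fun φ _ ψ _ h => by
      rw [Fintype.mem_piFinset, h]
      intro x
      by_cases hx : x = ψ x
      · exact mem_insert.2 (Or.inl hx.symm)
      · exact mem_insert_of_mem (mem_nb.2 (arcs_adj.2 ⟨hx, Or.inl ⟨mem_univ _, rfl⟩⟩)))
    (fun _ _ _ _ _ h => DFunLike.coe_injective h)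
  calc _ ≤ _ := Nat.mul_le_mul_right _ h2
    _ ≤ 3 ^ Fintype.card V * ((fixs d g).card * (d * (long L g)ᶜ.card) ^ J) := by
        rw [mul_assoc]; gcongr
    _ ≤ _ := by rw [mul_assoc]; gcongr; exact card_le_univ _

theorem card_auts_le (X : SimpleGraph V) (u y : V) (S : Finset (V × V))
    (hS : ∀ g ∈ auts X, (g u, g y) ∈ S) :
    (auts X).card ≤ ((auts X).filter fun g => g u = u ∧ g y = y).card * S.card := by
  refine card_le_of_code (auts X) S (fun g => (g u, g y)) id
    (fun g => ((auts X).filter fun g => g u = u ∧ g y = y).image (g * ·)) _ hS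
    (fun _ _ => card_image_le) (fun g hg h hh e => ?_) fun _ _ _ _ _ h => h
  simp only [Prod.mk.injEq] at e
  refine mem_image.2 ⟨g⁻¹ * h, mem_filter.2 ⟨mem_auts.2 ((mem_auts.1 hg).inv.mul (mem_auts.1 hh)),
    ?_, ?_⟩, by simp⟩
  · simp [← e.1]
  · simp [← e.2]

/-- orbit of a vertex -/
noncomputable def orbit (X : SimpleGraph V) (u : V) : Finset V := (auts X).image fun g => g u

noncomputable def orbs (X : SimpleGraph V) : Finset (Finset V) := univ.image (orbit X)

theorem mem_orbit {X : SimpleGraph V} {u v : V} : v ∈ orbit X u ↔ ∃ g, IsAut X g ∧ g u = v := by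
  simp [orbit]

theorem orbit_eq_iff {X : SimpleGraph V} {u v : V} : orbit X u = orbit X v ↔ v ∈ orbit X u := by
  constructor
  · intro h
    rw [h]
    exact mem_orbit.2 ⟨1, IsAut.one X, rfl⟩
  · intro h
    obtain ⟨g, hg, rfl⟩ := mem_orbit.1 h
    ext w
    simp only [mem_orbit]
    exact ⟨fun ⟨a, ha, e⟩ => ⟨a * g⁻¹, ha.mul hg.inv, by simpa using e⟩,
      fun ⟨a, ha, e⟩ => ⟨a * g, ha.mul hg, e⟩⟩

theorem isAut_swap {X : SimpleGraph V} {u v : V} (hu : nb X u = ∅) (hv : nb X v = ∅) :
    IsAut X (swap u v) := by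
  have h1 : ∀ y, ¬ X.Adj u y := fun y h => by simpa [hu] using mem_nb.2 h
  have h2 : ∀ y, ¬ X.Adj v y := fun y h => by simpa [hv] using mem_nb.2 h
  have key : ∀ x y, X.Adj x y → X.Adj (swap u v x) (swap u v y) := by
    intro x y h
    rw [swap_apply_of_ne_of_ne (a := u) (b := v) (x := x) (fun e => h1 y (e ▸ h))
      (fun e => h2 y (e ▸ h)), swap_apply_of_ne_of_ne (a := u) (b := v) (x := y)
      (fun e => h1 x (e ▸ h.symm)) (fun e => h2 x (e ▸ h.symm))]
    exact h
  exact fun x y => ⟨fun h => by simpa using key _ _ h, key x y⟩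

theorem entry {d M : ℕ} (hd : 1 ≤ d) {X : SimpleGraph V} (hX : Deg d X)
    (h : d * (M + 1) < (orbs X).card) :
    (auts X).card ≤ Fintype.card V * ((auts X).filter fun g => M ≤ (good X g).card).card := by
  let cnt : V → ℕ := fun u => ((auts X).filter fun g => u ∈ good X g).card
  have h1 : ∀ u, nb X u ≠ ∅ → (auts X).card ≤ cnt u * ((orbit X u).card * d) := by
    intro u hu
    obtain ⟨y, hy⟩ := nonempty_iff_ne_empty.2 hu
    refine (card_auts_le X u y (arcsFrom X (orbit X u)) fun g hg => ?_).trans ?_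
    · exact mem_filter.2 ⟨mem_univ _, mem_image_of_mem _ hg, (mem_auts.1 hg u y).2 (mem_nb.1 hy)⟩
    · refine Nat.mul_le_mul (card_le_card fun g hg => ?_) ((card_arcsFrom hX _).trans_eq (by ring))
      rw [mem_filter] at hg ⊢
      exact ⟨hg.1, mem_good.2 ⟨hg.2.1, y, mem_nb.1 hy, hg.2.2⟩⟩
  let O := (orbs X).filter fun ω => ∀ u ∈ ω, nb X u ≠ ∅
  have h2 : (orbs X).card ≤ O.card + 1 := by
    rw [← card_filter_add_card_filter_not (s := orbs X) fun ω => ∀ u ∈ ω, nb X u ≠ ∅]
    gcongr
    refine card_le_one.2 fun a ha b hb => ?_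
    simp only [mem_filter, orbs, mem_image, mem_univ, true_and, not_forall, not_not] at ha hb
    obtain ⟨⟨a, rfl⟩, u, hu, hu'⟩ := ha
    obtain ⟨⟨b, rfl⟩, v, hv, hv'⟩ := hb
    rw [orbit_eq_iff.2 hu, orbit_eq_iff.2 hv, orbit_eq_iff]
    exact mem_orbit.2 ⟨swap u v, isAut_swap hu' hv', by simp⟩
  have h3 : O.card * (auts X).card ≤ d * ∑ u, cnt u := by
    rw [← sum_fiberwise_of_maps_to (s := univ) (t := orbs X) (g := orbit X)
      (fun u _ => mem_image_of_mem _ (mem_univ u)), mul_sum, ← smul_eq_mul]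
    refine le_trans (card_nsmul_le_sum _ _ _ fun ω hω => ?_)
      (sum_le_sum_of_subset (filter_subset _ _))
    obtain ⟨hω, hω'⟩ := mem_filter.1 hω
    obtain ⟨a, _, rfl⟩ := mem_image.1 hω
    have e : (univ.filter fun u => orbit X u = orbit X a) = orbit X a := by
      ext u; simp only [mem_filter, mem_univ, true_and]; rw [eq_comm, orbit_eq_iff]
    rw [e]
    have pos : 0 < (orbit X a).card := card_pos.2 ⟨a, orbit_eq_iff.1 rfl⟩
    refine Nat.le_of_mul_le_mul_left ?_ pos
    rw [← smul_eq_mul, mul_sum, mul_sum]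
    refine card_nsmul_le_sum _ _ _ fun u hu => ?_
    have := h1 u (hω' u hu)
    rw [← orbit_eq_iff.2 hu] at this
    exact this.trans_eq (by ring)
  have h4 : ∑ u, cnt u ≤ Fintype.card V * ((auts X).filter fun g => M ≤ (good X g).card).card +
      M * (auts X).card := by
    have e : ∑ u, cnt u = ∑ g ∈ auts X, (good X g).card := by
      simp only [cnt, card_filter]
      rw [sum_comm]
      refine sum_congr rfl fun g _ => ?_
      rw [← card_filter]
      simp
    rw [e, ← sum_filter_add_sum_filter_not (auts X) fun g => M ≤ (good X g).card]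
    gcongr
    · rw [mul_comm, ← smul_eq_mul]
      exact sum_le_card_nsmul _ _ _ fun g _ => card_le_univ _
    · refine (sum_le_card_nsmul _ _ M fun g hg => ?_).trans ?_
      · exact (not_le.1 (mem_filter.1 hg).2).le
      · rw [smul_eq_mul, mul_comm]; gcongr; exact filter_subset _ _
  have h5 : d * (M + 1) * (auts X).card ≤ O.card * (auts X).card := by gcongr; omega
  have h6 := (h5.trans h3).trans (Nat.mul_le_mul_left d h4)
  rw [mul_assoc] at h6
  have h7 := Nat.le_of_mul_le_mul_left h6 hd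
  rw [add_mul, one_mul] at h7
  omega

theorem poinc_high {d L M : ℕ} {Λ : ℝ} (hd : 1 ≤ d)
    (hA : ∀ f : SimpleGraph V → ℝ,
      ∑ g, ((fixS d L M g).card : ℝ) * (mean d f g - mean d f 1) ^ 2 ≤ Λ * DD d f)
    (hfew : ∀ g : Perm V, (long L g).card ≤ M →
      2 * ((fixs d g).filter fun X => (orbs X).card ≤ d * (M + 1)).card ≤ (fixs d g).card) :
    Poinc V d (10 + 16 * Fintype.card V + (2 + 16 * Fintype.card V) * Λ) := by
  intro f
  refine ⟨mean d f 1, ?_⟩
  set n := Fintype.card V
  set c := mean d f 1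
  have hA' := hA f
  set A := ∑ g, ((fixS d L M g).card : ℝ) * (mean d f g - c) ^ 2
  have hD : ∀ S : Perm V → Finset (SimpleGraph V), (∀ g, S g ⊆ fixs d g) →
      ∑ g, ∑ X ∈ S g, aa d f (X, g) ≤ DD d f := fun S hS => by
    rw [DD, sum_Prs_right]
    exact sum_le_sum fun g _ => sum_le_sum_of_subset_of_nonneg (hS g) fun _ _ _ => aa_nonneg _ _ _
  have hup : ∀ S : Perm V → Finset (SimpleGraph V), (∀ g, S g ⊆ fixs d g) →
      ∑ g, ∑ X ∈ S g, (f X - c) ^ 2 ≤
        2 * DD d f + 2 * ∑ g, ((S g).card : ℝ) * (mean d f g - c) ^ 2 := fun S hS => by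
    have := hD S hS
    refine le_trans ?_ (add_le_add_left (mul_le_mul_of_nonneg_left this zero_le_two) _)
    rw [mul_sum, mul_sum, ← sum_add_distrib]
    refine sum_le_sum fun g _ => ?_
    rw [← nsmul_eq_mul, ← sum_const, mul_sum, mul_sum, ← sum_add_distrib]
    refine sum_le_sum fun X _ => ?_
    simp only [aa]
    nlinarith [sq_nonneg (f X - mean d f g - (mean d f g - c))]
  let N : Perm V → Finset (SimpleGraph V) := fun g =>
    (fixs d g).filter fun X => ¬ (orbs X).card ≤ d * (M + 1)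
  have h1 : ∑ g, ∑ X ∈ N g, (f X - c) ^ 2 ≤ n * ∑ g, ∑ X ∈ fixS d L M g, (f X - c) ^ 2 := by
    have e1 := sum_Prs_right d fun p : SimpleGraph V × Perm V =>
      if ¬ (orbs p.1).card ≤ d * (M + 1) then (f p.1 - c) ^ 2 else 0
    have e2 := sum_Prs_right d fun p : SimpleGraph V × Perm V =>
      if M ≤ (good p.1 p.2).card + (long L p.2).card then (f p.1 - c) ^ 2 else 0
    simp only [N, fixS, sum_filter]
    rw [← e1, ← e2, sum_Prs_left, sum_Prs_left, mul_sum]
    refine sum_le_sum fun X hX => ?_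
    simp only [← sum_filter (s := auts X), sum_const, nsmul_eq_mul]
    by_cases h : (orbs X).card ≤ d * (M + 1)
    · simp only [h, not_true, filter_false, card_empty, Nat.cast_zero, zero_mul]; positivity
    · rw [← mul_assoc, filter_true_of_mem fun _ _ => h]
      refine mul_le_mul_of_nonneg_right ?_ (sq_nonneg _)
      norm_cast
      refine (entry hd (mem_filter.1 hX).2 (not_le.1 h)).trans (Nat.mul_le_mul_left _ ?_)
      exact card_le_card (monotone_filter_right _ fun g _ hg => le_add_right hg)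
  have h2 := hup (fixS d L M) fun g => filter_subset _ _
  have h3 := hup (fixs d) fun g => Subset.rfl
  have h4 : ∑ g, ((fixs d g).card : ℝ) * (mean d f g - c) ^ 2 ≤
      A + 4 * (∑ g, ∑ X ∈ N g, aa d f (X, g) + ∑ g, ∑ X ∈ N g, (f X - c) ^ 2) := by
    rw [← sum_add_distrib, mul_sum, ← sum_add_distrib]
    refine sum_le_sum fun g _ => ?_
    by_cases hg : (long L g).card ≤ M
    · have k1 := hfew g hg
      have k2 := card_filter_add_card_filter_not (s := fixs d g)
        fun X => (orbs X).card ≤ d * (M + 1)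
      have k3 : ((fixs d g).card : ℝ) ≤ 2 * (N g).card := by
        norm_cast; simp only [N]; omega
      have k4 : ((N g).card : ℝ) * (mean d f g - c) ^ 2 ≤
          2 * (∑ X ∈ N g, aa d f (X, g) + ∑ X ∈ N g, (f X - c) ^ 2) := by
        rw [← nsmul_eq_mul, ← sum_const, ← sum_add_distrib, mul_sum]
        refine sum_le_sum fun X _ => ?_
        simp only [aa]
        nlinarith [sq_nonneg (f X - mean d f g + (f X - c))]
      have k5 := mul_le_mul_of_nonneg_right k3 (sq_nonneg (mean d f g - c))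
      have k6 : 0 ≤ ((fixS d L M g).card : ℝ) * (mean d f g - c) ^ 2 := by positivity
      linarith
    · have : fixS d L M g = fixs d g := filter_true_of_mem fun X _ => by omega
      rw [this]
      have := sum_nonneg fun X (_ : X ∈ N g) => aa_nonneg d f (X, g)
      have := sum_nonneg fun X (_ : X ∈ N g) => sq_nonneg (f X - c)
      linarith
  have h5 := hD N fun g => filter_subset _ _
  have h6 := mul_le_mul_of_nonneg_left h2 (show (0 : ℝ) ≤ n by positivity)
  have h7 := mul_le_mul_of_nonneg_left hA' (show (0 : ℝ) ≤ n by positivity)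
  rw [sum_Prs_right]
  simp only
  nlinarith

end Pool.Agent.Lib.MP_449609_pr
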