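import Pool.Agent.Lib.MP_449609_pr.Stage

set_option autoImplicit false
set_option linter.unusedSectionVars false

open Finset Equiv
open Classical

namespace Pool.Agent.Lib.MP_449609_pr

variable {V : Type} [Fintype V] [DecidableEq V]

theorem stages {d α β : ℕ} (χ : V → ℕ)
    (hst : ∀ (j : ℕ) (Y : SimpleGraph V), ∃ Ext : Finset (SimpleGraph V),
      Ext.card ≤ 2 ^ (α + β * (univ.filter fun u => χ u = j).card) ∧
      ∀ X, Deg d X → Col X χ → upto χ j X = Y → ∃ a ∈ colG χ, upto χ (j + 1) (act a X) ∈ Ext)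
    (j : ℕ) : ∃ G : Finset (SimpleGraph V),
      G.card ≤ 2 ^ (j * α + β * (univ.filter fun u => χ u < j).card) ∧
      ∀ X, Deg d X → Col X χ → ∃ a ∈ colG χ, upto χ j (act a X) ∈ G := by
  induction j with
  | zero =>
    refine ⟨{⊥}, by simp, fun X _ _ => ⟨1, (colG χ).one_mem, mem_singleton.2 ?_⟩⟩
    ext u v
    simp [upto_adj]
  | succ j ih =>
    obtain ⟨G, g1, g2⟩ := ih
    choose Ext e1 e2 using hst j
    refine ⟨G.biUnion Ext, (card_biUnion_le_card_mul _ _ _ fun Y _ => e1 Y).trans ?_,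
      fun X h1 h2 => ?_⟩
    · have : (univ.filter fun u => χ u < j + 1).card =
          (univ.filter fun u => χ u < j).card + (univ.filter fun u => χ u = j).card := by
        rw [← card_union_of_disjoint (disjoint_filter.2 fun u _ h => h.ne), ← filter_or]
        congr 1
        exact filter_congr fun u _ => by omega
      refine (Nat.mul_le_mul_right _ g1).trans_eq ?_
      rw [this, ← pow_add]
      congr 1
      ring
    · obtain ⟨a, ha, h⟩ := g2 X h1 h2
      obtain ⟨a', ha', h'⟩ := e2 _ (act a X) (h1.act a) (h2.act' ha) rfl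
      exact ⟨a' * a, (colG χ).mul_mem ha' ha, mem_biUnion.2 ⟨_, h, h'⟩⟩

theorem exists_col {r : ℕ} {X : SimpleGraph V} (h : (orbs X).card ≤ r) :
    ∃ χ : V → ℕ, (∀ u, χ u < r) ∧ Col X χ := by
  have hm : ∀ u, orbit X u ∈ orbs X := fun u => mem_image_of_mem _ (mem_univ u)
  have key : ∀ u v, (((orbs X).equivFin ⟨_, hm u⟩ : ℕ) = (orbs X).equivFin ⟨_, hm v⟩) ↔
      ∃ g, IsAut X g ∧ g u = v := fun u v => by
    rw [← mem_orbit, ← orbit_eq_iff, Fin.val_inj, EmbeddingLike.apply_eq_iff_eq, Subtype.mk.injEq]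
  exact ⟨fun u => (orbs X).equivFin ⟨_, hm u⟩, fun u => (Fin.is_lt _).trans_le h,
    fun g hg u => ((key _ _).2 ⟨g, hg, rfl⟩).symm, fun u v e => (key u v).1 e⟩

theorem few_classes {d α β r : ℕ}
    (hst : ∀ (χ : V → ℕ) (j : ℕ) (Y : SimpleGraph V), ∃ Ext : Finset (SimpleGraph V),
      Ext.card ≤ 2 ^ (α + β * (univ.filter fun u => χ u = j).card) ∧
      ∀ X, Deg d X → Col X χ → upto χ j X = Y → ∃ a ∈ colG χ, upto χ (j + 1) (act a X) ∈ Ext) :
    ∃ G : Finset (SimpleGraph V),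
      G.card ≤ (Fintype.card V + 1) ^ r * 2 ^ (r * α + β * Fintype.card V) ∧
      ∀ X, Deg d X → (orbs X).card ≤ r → ∃ Y ∈ G, ∃ σ, X = act σ Y := by
  let sz : (V → ℕ) → Fin r → ℕ := fun χ c => (univ.filter fun u => χ u = c).card
  have h1 : ∀ w : Fin r → ℕ, ∃ χ₀ : V → ℕ, ∀ χ, (∀ u, χ u < r) → sz χ = w →
      (∀ u, χ₀ u < r) ∧ sz χ₀ = w := by
    intro w
    by_cases h : ∃ χ : V → ℕ, (∀ u, χ u < r) ∧ sz χ = w
    · exact h.imp fun χ h _ _ _ => h
    · exact ⟨fun _ => 0, fun χ a b => absurd ⟨χ, a, b⟩ h⟩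
  choose rep hrep using h1
  choose G g1 g2 using fun χ => stages χ (hst χ) r
  refine ⟨(Fintype.piFinset fun _ : Fin r => range (Fintype.card V + 1)).biUnion
    fun w => G (rep w), (card_biUnion_le_card_mul _ _ (2 ^ (r * α + β * Fintype.card V))
    fun w _ => (g1 _).trans ?_).trans (by simp), fun X hd hX => ?_⟩
  · gcongr
    · norm_num
    · exact card_le_univ _
  obtain ⟨χ, c1, c2⟩ := exists_col hX
  obtain ⟨c3, c4⟩ := hrep _ χ c1 rfl
  have hc : ∀ c : ℕ, Fintype.card {u // χ u = c} = Fintype.card {u // rep (sz χ) u = c} := by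
    intro c
    rw [Fintype.card_subtype, Fintype.card_subtype]
    rcases lt_or_ge c r with h | h
    · exact (congrFun c4 ⟨c, h⟩).symm
    · rw [filter_eq_empty_iff.2 fun u _ => ((c1 u).trans_le h).ne,
        filter_eq_empty_iff.2 fun u _ => ((c3 u).trans_le h).ne]
  let σ : Perm V := Equiv.ofFiberEquiv fun c => Fintype.equivOfCardEq (hc c)
  obtain ⟨a, _, h⟩ := g2 (rep (sz χ)) (act σ X) (hd.act σ)
    (c2.act' fun u => Equiv.ofFiberEquiv_map _ u)
  have e : upto (rep (sz χ)) r (act a (act σ X)) = act a (act σ X) := by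
    ext u v
    simp [upto_adj, c3]
  refine ⟨_, mem_biUnion.2 ⟨sz χ, ?_, e ▸ h⟩, (a * σ)⁻¹, ?_⟩
  · simp only [Fintype.mem_piFinset, mem_range]
    exact fun c => Nat.lt_succ_of_le (card_le_univ _)
  · rw [← act_mul, ← act_mul, mul_assoc, inv_mul_cancel, act_one]

theorem few_bound {d L M r m J B : ℕ} (hd : 3 ≤ d) (hL : 0 < L) (G : Finset (SimpleGraph V))
    (hG : G.card ≤ B) (hG' : ∀ X, Deg d X → (orbs X).card ≤ r → ∃ Y ∈ G, ∃ σ, X = act σ Y)
    (hm : L * m + 2 * L * J + M ≤ Fintype.card V) (hn : 0 < Fintype.card V)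
    (hB : 2 * B * (3 ^ Fintype.card V * (d * Fintype.card V) ^ J) ≤ (m * (m - L - d)) ^ J)
    (g : Perm V) (hg : (long L g).card ≤ M) :
    2 * ((fixs d g).filter fun X => (orbs X).card ≤ r).card ≤ (fixs d g).card := by
  have h1 : ((fixs d g).filter fun X => (orbs X).card ≤ r).card ≤ B * (cent g).card := by
    have : ((fixs d g).filter fun X => (orbs X).card ≤ r) ⊆
        G.biUnion fun Y => (fixs d g).filter fun X => ∃ σ, X = act σ Y := by
      intro X hX
      obtain ⟨a1, a2⟩ := mem_filter.1 hX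
      obtain ⟨Y, hY, h⟩ := hG' X (mem_fixs.1 a1).1 a2
      exact mem_biUnion.2 ⟨Y, hY, mem_filter.2 ⟨a1, h⟩⟩
    exact (card_le_card this).trans ((card_biUnion_le_card_mul _ _ _ fun Y _ =>
      card_fix_class d g Y).trans (by gcongr))
  have h2 := count_II hd hL hg hm
  refine Nat.le_of_mul_le_mul_right ?_
    (show 0 < 3 ^ Fintype.card V * (d * Fintype.card V) ^ J by positivity)
  calc _ ≤ 2 * (B * (cent g).card) * (3 ^ Fintype.card V * (d * Fintype.card V) ^ J) := by gcongr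
    _ = (cent g).card * (2 * B * (3 ^ Fintype.card V * (d * Fintype.card V) ^ J)) := by ring
    _ ≤ (cent g).card * (m * (m - L - d)) ^ J := by gcongr
    _ ≤ _ := h2.trans_eq (by ring)

/-- the numerical conditions -/
structure Par (d n L M T q κ x y b c m J : ℕ) : Prop where
  hL : 2 ≤ L
  hn : 0 < n
  hB : ∀ l, L ≤ l → ∃ m J, m + 2 * J ≤ l ∧ 4 * n * (2 * d) ^ l *
      ((n + 1) ^ d * (d * l) ^ J) ≤ (m * (m - 1 - d)) ^ J
  h3 : ∀ s, 1 ≤ s → s ≤ n → ∃ m, 4 * (d * s) ≤ m * (m - L - d) ∧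
      4 * n * (2 * d) ^ L * (2 * ((d + 1) * L + L * m + T + 1) ^ d *
        (d ^ 2) ^ (d - 1)) ≤ s * (M - (d + 1) ^ 2 * L) ^ (d - 1)
  hT : 4 * (n * d ^ 2) ≤ T * (M - (d + 1) ^ 2)
  hq : (d + 1) * κ ≤ q
  hκ : 0 < κ
  hx : n + 1 ≤ 2 ^ x
  hy : q ≤ 2 ^ y
  hb : 2 * (d + 1) * y ≤ κ * b
  hc : x ≤ c * q
  hm : L * m + 2 * L * J + M ≤ n
  hF : 2 * ((n + 1) ^ (d * (M + 1)) * 2 ^ (d * (M + 1) * (x * d * (2 ^ (8 * q) + 1)) +
      (d + 1 + b + 3 * c * (d * κ + 1) + d ^ 2 * κ ^ 2) * n)) * (3 ^ n * (d * n) ^ J) ≤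
      (m * (m - L - d)) ^ J

theorem poinc_of_par {d L M T q κ x y b c m J : ℕ} (hd : 3 ≤ d)
    (h : Par d (Fintype.card V) L M T q κ x y b c m J) :
    Poinc V d (10 + 16 * Fintype.card V + (2 + 16 * Fintype.card V) *
      (8 * (Fintype.card V + 1) ^ d * (Fintype.card V + Fintype.card V ^ 2))) := by
  obtain ⟨G, g1, g2⟩ := few_classes (V := V) (d := d) (r := d * (M + 1))
    (stage h.hq h.hκ h.hx h.hy h.hb h.hc)
  exact poinc_high (L := L) (M := M) (by omega)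
    (contract (by omega) h.hL fun g v hv => key_K hd h.hL h.hB h.h3 h.hT hv)
    (few_bound hd (by have := h.hL; omega) G g1 g2 h.hm h.hn h.hF)

end Pool.Agent.Lib.MP_449609_pr
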