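import Mathlib

set_option autoImplicit false
set_option linter.unusedSectionVars false

open Finset
open Classical

namespace Pool.Agent.Lib.MP_449609_pr

theorem abel_sum (φ A : ℕ → ℝ) (N : ℕ) : ∑ j ∈ range (N + 1), φ j * (A j - A (j + 1)) =
    φ 0 * A 0 - φ N * A (N + 1) + ∑ j ∈ range N, (φ (j + 1) - φ j) * A (j + 1) := by
  induction N with
  | zero => simp; ring
  | succ N ih => rw [sum_range_succ, ih, sum_range_succ]; ring

theorem stokes (N : ℕ) (φ c : ℕ → ℕ → ℝ) (h1 : ∀ a, c a (N + 1) = 1) (h2 : ∀ b, c (N + 1) b = 1)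
    (h3 : ∀ a ≤ N, c a 0 = 0) (h4 : ∀ b ≤ N, c 0 b = 0) : φ 0 N - φ N 0 =
    ∑ i ∈ range (N + 1), ∑ j ∈ range N,
      (φ i (j + 1) - φ i j) * (c (i + 1) (j + 1) - c i (j + 1)) -
    ∑ j ∈ range (N + 1), ∑ i ∈ range N,
      (φ (i + 1) j - φ i j) * (c (i + 1) (j + 1) - c (i + 1) j) := by
  have e1 := sum_congr (s₁ := range (N + 1)) rfl fun i _ =>
    abel_sum (φ i) (fun b => c (i + 1) b - c i b) N
  have e2 := sum_congr (s₁ := range (N + 1)) rfl fun j _ =>
    abel_sum (fun i => φ i j) (fun a => c a (j + 1) - c a j) N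
  rw [sum_comm] at e2
  have e3 : ∑ i ∈ range (N + 1), φ i 0 * (c (i + 1) 0 - c i 0) = φ N 0 := by
    rw [sum_range_succ, sum_eq_zero fun i hi => by
      rw [h3 _ (mem_range.1 hi), h3 _ (mem_range.1 hi).le]; simp, h2, h3 _ le_rfl]
    simp
  have e4 : ∑ j ∈ range (N + 1), φ 0 j * (c 0 (j + 1) - c 0 j) = φ 0 N := by
    rw [sum_range_succ, sum_eq_zero fun i hi => by
      rw [h4 _ (mem_range.1 hi), h4 _ (mem_range.1 hi).le]; simp, h1, h4 _ le_rfl]
    simp
  simp only [h1, h2, sub_self, mul_zero, sub_zero, sum_add_distrib, e3, e4] at e1 e2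
  have e5 : ∑ i ∈ range (N + 1), ∑ j ∈ range (N + 1),
      φ i j * (c (i + 1) j - c i j - (c (i + 1) (j + 1) - c i (j + 1))) =
      ∑ i ∈ range (N + 1), ∑ j ∈ range (N + 1),
      φ i j * (c i (j + 1) - c i j - (c (i + 1) (j + 1) - c (i + 1) j)) :=
    sum_congr rfl fun i _ => sum_congr rfl fun j _ => by ring
  linarith

theorem sq_sum_sum_le (N : ℕ) (F g : ℕ → ℕ → ℝ) (g0 : ∀ i j, 0 ≤ g i j)
    (h : ∀ i ≤ N, ∀ j < N, F i j ^ 2 ≤ 2 * g i j + 2 * g i (j + 1)) :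
    (∑ i ∈ range (N + 1), ∑ j ∈ range N, F i j) ^ 2 ≤
      4 * (N + 1) ^ 2 * ∑ i ∈ range (N + 1), ∑ j ∈ range (N + 1), g i j := by
  rw [← sum_product']
  refine sq_sum_le_card_mul_sum_sq.trans ?_
  rw [sum_product' (f := fun i j => F i j ^ 2), card_product, card_range, card_range, mul_comm 4,
    mul_assoc]
  gcongr
  · push_cast; nlinarith [Nat.cast_nonneg (α := ℝ) N]
  · rw [mul_sum]
    refine sum_le_sum fun i hi => ?_
    refine (sum_le_sum fun j hj => h i (Nat.lt_succ_iff.1 (mem_range.1 hi)) j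
      (mem_range.1 hj)).trans ?_
    rw [sum_add_distrib, ← mul_sum, ← mul_sum]
    have a1 := sum_range_succ (g i) N
    have a2 := sum_range_succ' (g i) N
    linarith [g0 i N, g0 i 0]

theorem stokes_bound (N : ℕ) (φ c g : ℕ → ℕ → ℝ) (h0 : ∀ a b, c a b = 0 ∨ c a b = 1)
    (h1 : ∀ a, c a (N + 1) = 1) (h2 : ∀ b, c (N + 1) b = 1)
    (h3 : ∀ a ≤ N, c a 0 = 0) (h4 : ∀ b ≤ N, c 0 b = 0) (g0 : ∀ i j, 0 ≤ g i j)
    (h5 : ∀ i ≤ N, ∀ j < N, c (i + 1) (j + 1) ≠ c i (j + 1) →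
      (φ i (j + 1) - φ i j) ^ 2 ≤ 2 * g i j + 2 * g i (j + 1))
    (h6 : ∀ j ≤ N, ∀ i < N, c (i + 1) (j + 1) ≠ c (i + 1) j →
      (φ (i + 1) j - φ i j) ^ 2 ≤ 2 * g i j + 2 * g (i + 1) j) :
    (φ 0 N - φ N 0) ^ 2 ≤ 16 * (N + 1) ^ 2 * ∑ i ∈ range (N + 1), ∑ j ∈ range (N + 1), g i j := by
  have k2 : ∀ (x G : ℝ) (a b a' b' : ℕ), 0 ≤ G → (c a b ≠ c a' b' → x ^ 2 ≤ G) →
      (x * (c a b - c a' b')) ^ 2 ≤ G := by
    intro x G a b a' b' hG h
    rcases h0 a b with e | e <;> rcases h0 a' b' with e' | e' <;> simp only [e, e'] at h ⊢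
    · simpa using hG
    · simpa using h
    · simpa using h
    · simpa using hG
  have s1 := sq_sum_sum_le N (fun i j => (φ i (j + 1) - φ i j) * (c (i + 1) (j + 1) - c i (j + 1)))
    g g0 fun i hi j hj => k2 _ _ _ _ _ _ (by linarith [g0 i j, g0 i (j + 1)]) (h5 i hi j hj)
  have s2 := sq_sum_sum_le N (fun j i => (φ (i + 1) j - φ i j) * (c (i + 1) (j + 1) - c (i + 1) j))
    (fun j i => g i j) (fun j i => g0 i j) fun j hj i hi =>
      k2 _ _ _ _ _ _ (by linarith [g0 i j, g0 (i + 1) j]) (h6 j hj i hi)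
  rw [sum_comm (f := fun j i => g i j)] at s2
  rw [stokes N φ c h1 h2 h3 h4]
  generalize ∑ i ∈ range (N + 1), ∑ j ∈ range N,
      (φ i (j + 1) - φ i j) * (c (i + 1) (j + 1) - c i (j + 1)) = S₁ at *
  generalize ∑ j ∈ range (N + 1), ∑ i ∈ range N,
      (φ (i + 1) j - φ i j) * (c (i + 1) (j + 1) - c (i + 1) j) = S₂ at *
  nlinarith [sq_nonneg (S₁ + S₂)]

variable {ι : Type} [Fintype ι] [DecidableEq ι]

noncomputable def TL (n : ℕ) (ok : ι → ℕ → Prop) : Finset (ι → ℕ) :=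
  (Fintype.piFinset fun _ => range (n + 1)).filter fun z => (∀ j, ok j (z j)) ∧ ∑ j, z j ≤ n

theorem mem_TL {n : ℕ} {ok : ι → ℕ → Prop} {z : ι → ℕ} :
    z ∈ TL n ok ↔ (∀ j, ok j (z j)) ∧ ∑ j, z j ≤ n := by
  simp only [TL, mem_filter, Fintype.mem_piFinset, mem_range, and_iff_right_iff_imp]
  exact fun h j => Nat.lt_succ_of_le ((single_le_sum (fun _ _ => Nat.zero_le _) (mem_univ j)).trans h.2)

noncomputable def TE (n : ℕ) (ok : ι → ℕ → Prop) : Finset (ι → ℕ) :=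
  (TL n ok).filter fun z => ∑ j, z j = n

theorem mem_TE {n : ℕ} {ok : ι → ℕ → Prop} {z : ι → ℕ} :
    z ∈ TE n ok ↔ (∀ j, ok j (z j)) ∧ ∑ j, z j = n := by
  simp only [TE, mem_filter, mem_TL]
  exact ⟨fun h => ⟨h.1.1, h.2⟩, fun h => ⟨⟨h.1, h.2.le⟩, h.2⟩⟩

noncomputable def GG (ψ : (ι → ℕ) → ℝ) (z : ι → ℕ) : ℝ :=
  ∑ j, (ψ z - ψ (Function.update z j 0)) ^ 2

theorem GG_nonneg (ψ : (ι → ℕ) → ℝ) (z : ι → ℕ) : 0 ≤ GG ψ z := sum_nonneg fun _ _ => sq_nonneg _

/-- intermediate state -/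
def mid (pos : ι → ℕ) (Z W : ι → ℕ) (i j : ℕ) : ι → ℕ := fun t =>
  if pos t < i ∨ j < pos t then W t else if i < pos t ∧ pos t < j then Z t else 0

/-- height function -/
def hgt (pos : ι → ℕ) (Z W : ι → ℕ) (k : ℕ) : ℤ := ∑ t, if pos t < k then (W t - Z t : ℤ) else 0

theorem sq_le_GG {pos : ι → ℕ} (hp : Function.Injective pos) (ψ : (ι → ℕ) → ℝ) (z : ι → ℕ)
    (k : ℕ) : (ψ z - ψ fun t => if pos t = k then 0 else z t) ^ 2 ≤ GG ψ z := by
  by_cases h : ∃ t, pos t = k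
  · obtain ⟨t, rfl⟩ := h
    have : (fun s => if pos s = pos t then 0 else z s) = Function.update z t 0 := by
      ext s; simp [Function.update_apply, hp.eq_iff]
    rw [this]
    exact single_le_sum (f := fun j => (ψ z - ψ (Function.update z j 0)) ^ 2)
      (fun _ _ => sq_nonneg _) (mem_univ t)
  · have : (fun t => if pos t = k then 0 else z t) = z := by
      ext t; rw [if_neg fun e => h ⟨t, e⟩]
    simpa [this] using GG_nonneg ψ z

theorem sq_le_two_GG {pos : ι → ℕ} (hp : Function.Injective pos) (ψ : (ι → ℕ) → ℝ) (z z' : ι → ℕ)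
    (k k' : ℕ) (h : ∀ t, (if pos t = k then 0 else z t) = if pos t = k' then 0 else z' t) :
    (ψ z' - ψ z) ^ 2 ≤ 2 * GG ψ z + 2 * GG ψ z' := by
  have h1 := sq_le_GG hp ψ z k
  have h2 := sq_le_GG hp ψ z' k'
  rw [← funext h] at h2
  nlinarith [sq_nonneg (ψ z + ψ z' - 2 * ψ fun t => if pos t = k then 0 else z t)]

theorem mid_mem {n : ℕ} {ok : ι → ℕ → Prop} (h0 : ∀ j, ok j 0) (pos : ι → ℕ) {Z W : ι → ℕ}
    (hZ : Z ∈ TE n ok) (hW : W ∈ TE n ok) {i j a b : ℕ} (ha : i ≤ a ∧ a ≤ i + 1)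
    (hb : j ≤ b ∧ b ≤ j + 1) (h : a ≤ b → hgt pos Z W a ≤ hgt pos Z W b) :
    mid pos Z W i j ∈ TL n ok := by
  rw [mem_TE] at hZ hW
  refine mem_TL.2 ⟨fun t => ?_, ?_⟩
  · unfold mid
    split_ifs
    exacts [hW.1 t, hZ.1 t, h0 t]
  rcases le_or_gt j i with hij | hij
  · refine le_trans (sum_le_sum fun t _ => ?_) hW.2.le
    unfold mid
    split_ifs <;> omega
  · have h1 : ((∑ t, mid pos Z W i j t : ℕ) : ℤ) ≤
        (∑ t, W t : ℕ) + hgt pos Z W a - hgt pos Z W b := by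
      push_cast
      rw [hgt, hgt, ← sum_add_distrib, ← sum_sub_distrib]
      refine sum_le_sum fun t _ => ?_
      unfold mid
      split_ifs <;> omega
    have := h (by omega)
    omega

theorem knap_pair {n K : ℕ} {ok : ι → ℕ → Prop} (h0 : ∀ j, ok j 0) {pos : ι → ℕ}
    (hp : Function.Injective pos) (hp' : ∀ t, 0 < pos t ∧ pos t ≤ K) {Z W : ι → ℕ}
    (hZ : Z ∈ TE n ok) (hW : W ∈ TE n ok) (hH : ∀ k, 0 ≤ hgt pos Z W k) (ψ : (ι → ℕ) → ℝ) :
    (ψ Z - ψ W) ^ 2 ≤ 16 * (K + 2) ^ 2 * ∑ i ∈ range (K + 2), ∑ j ∈ range (K + 2),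
      if mid pos Z W i j ∈ TL n ok ∧ mid pos W Z i j ∈ TL n ok then GG ψ (mid pos Z W i j)
      else 0 := by
  let c : ℕ → ℕ → ℝ := fun a b => if a = K + 2 ∨ b = K + 2 then 1 else if a = 0 ∨ b = 0 then 0
    else if hgt pos Z W b ≤ hgt pos Z W a then 1 else 0
  have H0 : hgt pos Z W 0 = 0 := by simp [hgt]
  have H1 : hgt pos Z W (K + 2) = 0 := by
    rw [hgt, sum_congr rfl fun t _ => if_pos (by have := hp' t; omega), sum_sub_distrib,
      ← Nat.cast_sum, ← Nat.cast_sum, (mem_TE.1 hZ).2, (mem_TE.1 hW).2, sub_self]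
  have H2 : ∀ k, hgt pos W Z k = - hgt pos Z W k := fun k => by
    rw [hgt, hgt, ← sum_neg_distrib]
    exact sum_congr rfl fun t _ => by split_ifs <;> simp
  have c0 : ∀ a b, c a b = 0 ∨ c a b = 1 := fun a b => by simp only [c]; split_ifs <;> simp
  have c1 : ∀ a b, b ≤ K + 2 → c a b = 0 → a ≤ b → hgt pos Z W a ≤ hgt pos Z W b := by
    intro a b hb h hab
    simp only [c] at h
    split_ifs at h with h1 h2 h3
    · norm_num at h
    · rw [show a = 0 by omega, H0]; exact hH b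
    · norm_num at h
    · exact (not_le.1 h3).le
  have c2 : ∀ a b, b ≤ K + 2 → c a b = 1 → a ≤ b → hgt pos W Z a ≤ hgt pos W Z b := by
    intro a b hb h hab
    rw [H2, H2, neg_le_neg_iff]
    simp only [c] at h
    split_ifs at h with h1 h2 h3
    · rw [show b = K + 2 by omega, H1]; exact hH a
    · norm_num at h
    · exact h3
    · norm_num at h
  have c3 : ∀ i j a b a' b', j ≤ K + 1 → i ≤ a ∧ a ≤ i + 1 → j ≤ b ∧ b ≤ j + 1 →
      i ≤ a' ∧ a' ≤ i + 1 → j ≤ b' ∧ b' ≤ j + 1 → c a b ≠ c a' b' →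
      mid pos Z W i j ∈ TL n ok ∧ mid pos W Z i j ∈ TL n ok := by
    intro i j a b a' b' hj ha hb ha' hb' h
    rcases c0 a b with e | e <;> rcases c0 a' b' with e' | e'
    · exact absurd (e.trans e'.symm) h
    · exact ⟨mid_mem h0 pos hZ hW ha hb (c1 _ _ (by omega) e),
        mid_mem h0 pos hW hZ ha' hb' (c2 _ _ (by omega) e')⟩
    · exact ⟨mid_mem h0 pos hZ hW ha' hb' (c1 _ _ (by omega) e'),
        mid_mem h0 pos hW hZ ha hb (c2 _ _ (by omega) e)⟩
    · exact absurd (e.trans e'.symm) h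
  have := stokes_bound (K + 1) (fun i j => ψ (mid pos Z W i j)) c (fun i j =>
    if mid pos Z W i j ∈ TL n ok ∧ mid pos W Z i j ∈ TL n ok then GG ψ (mid pos Z W i j) else 0)
    c0 (fun a => by simp [c]) (fun a => by simp [c])
    (fun a ha => by simp [c, show a ≠ K + 2 by omega])
    (fun a ha => by simp [c, show a ≠ K + 2 by omega])
    (fun i j => by split_ifs; exacts [GG_nonneg _ _, le_rfl])
    (fun i hi j hj h => by
      rw [if_pos (c3 i j _ _ _ _ hj.le (by omega) (by omega) (by omega) (by omega) h),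
        if_pos (c3 i (j + 1) _ _ _ _ hj (by omega) (by omega) (by omega) (by omega) h)]
      refine sq_le_two_GG hp ψ _ _ (j + 1) (if i ≤ j then j else j + 1) fun t => ?_
      unfold mid
      split_ifs <;> first | rfl | omega)
    (fun j hj i hi h => by
      rw [if_pos (c3 i j _ _ _ _ hj (by omega) (by omega) (by omega) (by omega) h),
        if_pos (c3 (i + 1) j _ _ _ _ hj (by omega) (by omega) (by omega) (by omega) h)]
      refine sq_le_two_GG hp ψ _ _ (if i + 1 ≤ j then i + 1 else i) i fun t => ?_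
      unfold mid
      split_ifs <;> first | rfl | omega)
  have e1 : mid pos Z W 0 (K + 1) = Z := by
    ext t; have := hp' t; unfold mid; split_ifs <;> first | rfl | omega
  have e2 : mid pos Z W (K + 1) 0 = W := by
    ext t; have := hp' t; unfold mid; split_ifs <;> first | rfl | omega
  simp only [e1, e2] at this
  convert this using 3
  push_cast; ring

theorem knap_cong {n : ℕ} {ok : ι → ℕ → Prop} {pos : ι → ℕ} (hp : Function.Injective pos)
    (ψ : (ι → ℕ) → ℝ) (i j : ℕ) : ∑ p ∈ TE n ok ×ˢ TE n ok,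
      (if mid pos p.1 p.2 i j ∈ TL n ok ∧ mid pos p.2 p.1 i j ∈ TL n ok then
        GG ψ (mid pos p.1 p.2 i j) else 0) ≤
      (n + 1) ^ 4 * (TL n ok).card * ∑ z ∈ TL n ok, GG ψ z := by
  rw [← sum_filter, ← sum_fiberwise_of_maps_to (t := TL n ok) (g := fun p => mid pos p.1 p.2 i j)
    (fun p hp => (mem_filter.1 hp).2.1), mul_sum]
  refine sum_le_sum fun z _ => ?_
  rw [sum_congr rfl (g := fun _ => GG ψ z) (fun p hp => by rw [(mem_filter.1 hp).2]), sum_const,
    nsmul_eq_mul]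
  refine mul_le_mul_of_nonneg_right ?_ (GG_nonneg _ _)
  let val : (ι → ℕ) → ℕ → ℕ := fun z k => ∑ t ∈ univ.filter (fun t => pos t = k), z t
  have v1 : ∀ z ∈ TE n ok, ∀ k, val z k ∈ range (n + 1) := fun z hz k =>
    mem_range.2 (Nat.lt_succ_of_le ((sum_le_sum_of_subset (filter_subset _ _)).trans
      (mem_TE.1 hz).2.le))
  have v2 : ∀ z t, val z (pos t) = z t := fun z t => by
    simp [val, hp.eq_iff, filter_eq']
  have : (n + 1) ^ 4 * (TL n ok).card = (TL n ok ×ˢ (range (n + 1) ×ˢ range (n + 1)) ×ˢ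
      (range (n + 1) ×ˢ range (n + 1))).card := by simp; ring
  norm_cast
  rw [this]
  refine card_le_card_of_injOn (fun p => (mid pos p.2 p.1 i j, (val p.1 i, val p.1 j),
    (val p.2 i, val p.2 j))) (fun p hp => ?_) fun p hp q hq e => ?_
  · simp only [coe_filter, mem_filter, mem_product, Set.mem_ofPred_eq] at hp
    simp only [mem_coe, mem_product]
    exact ⟨hp.1.2.2, ⟨v1 _ hp.1.1.1 _, v1 _ hp.1.1.1 _⟩, v1 _ hp.1.1.2 _, v1 _ hp.1.1.2 _⟩
  · simp only [coe_filter, Set.mem_ofPred_eq] at hp hq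
    simp only [Prod.mk.injEq] at e
    obtain ⟨e1, ⟨e2, e3⟩, e4, e5⟩ := e
    have e0 := hp.2.trans hq.2.symm
    have : ∀ t, p.1 t = q.1 t ∧ p.2 t = q.2 t := by
      intro t
      by_cases hi : pos t = i
      · subst hi; simpa [v2] using And.intro e2 e4
      by_cases hj : pos t = j
      · subst hj; simpa [v2] using And.intro e3 e5
      have a1 := congrFun e0 t
      have a2 := congrFun e1 t
      unfold mid at a1 a2
      split_ifs at a1 a2
      · exact ⟨a2, a1⟩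
      · exact ⟨a1, a2⟩
      · omega
    exact Prod.ext (funext fun t => (this t).1) (funext fun t => (this t).2)

theorem knap {n : ℕ} {ok : ι → ℕ → Prop} (h0 : ∀ j, ok j 0) (ψ : (ι → ℕ) → ℝ) :
    ∑ p ∈ TE n ok ×ˢ TE n ok, (ψ p.1 - ψ p.2) ^ 2 ≤ 16 * (Fintype.card ι + 2) ^ 5 *
      ((n + 1) ^ 4 * (TL n ok).card * ∑ z ∈ TL n ok, GG ψ z) := by
  set K := Fintype.card ι
  let e := Fintype.equivFin ι
  let pos : ℕ → ι → ℕ := fun u t => if u ≤ e t then e t - u + 1 else e t + K - u + 1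
  have p1 : ∀ u ≤ K, Function.Injective (pos u) := fun u hu s t h => by
    refine e.injective (Fin.ext ?_)
    have := (e s).2
    have := (e t).2
    simp only [pos] at h
    split_ifs at h <;> omega
  have p2 : ∀ u ≤ K, ∀ t, 0 < pos u t ∧ pos u t ≤ K := fun u hu t => by
    have := (e t).2
    simp only [pos]
    split_ifs <;> omega
  have p3 : ∀ Z ∈ TE n ok, ∀ W ∈ TE n ok, ∃ u ≤ K, ∀ k, 0 ≤ hgt (pos u) Z W k := by
    intro Z hZ W hW
    let h : ℕ → ℤ := hgt (fun t => e t) Z W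
    obtain ⟨u, hu, hu'⟩ := exists_min_image (range (K + 1)) h (by simp)
    have hu0 : u ≤ K := Nat.lt_succ_iff.1 (mem_range.1 hu)
    have hK : h K = 0 := by
      simp only [h]
      rw [hgt, sum_congr rfl fun t _ => if_pos (e t).2, sum_sub_distrib,
        ← Nat.cast_sum, ← Nat.cast_sum, (mem_TE.1 hZ).2, (mem_TE.1 hW).2, sub_self]
    refine ⟨u, hu0, fun k => ?_⟩
    rcases k with _ | k
    · simp [hgt]
    rcases le_or_gt (u + k) K with hk | hk
    · have : hgt (pos u) Z W (k + 1) = h (u + k) - h u := by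
        simp only [h, hgt, ← sum_sub_distrib, pos]
        refine sum_congr rfl fun t _ => ?_
        split_ifs <;> omega
      rw [this, sub_nonneg]
      exact hu' _ (mem_range.2 (by omega))
    · have : hgt (pos u) Z W (k + 1) = h K + h (min u (u + k - K)) - h u := by
        simp only [h, hgt, ← sum_sub_distrib, ← sum_add_distrib, pos]
        refine sum_congr rfl fun t _ => ?_
        have := (e t).2
        split_ifs <;> omega
      rw [this, hK, zero_add, sub_nonneg]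
      exact hu' _ (mem_range.2 (by omega))
  set B := (n + 1 : ℝ) ^ 4 * (TL n ok).card * ∑ z ∈ TL n ok, GG ψ z
  have B0 : 0 ≤ B := mul_nonneg (by positivity) (sum_nonneg fun _ _ => GG_nonneg _ _)
  calc _ ≤ ∑ p ∈ TE n ok ×ˢ TE n ok, 16 * (K + 2) ^ 2 * ∑ u ∈ range (K + 1),
        ∑ i ∈ range (K + 2), ∑ j ∈ range (K + 2),
        if mid (pos u) p.1 p.2 i j ∈ TL n ok ∧ mid (pos u) p.2 p.1 i j ∈ TL n ok then
          GG ψ (mid (pos u) p.1 p.2 i j) else 0 := by
        refine sum_le_sum fun p hp => ?_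
        obtain ⟨hZ, hW⟩ := mem_product.1 hp
        obtain ⟨u, hu, h⟩ := p3 _ hZ _ hW
        refine (knap_pair h0 (p1 u hu) (p2 u hu) hZ hW h ψ).trans ?_
        gcongr
        exact single_le_sum (f := fun u => ∑ i ∈ range (K + 2), ∑ j ∈ range (K + 2),
          if mid (pos u) p.1 p.2 i j ∈ TL n ok ∧ mid (pos u) p.2 p.1 i j ∈ TL n ok then
          GG ψ (mid (pos u) p.1 p.2 i j) else 0) (fun u _ => sum_nonneg fun i _ =>
            sum_nonneg fun j _ => by split_ifs; exacts [GG_nonneg _ _, le_rfl])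
          (mem_range.2 (Nat.lt_succ_of_le hu))
    _ ≤ 16 * (K + 2) ^ 2 * ∑ _u ∈ range (K + 1), ∑ _i ∈ range (K + 2), ∑ _j ∈ range (K + 2), B := by
        rw [← mul_sum, sum_comm]
        gcongr with u hu
        rw [sum_comm]
        gcongr with i
        rw [sum_comm]
        gcongr with j
        exact knap_cong (p1 u (Nat.lt_succ_iff.1 (mem_range.1 hu))) ψ i j
    _ ≤ _ := by
        simp only [sum_const, card_range, nsmul_eq_mul]
        push_cast
        have : (K + 1 : ℝ) ≤ K + 2 := by linarith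
        calc _ ≤ 16 * (K + 2) ^ 2 * ((K + 2 : ℝ) * ((K + 2) * ((K + 2) * B))) := by gcongr
          _ = _ := by ring

end Pool.Agent.Lib.MP_449609_pr
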