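import Pool.Agent.Lib.MP_449609_pr.Near
import Pool.Agent.Lib.MP_449609_pr.Knap
import Pool.Agent.Lib.MP_449609_pr.Asym

set_option autoImplicit false
set_option linter.unusedSectionVars false

open Finset Equiv
open Classical

namespace Pool.Agent.Lib.MP_449609_pr

variable {V : Type} [Fintype V] [DecidableEq V]

/-- number of vertices of each type -/
noncomputable def vec (d : ℕ) (X : SimpleGraph V) (j : types V d) : ℕ := cnt X univ j

theorem vec_act (d : ℕ) (σ : Perm V) (X : SimpleGraph V) : vec d (act σ X) = vec d X :=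
  funext fun j => cnt_act σ X j

theorem sum_vec {d : ℕ} {X : SimpleGraph V} (hX : Deg d X) : ∑ j, vec d X j = Fintype.card V := by
  unfold vec cnt
  rw [sum_coe_sort (types V d) fun j => (univ.filter fun v => ty X v = j).card, ← card_univ,
    card_eq_sum_card_fiberwise (s := univ) (f := ty X) fun v _ => ty_mem_types hX v]

theorem deg_bot (d : ℕ) : Deg d (⊥ : SimpleGraph V) := fun v => by simp [nb]

/-- the type of an isolated vertex -/
noncomputable def pt (d : ℕ) (w : V) : types V d := ⟨ty ⊥ w, ty_mem_types (deg_bot d) w⟩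

theorem card_nonisolated {d : ℕ} (w : V) {X : SimpleGraph V} (hX : Deg d X) :
    (univ.filter fun v => nb X v ≠ ∅).card = ∑ j ∈ univ.erase (pt d w), vec d X j := by
  have h1 := sum_vec hX
  rw [← add_sum_erase _ _ (mem_univ (pt d w))] at h1
  have h2 := card_filter_add_card_filter_not (s := univ) fun v => nb X v = ∅
  have h3 : vec d X (pt d w) = (univ.filter fun v => nb X v = ∅).card := by
    simp only [vec, cnt, pt, ty_eq_bot_iff]
  rw [card_univ] at h2
  simp only [Ne]
  omega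

theorem eq_of_off_pt {ι : Type} [Fintype ι] [DecidableEq ι] {p : ι} {y z : ι → ℕ}
    (h : ∀ j ≠ p, y j = z j) (hs : ∑ j, y j = ∑ j, z j) : y = z := by
  rw [← add_sum_erase _ _ (mem_univ p), ← add_sum_erase _ _ (mem_univ p),
    sum_congr rfl fun j hj => h j (mem_erase.1 hj).1] at hs
  ext j
  by_cases e : j = p
  · rw [e]; exact Nat.add_right_cancel hs
  · exact h j e

theorem iso_of_vec {d : ℕ} (w : V) {X X' : SimpleGraph V} (hX : Deg d X) (hX' : Deg d X')
    (h : ∀ j ≠ pt d w, vec d X j = vec d X' j) : ∃ σ, X' = act σ X := by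
  have := eq_of_off_pt h ((sum_vec hX).trans (sum_vec hX').symm)
  refine iso_of_cnt fun j => ?_
  by_cases hj : j ∈ types V d
  · exact congrFun this ⟨j, hj⟩
  · unfold cnt
    rw [filter_false_of_mem fun v _ (e : ty X v = j) => hj (e ▸ ty_mem_types hX v),
      filter_false_of_mem fun v _ (e : ty X' v = j) => hj (e ▸ ty_mem_types hX' v)]

/-- realisable multiplicities -/
def okv (d : ℕ) (w : V) (j : types V d) (x : ℕ) : Prop :=
  j = pt d w ∨ ∃ R, Deg d R ∧ ∀ i ≠ pt d w, vec d R i = if i = j then x else 0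

theorem vec_bot {d : ℕ} {w : V} {i : types V d} (hi : i ≠ pt d w) : vec d ⊥ i = 0 := by
  unfold vec cnt
  rw [card_eq_zero]
  refine filter_false_of_mem fun v _ e => hi (Subtype.ext (e.symm.trans ?_))
  exact ty_eq_bot_iff.2 (by simp [nb])

theorem okv_zero (d : ℕ) (w : V) (j : types V d) : okv d w j 0 :=
  Or.inr ⟨⊥, deg_bot d, fun i hi => by simp [vec_bot hi]⟩

theorem vec_mem {d : ℕ} (w : V) {X : SimpleGraph V} (hX : Deg d X) :
    vec d X ∈ TE (Fintype.card V) (okv d w) := by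
  refine mem_TE.2 ⟨fun j => Or.inr ?_, sum_vec hX⟩
  set S := univ.filter fun v => ty X v = j
  have hS : ∀ v ∈ S, comp X v ⊆ S := fun v hv u hu =>
    mem_filter.2 ⟨mem_univ _, (ty_eq_of_mem hu).trans (mem_filter.1 hv).2⟩
  refine ⟨res X S, fun v => le_trans (card_le_card fun y hy => mem_nb.2 (mem_nb.1 hy).1) (hX v),
    fun i hi => ?_⟩
  have h1 : ∀ v, ty (res X S) v = i ↔ ty X v = j ∧ i = j := by
    intro v
    by_cases hv : v ∈ S
    · rw [ty_local (X := X) (X' := res X S) fun x hx y => ⟨fun h => ⟨h, hS v hv hx,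
        hS v hv (closed_comp X v x hx y h)⟩, fun h => h.1⟩, (mem_filter.1 hv).2]
      exact ⟨fun e => ⟨rfl, Subtype.ext e.symm⟩, fun e => e.2 ▸ rfl⟩
    · have : nb (res X S) v = ∅ := eq_empty_of_forall_notMem fun y hy => hv (mem_nb.1 hy).2.1
      rw [(ty_eq_bot_iff (w := w)).2 this]
      exact iff_of_false (fun e => hi (Subtype.ext e.symm))
        fun e => hv (mem_filter.2 ⟨mem_univ _, e.1⟩)
  simp only [vec, cnt, h1]
  split_ifs with h <;> simp [h]

theorem exists_sup {d : ℕ} (w : V) {B R : SimpleGraph V} (hB : Deg d B) (hR : Deg d R)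
    (h : ∑ j ∈ univ.erase (pt d w), vec d B j + ∑ j ∈ univ.erase (pt d w), vec d R j ≤
      Fintype.card V) : ∃ σ, Disj (act σ B) R :=
  exists_disj B R (by rwa [card_nonisolated w hB, card_nonisolated w hR])

theorem Disj.vec_sup {d : ℕ} {w : V} {B R : SimpleGraph V} (h : Disj B R) {j : types V d}
    (hj : j ≠ pt d w) : vec d (B ⊔ R) j = vec d B j + vec d R j :=
  h.cnt_sup (w := w) fun e => hj (Subtype.ext e)

theorem realise {d : ℕ} (w : V) {z : types V d → ℕ} (hz : z ∈ TL (Fintype.card V) (okv d w)) :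
    ∃ X, Deg d X ∧ ∀ j ≠ pt d w, vec d X j = z j := by
  rw [mem_TL] at hz
  suffices h : ∀ S : Finset (types V d), ∃ X, Deg d X ∧ ∀ j ≠ pt d w,
      vec d X j = if j ∈ S then z j else 0 by simpa using h univ
  intro S
  induction S using Finset.induction_on with
  | empty => exact ⟨⊥, deg_bot d, fun j hj => by simp [vec_bot hj]⟩
  | insert a S ha ih =>
    obtain ⟨B, b1, b2⟩ := ih
    rcases hz.1 a with rfl | ⟨R, r1, r2⟩
    · exact ⟨B, b1, fun j hj => by simp [b2 j hj, hj]⟩
    have e : ∀ j ≠ pt d w, vec d B j + vec d R j = if j ∈ insert a S then z j else 0 := by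
      intro j hj
      rw [b2 j hj, r2 j hj]
      by_cases c : j = a
      · simp [c, ha]
      · simp [c]
    obtain ⟨σ, hσ⟩ := exists_sup w b1 r1 (by
      rw [← sum_add_distrib]
      refine le_trans ((sum_le_sum fun j hj => ?_).trans
        (sum_le_sum_of_subset (erase_subset _ _))) hz.2
      rw [e j (mem_erase.1 hj).1]
      split_ifs <;> simp)
    exact ⟨_, hσ.deg (b1.act σ) r1, fun j hj => by rw [hσ.vec_sup hj, vec_act, e j hj]⟩

theorem exists_rep (d : ℕ) (w : V) (z : types V d → ℕ) : ∃ X, Deg d X ∧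
    (z ∈ TL (Fintype.card V) (okv d w) → ∀ j ≠ pt d w, vec d X j = z j) := by
  by_cases hz : z ∈ TL (Fintype.card V) (okv d w)
  · exact (realise w hz).imp fun X h => ⟨h.1, fun _ => h.2⟩
  · exact ⟨⊥, deg_bot d, fun h => absurd h hz⟩

/-- a graph with prescribed type vector -/
noncomputable def rep {d : ℕ} (w : V) (z : types V d → ℕ) : SimpleGraph V :=
  (exists_rep d w z).choose

theorem rep_deg {d : ℕ} (w : V) (z : types V d → ℕ) : Deg d (rep w z) :=
  (exists_rep d w z).choose_spec.1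

theorem rep_vec {d : ℕ} {w : V} {z : types V d → ℕ} (hz : z ∈ TL (Fintype.card V) (okv d w))
    {j : types V d} (hj : j ≠ pt d w) : vec d (rep w z) j = z j :=
  (exists_rep d w z).choose_spec.2 hz j hj

theorem exists_md {d : ℕ} (w : V) (j : types V d) (x : ℕ) : ∃ R, Deg d R ∧ (j ≠ pt d w →
    okv d w j x → ∀ i ≠ pt d w, vec d R i = if i = j then x else 0) := by
  by_cases h : ∃ R, Deg d R ∧ ∀ i ≠ pt d w, vec d R i = if i = j then x else 0
  · exact h.imp fun R h => ⟨h.1, fun _ _ => h.2⟩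
  · exact ⟨⊥, deg_bot d, fun a b => absurd (b.resolve_left a) h⟩

theorem iso_rep {d : ℕ} (w : V) {X : SimpleGraph V} (hX : Deg d X) :
    ∃ σ, X = act σ (rep w (vec d X)) :=
  iso_of_vec w (rep_deg w _) hX fun _ hj => rep_vec (mem_filter.1 (vec_mem w hX)).1 hj

theorem vec_rep {d : ℕ} {w : V} {y : types V d → ℕ} (hy : y ∈ TE (Fintype.card V) (okv d w)) :
    vec d (rep w y) = y :=
  eq_of_off_pt (fun _ hj => rep_vec (mem_filter.1 hy).1 hj)
    ((sum_vec (rep_deg w y)).trans (mem_TE.1 hy).2.symm)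

theorem sum_classes (d : ℕ) (w : V) (φ : SimpleGraph V → ℝ) :
    ∑ X ∈ univ.filter (Deg d), (auts X).card * φ X =
      ∑ y ∈ TE (Fintype.card V) (okv d w), ∑ σ, φ (act σ (rep w y)) := by
  rw [← sum_fiberwise_of_maps_to (g := vec d) (fun X hX => vec_mem w (mem_filter.1 hX).2)]
  refine sum_congr rfl fun y hy => ?_
  rw [← sum_fiberwise_of_maps_to (s := univ) (g := fun σ => act σ (rep w y))
    (t := (univ.filter (Deg d)).filter fun X => vec d X = y) fun σ _ => mem_filter.2
      ⟨mem_filter.2 ⟨mem_univ _, (rep_deg w y).act σ⟩, by rw [vec_act, vec_rep hy]⟩]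
  refine sum_congr rfl fun X hX => ?_
  obtain ⟨a1, a2⟩ := mem_filter.1 hX
  obtain ⟨σ₀, e⟩ := iso_rep w (mem_filter.1 a1).2
  rw [a2] at e
  rw [sum_congr rfl (g := fun _ => φ X) (fun σ hσ => by rw [(mem_filter.1 hσ).2]), sum_const,
    nsmul_eq_mul, e, card_fiber_act, card_auts_act]

theorem DD_eq (d : ℕ) (w : V) (f : SimpleGraph V → ℝ) :
    DD d f = ∑ y ∈ TE (Fintype.card V) (okv d w), EE d f (rep w y) := by
  unfold EE
  rw [← sum_classes, DD, sum_Prs_left]
  refine sum_congr rfl fun X _ => ?_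
  have : (0 : ℝ) < (auts X).card := by exact_mod_cast card_auts_pos X
  unfold eps
  field_simp

theorem update_mem {n : ℕ} {ι : Type} [Fintype ι] [DecidableEq ι] {ok : ι → ℕ → Prop}
    (h0 : ∀ j, ok j 0) {z : ι → ℕ} (hz : z ∈ TL n ok) (j : ι) :
    Function.update z j 0 ∈ TL n ok := by
  rw [mem_TL] at *
  refine ⟨fun i => ?_, le_trans (sum_le_sum fun i _ => ?_) hz.2⟩ <;>
    rw [Function.update_apply] <;> split_ifs with h
  exacts [h0 i, hz.1 i, Nat.zero_le _, le_rfl]

theorem move_chain {d : ℕ} {w : V} (f : SimpleGraph V → ℝ) {j : types V d}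
    {z : types V d → ℕ} (hz : z ∈ TL (Fintype.card V) (okv d w)) {R : SimpleGraph V}
    (hR : Deg d R) (hR' : ∀ i ≠ pt d w, vec d R i = if i = j then z j else 0) :
    ∃ y : ℕ → types V d → ℕ, (∀ k, y k ∈ TE (Fintype.card V) (okv d w) ∧ ∀ i ≠ pt d w,
        y k i = Function.update z j 0 i + vec d (del R k) i) ∧
      (Fintype.card (Perm V) : ℝ) * (mu f (rep w z) - mu f (rep w (Function.update z j 0))) ^ 2 ≤
        4 * (Fintype.card V : ℝ) ^ 4 *
          ∑ k ∈ range (Fintype.card V ^ 2 + 1), EE d f (rep w (y k)) := by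
  have up := update_mem (okv_zero d w) hz j
  have e : ∀ i ≠ pt d w, vec d (rep w (Function.update z j 0)) i + vec d R i = z i := by
    intro i hi
    rw [rep_vec up hi, hR' i hi, Function.update_apply]
    split_ifs with c <;> simp [c]
  obtain ⟨σ, hσ⟩ := exists_sup w (rep_deg w (Function.update z j 0)) hR (by
    rw [← sum_add_distrib, sum_congr rfl fun i hi => e i (mem_erase.1 hi).1]
    exact (sum_le_sum_of_subset (erase_subset _ _)).trans (mem_TL.1 hz).2)
  set B := act σ (rep w (Function.update z j 0))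
  have hB : Deg d B := (rep_deg w _).act σ
  have d1 : ∀ k, Disj B (del R k) := fun k v => (hσ v).imp id fun h =>
    subset_empty.1 ((nb_del _ k v).trans h.subset)
  have d2 : ∀ k, Deg d (B ⊔ del R k) := fun k => (d1 k).deg hB fun v =>
    (card_le_card (nb_del _ k v)).trans (hR v)
  refine ⟨fun k => vec d (B ⊔ del R k), fun k => ⟨vec_mem w (d2 k),
    fun i hi => ((d1 k).vec_sup hi).trans (by rw [vec_act, rep_vec up hi])⟩, ?_⟩
  obtain ⟨τ, e1⟩ := iso_of_vec w (hσ.deg hB hR) (rep_deg w z) fun i hi => by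
    rw [hσ.vec_sup hi, vec_act, e i hi, rep_vec hz hi]
  have := chain d f B R
  rw [mu_act] at this
  rw [e1, mu_act]
  refine this.trans_eq ?_
  congr 1
  refine sum_congr rfl fun k _ => ?_
  obtain ⟨ρ, e2⟩ := iso_rep w (d2 k)
  conv_lhs => rw [e2, EE_act]

theorem move_sum {d : ℕ} (w : V) (f : SimpleGraph V → ℝ) (j : types V d) :
    (Fintype.card (Perm V) : ℝ) * ∑ z ∈ TL (Fintype.card V) (okv d w),
      (mu f (rep w z) - mu f (rep w (Function.update z j 0))) ^ 2 ≤
      4 * (Fintype.card V + 1) ^ 8 * DD d f := by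
  have D0 := DD_nonneg d f
  by_cases hj : j = pt d w
  · rw [sum_eq_zero fun z hz => ?_, mul_zero]
    · positivity
    obtain ⟨σ, e⟩ := iso_of_vec w (rep_deg w z) (rep_deg w (Function.update z j 0)) fun i hi => by
      rw [rep_vec hz hi, rep_vec (update_mem (okv_zero d w) hz j) hi,
        Function.update_of_ne (hj ▸ hi)]
    rw [e, mu_act, sub_self]
    norm_num
  choose md m1 m2 using exists_md w j
  choose! y y1 y2 using fun z (hz : z ∈ TL (Fintype.card V) (okv d w)) =>
    move_chain f hz (m1 (z j)) (m2 _ hj ((mem_TL.1 hz).1 j))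
  set n := Fintype.card V
  have k2 : ∀ k, ∑ z ∈ TL n (okv d w), EE d f (rep w (y z k)) ≤ (n + 1) ^ 2 * DD d f := by
    intro k
    rw [DD_eq d w, mul_sum, ← sum_fiberwise_of_maps_to (g := fun z => y z k)
      fun z hz => (y1 z hz k).1]
    refine sum_le_sum fun t _ => ?_
    rw [sum_congr rfl (g := fun _ => EE d f (rep w t)) (fun z hz => by rw [(mem_filter.1 hz).2]),
      sum_const, nsmul_eq_mul]
    refine mul_le_mul_of_nonneg_right ?_ (EE_nonneg _ _ _)
    have : (n + 1) ^ 2 = (range (n + 1) ×ˢ range (n + 1)).card := by simp [sq]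
    norm_cast
    rw [this]
    refine card_le_card_of_injOn (fun z => (z j, z (pt d w))) (fun z hz => ?_)
      fun z hz z' hz' e => ?_
    · have := (mem_filter.1 (mem_filter.1 hz).1).1
      rw [Fintype.mem_piFinset] at this
      exact mem_product.2 ⟨this _, this _⟩
    · obtain ⟨a1, a2⟩ := mem_filter.1 hz
      obtain ⟨a3, a4⟩ := mem_filter.1 hz'
      simp only [Prod.mk.injEq] at e
      ext i
      by_cases c1 : i = j
      · rw [c1, e.1]
      by_cases c2 : i = pt d w
      · rw [c2, e.2]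
      have b1 := (y1 z a1 k).2 i c2
      have b2 := (y1 z' a3 k).2 i c2
      rw [a2, Function.update_of_ne c1, e.1] at b1
      rw [a4, Function.update_of_ne c1] at b2
      omega
  rw [mul_sum]
  refine (sum_le_sum y2).trans ?_
  rw [← mul_sum, sum_comm]
  refine (mul_le_mul_of_nonneg_left (sum_le_card_nsmul _ _ _ fun k _ => k2 k)
    (by positivity)).trans ?_
  clear y1 y2 k2 m1 m2
  calc _ = 4 * ((n : ℝ) ^ 4 * (n ^ 2 + 1) * (n + 1) ^ 2) * DD d f := by
        rw [card_range, nsmul_eq_mul]; push_cast; ring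
    _ ≤ 4 * ((n + 1 : ℝ) ^ 4 * (n + 1) ^ 2 * (n + 1) ^ 2) * DD d f := by
        gcongr
        · linarith
        · nlinarith [Nat.cast_nonneg (α := ℝ) n]
    _ = _ := by ring

theorem card_TL_le {n : ℕ} {ι : Type} [Fintype ι] [DecidableEq ι] {ok : ι → ℕ → Prop} (p : ι)
    (hp : ∀ x, ok p x) : (TL n ok).card ≤ (n + 1) * (TE n ok).card := by
  refine card_le_of_code _ _ (fun z => Function.update z p (z p + (n - ∑ j, z j)))
    (fun z => z p) (fun _ => range (n + 1)) _ (fun z hz => ?_) (fun _ _ => by simp)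
    (fun _ _ z hz _ => Fintype.mem_piFinset.1 (mem_filter.1 hz).1 _) fun z _ z' _ e e' => ?_
  · rw [mem_TL] at hz
    refine mem_TE.2 ⟨fun i => ?_, ?_⟩
    · by_cases c : i = p
      · exact c ▸ hp _
      · rw [Function.update_of_ne c]; exact hz.1 i
    · rw [sum_update_of_mem (mem_univ _), sdiff_singleton_eq_erase]
      have := add_sum_erase _ z (mem_univ p)
      omega
  · ext i
    by_cases c : i = p
    · rw [c]; exact e'
    · simpa [Function.update_of_ne c] using congrFun e i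

theorem knap_poinc {n : ℕ} {ι : Type} [Fintype ι] [DecidableEq ι] {ok : ι → ℕ → Prop}
    (h0 : ∀ j, ok j 0) (p : ι) (hp : ∀ x, ok p x) (hne : (TE n ok).Nonempty) (ψ : (ι → ℕ) → ℝ) :
    ∃ c, ∑ Z ∈ TE n ok, (ψ Z - c) ^ 2 ≤
      16 * (Fintype.card ι + 2 : ℝ) ^ 5 * (n + 1) ^ 5 * ∑ z ∈ TL n ok, GG ψ z := by
  have hk := knap (n := n) h0 ψ
  have G0 : 0 ≤ ∑ z ∈ TL n ok, GG ψ z := sum_nonneg fun _ _ => GG_nonneg _ _
  generalize ∑ z ∈ TL n ok, GG ψ z = G at *
  obtain ⟨W, _, hW⟩ := exists_le_of_sum_le (s := TE n ok)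
    (f := fun W => ∑ Z ∈ TE n ok, (ψ Z - ψ W) ^ 2)
    (g := fun _ => 16 * (Fintype.card ι + 2 : ℝ) ^ 5 * (n + 1) ^ 5 * G) hne (by
      rw [← sum_product_right' (f := fun Z W => (ψ Z - ψ W) ^ 2), sum_const, nsmul_eq_mul]
      refine hk.trans ?_
      have : ((TL n ok).card : ℝ) ≤ (n + 1) * (TE n ok).card := by exact_mod_cast card_TL_le p hp
      calc _ ≤ 16 * (Fintype.card ι + 2 : ℝ) ^ 5 *
          ((n + 1) ^ 4 * ((n + 1) * (TE n ok).card) * G) := by gcongr
        _ = _ := by ring)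
  exact ⟨_, hW⟩

theorem poinc_types (d : ℕ) (w : V) : Poinc V d
    (8 * (Fintype.card V + 1) ^ 4 +
      128 * ((types V d).card + 2) ^ 6 * (Fintype.card V + 1) ^ 13) := by
  intro f
  obtain ⟨c, hc⟩ := knap_poinc (okv_zero d w) (pt d w) (fun _ => Or.inl rfl)
    ⟨_, vec_mem w (deg_bot d)⟩ fun z => mu f (rep w z)
  have D0 := DD_nonneg d f
  have hG : (Fintype.card (Perm V) : ℝ) * ∑ z ∈ TL (Fintype.card V) (okv d w),
      GG (fun z => mu f (rep w z)) z ≤
      ((types V d).card + 2) * (4 * (Fintype.card V + 1) ^ 8 * DD d f) := by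
    unfold GG
    rw [sum_comm, mul_sum]
    refine (sum_le_card_nsmul _ _ _ fun j _ => move_sum w f j).trans ?_
    rw [card_univ, Fintype.card_coe, nsmul_eq_mul]
    exact mul_le_mul_of_nonneg_right (by linarith) (mul_nonneg (by positivity) D0)
  rw [Fintype.card_coe] at hc
  refine ⟨c, ?_⟩
  rw [sum_Prs_left]
  simp only [sum_const, nsmul_eq_mul]
  rw [sum_classes d w fun X => (f X - c) ^ 2]
  have h1 : ∑ y ∈ TE (Fintype.card V) (okv d w), ∑ σ, (f (act σ (rep w y)) - c) ^ 2 ≤
      8 * (Fintype.card V + 1) ^ 4 * DD d f + 2 * (Fintype.card (Perm V) *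
        ∑ y ∈ TE (Fintype.card V) (okv d w), (mu f (rep w y) - c) ^ 2) := by
    rw [DD_eq d w, mul_sum, mul_sum, mul_sum, ← sum_add_distrib]
    refine sum_le_sum fun y _ => ?_
    generalize rep w y = X
    have a1 := within d f X
    have a2 : 4 * (Fintype.card V : ℝ) ^ 2 * (Fintype.card V + 1) ^ 2 * EE d f X ≤
        4 * (Fintype.card V + 1) ^ 4 * EE d f X := by
      refine mul_le_mul_of_nonneg_right ?_ (EE_nonneg d f X)
      calc _ ≤ 4 * (Fintype.card V + 1 : ℝ) ^ 2 * (Fintype.card V + 1) ^ 2 := by gcongr; linarith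
        _ = _ := by ring
    have a3 : ∑ σ, (f (act σ X) - c) ^ 2 ≤
        2 * ∑ σ, (f (act σ X) - mu f X) ^ 2 + 2 * (Fintype.card (Perm V) * (mu f X - c) ^ 2) := by
      rw [← card_univ, ← nsmul_eq_mul, ← sum_const, mul_sum, mul_sum, ← sum_add_distrib]
      refine sum_le_sum fun σ _ => ?_
      nlinarith [sq_nonneg (f (act σ X) - mu f X - (mu f X - c))]
    linarith
  refine h1.trans ?_
  have h2 := mul_le_mul_of_nonneg_left hc (Nat.cast_nonneg (α := ℝ) (Fintype.card (Perm V)))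
  have h3 := mul_le_mul_of_nonneg_left hG (show (0 : ℝ) ≤
    16 * ((types V d).card + 2 : ℝ) ^ 5 * (Fintype.card V + 1) ^ 5 by positivity)
  linarith

theorem poinc_main (d : ℕ) : ∃ c k : ℕ, ∀ n : ℕ, Poinc (Fin n) d (c * (n + 1) ^ k) := by
  rcases le_or_gt 3 d with hd | hd
  · exact poinc_three hd
  refine ⟨8 + 128 * 4 ^ 6, 19, fun n => ?_⟩
  rcases n with _ | n
  · exact (poinc_trivial d).mono (by simp)
  refine (poinc_types d (0 : Fin (n + 1))).mono ?_
  have h1 : ((types (Fin (n + 1)) d).card : ℝ) ≤ 2 * (Fintype.card (Fin (n + 1)) + 1) := by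
    exact_mod_cast card_types (by omega)
  rw [Fintype.card_fin] at *
  generalize n + 1 = m at *
  have h0 : (1 : ℝ) ≤ m + 1 := by simp
  calc _ ≤ 8 * (m + 1 : ℝ) ^ 19 + 128 * (4 * (m + 1)) ^ 6 * (m + 1) ^ 13 := by
        gcongr
        · norm_num
        · linarith
    _ = _ := by push_cast; ring

end Pool.Agent.Lib.MP_449609_pr
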