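import Mathlib

set_option autoImplicit false
set_option linter.unusedSectionVars false

open Finset
open Classical

namespace Pool.Agent.Lib.MP_449609_pr

section Abstract

variable {A B : Type*} [Fintype A] [Fintype B] [DecidableEq A] (r : A → B → Prop)

/-- number of group elements attached to a state -/
noncomputable def wA (a : A) : ℝ := ((univ.filter fun b => r a b).card : ℝ)

/-- number of states attached to a group element -/
noncomputable def wB (b : B) : ℝ := ((univ.filter fun a => r a b).card : ℝ)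

noncomputable def Kmat : Matrix A A ℝ := Matrix.of fun a a' =>
  (1 / wA r a) * ∑ b ∈ univ.filter (fun b => r a b ∧ r a' b), 1 / wB r b

noncomputable def avg (F : A → ℝ) (b : B) : ℝ := (∑ a ∈ univ.filter (fun a => r a b), F a) / wB r b

theorem sum_swap (φ : A → B → ℝ) :
    ∑ a, ∑ b ∈ univ.filter (fun b => r a b), φ a b =
      ∑ b, ∑ a ∈ univ.filter (fun a => r a b), φ a b := by
  simp only [sum_filter]
  exact sum_comm

theorem Kmat_mulVec (F : A → ℝ) (a : A) :
    (Kmat r).mulVec F a = (∑ b ∈ univ.filter (fun b => r a b), avg r F b) / wA r a := by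
  simp only [Kmat, Matrix.mulVec, dotProduct, Matrix.of_apply, avg]
  simp only [mul_assoc]
  rw [← mul_sum, one_div, inv_mul_eq_div]
  congr 1
  simp only [sum_filter, sum_mul, sum_div]
  rw [sum_comm]
  refine sum_congr rfl fun b _ => ?_
  by_cases hb : r a b
  · simp only [hb, true_and, if_true]
    refine sum_congr rfl fun a' _ => ?_
    split_ifs <;> simp [div_eq_inv_mul]
  · simp [hb]

theorem sum_avg (F : A → ℝ) (b : B) :
    wB r b * avg r F b = ∑ a ∈ univ.filter (fun a => r a b), F a := by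
  unfold avg
  by_cases h : wB r b = 0
  · have : (univ.filter fun a => r a b) = ∅ := by
      rw [← card_eq_zero]; unfold wB at h; exact_mod_cast h
    simp [h, this]
  · field_simp

theorem sum_sq_avg (F : A → ℝ) (b : B) :
    ∑ a ∈ univ.filter (fun a => r a b), (F a - avg r F b) ^ 2 =
      ∑ a ∈ univ.filter (fun a => r a b), F a ^ 2 - wB r b * avg r F b ^ 2 := by
  have h := sum_avg r F b
  have : ∀ a, (F a - avg r F b) ^ 2 = F a ^ 2 - 2 * avg r F b * F a + avg r F b ^ 2 :=
    fun a => by ring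
  simp only [this, sum_add_distrib, sum_sub_distrib, ← mul_sum, ← h, sum_const, nsmul_eq_mul]
  unfold wB
  ring

theorem Kmat_symm (a a' : A) (ha : 0 < wA r a) (ha' : 0 < wA r a') :
    wA r a * Kmat r a a' = wA r a' * Kmat r a' a := by
  simp only [Kmat, Matrix.of_apply]
  rw [← mul_assoc, ← mul_assoc, mul_one_div_cancel ha.ne', mul_one_div_cancel ha'.ne']
  congr 1
  refine sum_congr ?_ fun _ _ => rfl
  ext b; simp [and_comm]

theorem Kpow_symm (hA : ∀ a, 0 < wA r a) (t : ℕ) (a a' : A) :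
    wA r a * (Kmat r ^ t) a a' = wA r a' * (Kmat r ^ t) a' a := by
  induction t generalizing a a' with
  | zero =>
    by_cases h : a = a'
    · subst h; rfl
    · simp [h, Ne.symm h]
  | succ t ih =>
    conv_lhs => rw [pow_succ]
    conv_rhs => rw [pow_succ']
    simp only [Matrix.mul_apply, mul_sum]
    refine sum_congr rfl fun c _ => ?_
    have h1 := ih a c
    have h2 := Kmat_symm r c a' (hA c) (hA a')
    calc wA r a * ((Kmat r ^ t) a c * Kmat r c a') = (wA r a * (Kmat r ^ t) a c) * Kmat r c a' := by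
          ring
      _ = (wA r c * Kmat r c a') * (Kmat r ^ t) c a := by rw [h1]; ring
      _ = _ := by rw [h2]; ring

theorem mean_step (hA : ∀ a, 0 < wA r a) (F : A → ℝ) :
    ∑ a, wA r a * (Kmat r).mulVec F a = ∑ a, wA r a * F a := by
  have e1 : ∀ a, wA r a * (Kmat r).mulVec F a = ∑ b ∈ univ.filter (fun b => r a b), avg r F b := by
    intro a; rw [Kmat_mulVec]; field_simp [(hA a).ne']
  simp only [e1]
  rw [sum_swap r (fun _ b => avg r F b)]
  simp only [sum_const, nsmul_eq_mul]
  have : ∀ b, ((univ.filter fun a => r a b).card : ℝ) * avg r F b =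
      ∑ a ∈ univ.filter (fun a => r a b), F a := fun b => sum_avg r F b
  simp only [this]
  rw [← sum_swap r (fun a _ => F a)]
  simp [wA]

theorem norm_step (hA : ∀ a, 0 < wA r a) {Λ : ℝ} (hΛ : 1 ≤ Λ)
    (hP : ∀ F : A → ℝ, ∃ c : ℝ, ∑ a, wA r a * (F a - c) ^ 2 ≤
      Λ * ∑ b, ∑ a ∈ univ.filter (fun a => r a b), (F a - avg r F b) ^ 2)
    (F : A → ℝ) (h0 : ∑ a, wA r a * F a = 0) :
    ∑ a, wA r a * (Kmat r).mulVec F a ^ 2 ≤ (1 - 1 / Λ) * ∑ a, wA r a * F a ^ 2 := by
  obtain ⟨c, hc⟩ := hP F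
  have e0 : ∑ a, wA r a * F a ^ 2 ≤ ∑ a, wA r a * (F a - c) ^ 2 := by
    have : ∀ a, wA r a * (F a - c) ^ 2 =
        wA r a * F a ^ 2 - 2 * c * (wA r a * F a) + wA r a * c ^ 2 := fun a => by ring
    simp only [this, sum_add_distrib, sum_sub_distrib, ← mul_sum, h0]
    have : 0 ≤ ∑ a, wA r a * c ^ 2 := sum_nonneg fun a _ => mul_nonneg (hA a).le (sq_nonneg c)
    linarith
  have e1 : ∑ a, wA r a * (Kmat r).mulVec F a ^ 2 ≤ ∑ b, wB r b * avg r F b ^ 2 := by
    calc _ ≤ ∑ a, ∑ b ∈ univ.filter (fun b => r a b), avg r F b ^ 2 := by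
          refine sum_le_sum fun a _ => ?_
          rw [Kmat_mulVec, div_pow]
          have cs := sq_sum_le_card_mul_sum_sq (s := univ.filter (fun b => r a b))
            (f := fun b => avg r F b)
          have hw := hA a
          rw [← mul_div_assoc, div_le_iff₀ (by positivity)]
          calc _ ≤ wA r a * (wA r a * ∑ b ∈ univ.filter (fun b => r a b), avg r F b ^ 2) :=
                mul_le_mul_of_nonneg_left cs hw.le
            _ = _ := by ring
      _ = _ := by
          rw [sum_swap r (fun _ b => avg r F b ^ 2)]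
          simp [wB]
  have e2 : ∑ b, ∑ a ∈ univ.filter (fun a => r a b), (F a - avg r F b) ^ 2 =
      ∑ a, wA r a * F a ^ 2 - ∑ b, wB r b * avg r F b ^ 2 := by
    simp only [sum_sq_avg, sum_sub_distrib]
    rw [← sum_swap r (fun a _ => F a ^ 2)]
    simp [wA]
  rw [e2] at hc
  have hΛ0 : 0 < Λ := by linarith
  have : (∑ a, wA r a * F a ^ 2) / Λ ≤ ∑ a, wA r a * F a ^ 2 - ∑ b, wB r b * avg r F b ^ 2 := by
    rw [div_le_iff₀ hΛ0]; linarith
  have e3 : (1 - 1 / Λ) * ∑ a, wA r a * F a ^ 2 =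
      ∑ a, wA r a * F a ^ 2 - (∑ a, wA r a * F a ^ 2) / Λ := by ring
  linarith

theorem tv_bound (hA : ∀ a, 1 ≤ wA r a) {Λ : ℝ} (hΛ : 1 ≤ Λ)
    (hP : ∀ F : A → ℝ, ∃ c : ℝ, ∑ a, wA r a * (F a - c) ^ 2 ≤
      Λ * ∑ b, ∑ a ∈ univ.filter (fun a => r a b), (F a - avg r F b) ^ 2)
    (t : ℕ) {ε : ℝ} (hε : 0 < ε) (ht : (∑ a, wA r a) / (4 * ε ^ 2) ≤ Real.exp (t / Λ)) (x : A) :
    (1 / 2 : ℝ) * ∑ y, |(Kmat r ^ t) x y - wA r y / ∑ a, wA r a| ≤ ε := by
  have hA' : ∀ a, 0 < wA r a := fun a => by linarith [hA a]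
  set Z := ∑ a, wA r a with hZ
  have Z0 : 0 < Z := lt_of_lt_of_le (hA' x)
    (single_le_sum (f := fun a => wA r a) (fun a _ => (hA' a).le) (mem_univ x))
  let F0 : A → ℝ := fun y => (if y = x then Z / wA r x else 0) - 1
  have hone : ∀ t : ℕ, (Kmat r ^ t).mulVec (fun _ => (1 : ℝ)) = fun _ => 1 := by
    intro t
    induction t with
    | zero => simp
    | succ t ih =>
      rw [pow_succ, ← Matrix.mulVec_mulVec]
      have : (Kmat r).mulVec (fun _ => (1 : ℝ)) = fun _ => 1 := by
        ext a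
        rw [Kmat_mulVec, div_eq_one_iff_eq (hA' a).ne']
        rw [wA, card_eq_sum_ones, Nat.cast_sum]
        refine sum_congr rfl fun b hb => ?_
        have : 0 < wB r b := by
          unfold wB
          exact_mod_cast card_pos.2 ⟨a, by simpa using hb⟩
        simp only [avg, sum_const, nsmul_eq_mul, mul_one, Nat.cast_one]
        exact div_self this.ne'
      rw [this, ih]
  have hF : ∀ y, (Kmat r ^ t).mulVec F0 y = Z * (Kmat r ^ t) x y / wA r y - 1 := by
    intro y
    have : F0 = (fun y => if y = x then Z / wA r x else 0) - fun _ => 1 := rfl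
    rw [this, Matrix.mulVec_sub, hone, Pi.sub_apply]
    congr 1
    simp only [Matrix.mulVec, dotProduct, mul_ite, mul_zero, sum_ite_eq', mem_univ, if_true]
    have h := Kpow_symm r hA' t x y
    have h1 := hA' x
    have h2 := hA' y
    field_simp
    linarith
  have hiter : ∀ t : ℕ, ∑ a, wA r a * (Kmat r ^ t).mulVec F0 a = 0 ∧
      ∑ a, wA r a * (Kmat r ^ t).mulVec F0 a ^ 2 ≤ (1 - 1 / Λ) ^ t * Z ^ 2 := by
    intro t
    induction t with
    | zero =>
      simp only [pow_zero, Matrix.one_mulVec, one_mul]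
      have h1 := hA' x
      constructor
      · simp only [F0, mul_sub, mul_ite, mul_zero, sum_sub_distrib, sum_ite_eq', mem_univ, if_true,
          mul_one, ← hZ]
        field_simp; ring
      · have : ∀ a, wA r a * F0 a ^ 2 =
            (if a = x then Z ^ 2 / wA r x - 2 * Z else 0) + wA r a := by
          intro a
          simp only [F0]
          split_ifs with h
          · subst h; field_simp; ring
          · ring
        simp only [this, sum_add_distrib, sum_ite_eq', mem_univ, if_true, ← hZ]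
        have : Z ^ 2 / wA r x ≤ Z ^ 2 := div_le_self (by positivity) (hA x)
        linarith
    | succ t ih =>
      rw [pow_succ', ← Matrix.mulVec_mulVec]
      refine ⟨by rw [mean_step r hA', ih.1], ?_⟩
      refine (norm_step r hA' hΛ hP _ ih.1).trans ?_
      have : 0 ≤ 1 - 1 / Λ := by
        rw [sub_nonneg, div_le_one (by linarith)]; exact hΛ
      rw [pow_succ', mul_assoc]
      exact mul_le_mul_of_nonneg_left ih.2 this
  have e1 : ∀ y, |(Kmat r ^ t) x y - wA r y / Z| = wA r y * |(Kmat r ^ t).mulVec F0 y| / Z := by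
    intro y
    have h2 := hA' y
    have : (Kmat r ^ t) x y - wA r y / Z = wA r y * (Z * (Kmat r ^ t) x y / wA r y - 1) / Z := by
      field_simp
    rw [hF, this, abs_div, abs_mul, abs_of_pos h2, abs_of_pos Z0]
  simp only [e1]
  rw [← sum_div]
  set G := (Kmat r ^ t).mulVec F0
  have cs : (∑ y, wA r y * |G y|) ^ 2 ≤ Z * ∑ y, wA r y * G y ^ 2 := by
    have := sum_mul_sq_le_sq_mul_sq univ (fun y => √(wA r y)) (fun y => √(wA r y) * |G y|)
    simp only [← mul_assoc, mul_pow, Real.mul_self_sqrt (hA' _).le, Real.sq_sqrt (hA' _).le,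
      sq_abs] at this
    exact this
  have hb : (1 - 1 / Λ) ^ t ≤ Real.exp (-(t / Λ)) := by
    have : 0 ≤ 1 - 1 / Λ := by
      rw [sub_nonneg, div_le_one (by linarith)]; exact hΛ
    calc _ ≤ Real.exp (-(1 / Λ)) ^ t := by
          gcongr
          linarith [Real.add_one_le_exp (-(1 / Λ))]
      _ = _ := by rw [← Real.exp_nat_mul]; congr 1; ring
  have hc : (1 - 1 / Λ) ^ t * (Z / (4 * ε ^ 2)) ≤ 1 := by
    calc _ ≤ Real.exp (-(t / Λ)) * Real.exp (t / Λ) :=
          mul_le_mul hb ht (by positivity) (Real.exp_pos _).le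
      _ = 1 := by rw [← Real.exp_add]; simp
  have h3 : (∑ y, wA r y * |G y|) ^ 2 ≤ (2 * ε * Z) ^ 2 := by
    have := mul_le_mul_of_nonneg_left (hiter t).2 Z0.le
    have h4 : Z * ((1 - 1 / Λ) ^ t * Z ^ 2) =
        ((1 - 1 / Λ) ^ t * (Z / (4 * ε ^ 2))) * (2 * ε * Z) ^ 2 := by field_simp; ring
    have h5 : ((1 - 1 / Λ) ^ t * (Z / (4 * ε ^ 2))) * (2 * ε * Z) ^ 2 ≤ 1 * (2 * ε * Z) ^ 2 :=
      mul_le_mul_of_nonneg_right hc (by positivity)
    linarith
  have h4 : ∑ y, wA r y * |G y| ≤ 2 * ε * Z :=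
    (pow_le_pow_iff_left₀ (sum_nonneg fun y _ => mul_nonneg (hA' y).le (abs_nonneg _))
      (by positivity) (by norm_num)).1 h3
  have : (∑ y, wA r y * |G y|) / Z ≤ 2 * ε := by rw [div_le_iff₀ Z0]; linarith
  linarith

end Abstract

end Pool.Agent.Lib.MP_449609_pr
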