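import Pool.Agent.Lib.MP_449609_pr.Switch

set_option autoImplicit false
set_option linter.unusedSectionVars false

open Finset Equiv
open Classical

namespace Pool.Agent.Lib.MP_449609_pr

variable {V : Type} [Fintype V] [DecidableEq V]

/-- points on long cycles -/
noncomputable def long (L : ℕ) (g : Perm V) : Finset V := univ.filter fun x => L ≤ per g x

theorem mem_long {L : ℕ} {g : Perm V} {x : V} : x ∈ long L g ↔ L ≤ per g x := by simp [long]

noncomputable def fixS (d L M : ℕ) (g : Perm V) : Finset (SimpleGraph V) :=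
  (fixs d g).filter fun X => M ≤ (good X g).card + (long L g).card

theorem mem_fixS {d L M : ℕ} {g : Perm V} {X : SimpleGraph V} : X ∈ fixS d L M g ↔
    X ∈ fixs d g ∧ M ≤ (good X g).card + (long L g).card := by simp only [fixS, mem_filter]

theorem fixS_up {d L M : ℕ} {g : Perm V} {X Y : SimpleGraph V} (hX : X ∈ fixS d L M g)
    (hY : Y ∈ fixs d g) (h : good X g ⊆ good Y g) : Y ∈ fixS d L M g := by
  rw [mem_fixS] at *
  have := card_le_card h
  exact ⟨hY, by omega⟩

/-- the path along the cycle starting at `v` -/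
noncomputable def path (g : Perm V) (v : V) : SimpleGraph V := arcs g ((cyc g v).erase (g⁻¹ v))

theorem path_inside (g : Perm V) (v : V) : Inside (path g v) (cyc g v) :=
  arcs_inside (erase_subset _ _)

noncomputable def pathSet (d L M : ℕ) (g : Perm V) (v : V) : Finset (SimpleGraph V) :=
  (fixS d L M (off g v)).filter fun Y => path g v ≤ Y

theorem good_base {X : SimpleGraph V} {g : Perm V} {v : V} (hv : g v ≠ v) :
    (good X g).card + per g v ≤ (good (cut X (cyc g v) ⊔ path g v) (off g v)).card := by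
  have hd : Disjoint (good X g) (cyc g v) := disjoint_left.2 fun x hx hx' =>
    not_fixed_of_mem hv hx' (mem_good.1 hx).1
  rw [← card_cyc, ← card_union_of_disjoint hd]
  refine card_le_card fun x hx => mem_good.2 ?_
  rcases mem_union.1 hx with hx | hx
  · obtain ⟨h1, y, h2, h3⟩ := mem_good.1 hx
    exact ⟨off_fixed_of_fixed h1, y, Or.inl ⟨h2, fun h => not_fixed_of_mem hv h h1,
      fun h => not_fixed_of_mem hv h h3⟩, off_fixed_of_fixed h3⟩
  · refine ⟨off_of_mem hx, ?_⟩
    have hx' := not_fixed_of_mem hv hx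
    by_cases hw : x = g⁻¹ v
    · have h1 : g⁻¹ x ≠ x := fun h => hx' (by conv_lhs => rw [← h]; simp)
      refine ⟨g⁻¹ x, Or.inr (arcs_adj.2 ⟨h1.symm, Or.inr ⟨mem_erase.2 ⟨hw ▸ h1, ?_⟩, by simp⟩⟩),
        off_of_mem ?_⟩ <;> exact inv_apply_mem_cyc.2 hx
    · exact ⟨g x, Or.inr (arcs_adj.2 ⟨hx'.symm, Or.inl ⟨mem_erase.2 ⟨hw, hx⟩, rfl⟩⟩),
        off_of_mem (apply_mem_cyc.2 hx)⟩

theorem long_off (L : ℕ) (g : Perm V) (v : V) :
    (long L g).card ≤ (long L (off g v)).card + per g v := by
  rw [← card_cyc]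
  refine le_trans (card_le_card fun x hx => ?_) (card_union_le _ _)
  by_cases h : x ∈ cyc g v
  · exact mem_union_right _ h
  · exact mem_union_left _ (mem_long.2 (by rw [per_off_of_not_mem h]; exact mem_long.1 hx))

theorem cut_sup_arcs_mem {d : ℕ} (hd : 2 ≤ d) {X : SimpleGraph V} {g : Perm V} {v : V}
    (hX : X ∈ fixs d g) {A : Finset V} (hA : A ⊆ cyc g v) :
    cut X (cyc g v) ⊔ arcs g A ∈ fixs d (off g v) := by
  rw [mem_fixs] at *
  exact ⟨deg_cut_sup (arcs_inside hA) hX.1 fun x => (card_nb_arcs _ _ _).trans hd,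
    (isAut_cut_off hX.2 v).sup (arcs_inside hA).isAut_off⟩

theorem base_mem {d L M : ℕ} (hd : 2 ≤ d) {X : SimpleGraph V} {g : Perm V} {v : V} (hv : g v ≠ v)
    (hX : X ∈ fixS d L M g) : cut X (cyc g v) ⊔ path g v ∈ pathSet d L M g v := by
  rw [mem_fixS] at hX
  refine mem_filter.2 ⟨mem_fixS.2 ⟨cut_sup_arcs_mem hd hX.1 (erase_subset _ _), ?_⟩, le_sup_right⟩
  have := good_base (X := X) hv
  have := long_off L g v
  omega

theorem orb_levels {g : Perm V} {d L m J : ℕ} (hd : 3 ≤ d) (hL : 0 < L)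
    (B : Finset (SimpleGraph V)) (S : Finset V) (hSL : ∀ x ∈ S, per g x ≤ L)
    (hB : B ⊆ fixs d g) (hup : ∀ X ∈ B, ∀ Y ∈ fixs d g, X ≤ Y → Y ∈ B)
    (hm : L * m + 2 * L * J ≤ S.card) :
    (B.filter fun X => ∀ x ∈ S, (nb X x).card ≤ 2).card * (m * (m - L - d)) ^ J ≤
      B.card * (d * S.card) ^ J := by
  let Lev : ℕ → Finset (SimpleGraph V) := fun j =>
    B.filter fun X => (S.filter fun x => ¬ (nb X x).card ≤ 2).card ≤ 2 * L * j
  have h0 : (B.filter fun X => ∀ x ∈ S, (nb X x).card ≤ 2) ⊆ Lev 0 := by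
    intro X hX
    rw [mem_filter] at hX ⊢
    refine ⟨hX.1, ?_⟩
    rw [filter_eq_empty_iff.2 fun x hx => not_not.2 (hX.2 x hx)]
    simp
  have h1 := levels (fun j => (Lev j).card) (m * (m - L - d)) (d * S.card) J fun j hj => by
    refine orb_count (g := g) (Lev j) (Lev (j + 1)) S
      (fun X => orbPairs g X (S.filter fun x => (nb X x).card ≤ 2)) _
      (fun X hX => (mem_fixs.1 (hB (mem_filter.1 hX).1)).2) (fun X hX => ?_) (fun X hX p hp => ?_)
      fun Y hY => (mem_fixs.1 (hB (mem_filter.1 hY).1)).1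
    · rw [mem_filter] at hX
      refine card_orbPairs (mem_fixs.1 (hB hX.1)).1 _ hL
        (fun x hx => hSL x (mem_filter.1 hx).1) ?_
      have e := card_filter_add_card_filter_not (s := S) fun x => (nb X x).card ≤ 2
      have : 2 * L * j ≤ 2 * L * J := by gcongr
      omega
    · rw [mem_filter] at hX
      simp only [orbPairs, mem_filter, mem_product] at hp
      obtain ⟨⟨⟨a1, a2⟩, b1, b2⟩, ok⟩ := hp
      have hY := deg_sup_orb (hB hX.1) ok (by omega) (by omega)
      refine ⟨ok, a1, mem_filter.2 ⟨hup X hX.1 _ hY le_sup_left, ?_⟩⟩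
      have : (S.filter fun x => ¬ (nb (X ⊔ orb g p.1 p.2) x).card ≤ 2) ⊆
          (S.filter fun x => ¬ (nb X x).card ≤ 2) ∪ (cyc g p.1 ∪ cyc g p.2) := by
        intro x hx
        by_cases h : x ∈ cyc g p.1 ∪ cyc g p.2
        · exact mem_union_right _ h
        · rw [mem_filter, nb_sup_orb_of_not_mem h] at hx
          exact mem_union_left _ (mem_filter.2 hx)
      have h2 := (card_le_card this).trans (card_union_le _ _)
      have h3 := card_union_le (cyc g p.1) (cyc g p.2)
      rw [card_cyc, card_cyc] at h3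
      have := hSL _ a1
      have := hSL _ b1
      have : 2 * L * (j + 1) = 2 * L * j + 2 * L := by ring
      omega
  calc _ ≤ (Lev 0).card * (m * (m - L - d)) ^ J := by gcongr
    _ ≤ (Lev J).card * (d * S.card) ^ J := h1
    _ ≤ _ := by gcongr; exact filter_subset _ _

theorem moveB {d L M m J : ℕ} (hd : 3 ≤ d) {g : Perm V} {v : V} (hv : g v ≠ v)
    (hm : m + 2 * J ≤ per g v) :
    (fixS d L M g).card * (m * (m - 1 - d)) ^ J ≤
      (Fintype.card V + 1) ^ d * (pathSet d L M g v).card * (d * per g v) ^ J := by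
  have h1 := orb_levels (g := off g v) (d := d) (L := 1) (m := m) (J := J) hd one_pos
    (pathSet d L M g v) (cyc g v) (fun x hx => (per_eq_one_iff.2 (off_of_mem hx)).le)
    (fun X hX => (mem_fixS.1 (mem_filter.1 hX).1).1)
    (fun X hX Y hY h => mem_filter.2 ⟨fixS_up (mem_filter.1 hX).1 hY (good_mono h _),
      (mem_filter.1 hX).2.trans h⟩) (by rw [card_cyc]; omega)
  have h2 := card_le_cut (d := d) (E := Fintype.card V) (fixS d L M g)
    ((pathSet d L M g v).filter fun X => ∀ x ∈ cyc g v, (nb X x).card ≤ 2) (path_inside g v)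
    (filter_subset _ _) (fun X hX => mem_filter.2 ⟨base_mem (by omega) hv hX, fun x hx => by
      rw [nb_cut_sup_of_mem hx]; exact card_nb_arcs _ _ _⟩) (fun _ => univ)
    (fun _ _ => subset_univ _) (fun _ _ => card_univ.le)
  rw [card_cyc] at h1
  calc _ ≤ _ := Nat.mul_le_mul_right _ h2
    _ ≤ _ := by rw [mul_assoc, mul_assoc]; gcongr

theorem clean1 {d L M m : ℕ} (hL : 0 < L) {g : Perm V} (hg : ∀ x, per g x ≤ L) :
    ((fixS d L M g).filter fun X =>
      L * m ≤ (g.support.filter fun x => (nb X x).card < d).card).card * (m * (m - L - d)) ≤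
      (fixS d L M g).card * (d * g.support.card) := by
  refine orb_count (g := g) _ _ g.support
    (fun X => orbPairs g X (g.support.filter fun x => (nb X x).card < d)) _
    (fun X hX => (mem_fixs.1 (mem_fixS.1 (mem_filter.1 hX).1).1).2) (fun X hX => ?_)
    (fun X hX p hp => ?_) fun Y hY => (mem_fixs.1 (mem_fixS.1 hY).1).1
  · rw [mem_filter] at hX
    exact card_orbPairs (mem_fixs.1 (mem_fixS.1 hX.1).1).1 _ hL (fun x _ => hg x) hX.2
  · rw [mem_filter] at hX
    simp only [orbPairs, mem_filter, mem_product] at hp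
    obtain ⟨⟨⟨a1, a2⟩, b1, b2⟩, ok⟩ := hp
    exact ⟨ok, a1, fixS_up hX.1 (deg_sup_orb (mem_fixS.1 hX.1).1 ok a2 b2)
      (good_mono le_sup_left _)⟩

theorem clean2 {d L M T : ℕ} {g : Perm V} (hg : long L g = ∅) :
    ((fixS d L M g).filter fun X =>
      T ≤ (univ.filter fun x => g x = x ∧ (nb X x).card + 2 ≤ d).card).card *
        (T * (M - (d + 1) ^ 2)) ≤ (fixS d L M g).card * (Fintype.card V * d ^ 2) := by
  refine dcount _ _ (fun X => (univ.filter fun x => g x = x ∧ (nb X x).card + 2 ≤ d).sigma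
      fun w => swPairs g X {w} w w) (fun X p => sw X p.1 p.1 p.2.1 p.2.2)
    (fun Y => univ.sigma fun w => nb Y w ×ˢ nb Y w) _ _ (fun X hX => ?_) (fun X hX p hp => ?_)
    (fun Y hY => ?_) (fun X hX p hp => ?_) fun X hX X' hX' p hp hp' h => ?_
  · rw [mem_filter, mem_fixS, hg, mem_fixs] at hX
    rw [card_sigma]
    refine le_trans ?_ (card_nsmul_le_sum _ _ (M - (d + 1) ^ 2) fun w _ => ?_)
    · rw [smul_eq_mul]; gcongr; exact hX.2
    · have := card_swPairs (g := g) hX.1.1.1 (mem_singleton_self w) (mem_singleton_self w)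
      have h2 := hX.1.2
      simp only [card_singleton, mul_one, card_empty, add_zero] at this h2
      omega
  · rw [mem_filter] at hX
    simp only [mem_sigma, mem_filter, mem_univ, true_and, mem_swPairs] at hp
    obtain ⟨⟨a1, a2⟩, ok⟩ := hp
    have hf := mem_fixs.1 (mem_fixS.1 hX.1).1
    refine fixS_up hX.1 (mem_fixs.2 ⟨fun u => ?_, isAut_sw hf.2 a1 a1 ok.1 ok.2.1⟩)
      (good_sw ok (mem_singleton_self _) (mem_singleton_self _) a1 a1)
    have := card_nb_sw ok (mem_singleton_self _) (mem_singleton_self _) u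
    have := hf.1 u
    split_ifs at * with h
    · subst h; omega
    · omega
  · rw [card_sigma]
    refine (sum_le_card_nsmul _ _ (d ^ 2) fun w _ => ?_).trans (by simp)
    have := (mem_fixs.1 (mem_fixS.1 hY).1).1 w
    rw [card_product, sq]
    gcongr
  · simp only [mem_sigma, mem_filter, mem_univ, true_and, mem_swPairs] at hp
    simp only [mem_sigma, mem_univ, true_and, mem_product, mem_nb]
    exact ⟨sw_adj_ax hp.2 (mem_singleton_self _), sw_adj_by hp.2 (mem_singleton_self _)⟩
  · simp only [mem_sigma, mem_swPairs] at hp hp'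
    exact sw_inj hp.2 hp'.2 h

theorem nb_path_self (g : Perm V) (v : V) : (nb (path g v) v).card ≤ 1 := by
  refine (card_le_card (t := {g v}) fun y hy => ?_).trans (by simp)
  rcases (arcs_adj.1 (mem_nb.1 hy)).2 with h | h
  · simp [h.2]
  · exact absurd (by rw [h.2]; simp) (mem_erase.1 h.1).1

theorem nb_path_last (g : Perm V) (v : V) : (nb (path g v) (g⁻¹ v)).card ≤ 1 := by
  refine (card_le_card (t := {g⁻¹ (g⁻¹ v)}) fun y hy => ?_).trans (by simp)
  rcases (arcs_adj.1 (mem_nb.1 hy)).2 with h | h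
  · exact absurd rfl (mem_erase.1 h.1).1
  · simp [h.2]

theorem sw_levels {d L M : ℕ} {g : Perm V} {v : V} (hv : g v ≠ v) (hL : per g v ≤ L) :
    ((pathSet d L M g v).filter fun Y => M ≤ (good Y (off g v)).card ∧ (nb Y v).card ≤ 1 ∧
      (nb Y (g⁻¹ v)).card ≤ 1).card * (M - (d + 1) ^ 2 * L) ^ (d - 1) ≤
      (pathSet d L M g v).card * (d ^ 2) ^ (d - 1) := by
  let Lev : ℕ → Finset (SimpleGraph V) := fun j =>
    (pathSet d L M g v).filter fun Y => M ≤ (good Y (off g v)).card ∧ (nb Y v).card ≤ j + 1 ∧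
      (nb Y (g⁻¹ v)).card ≤ j + 1
  have ha := self_mem_cyc g v
  have hb : g⁻¹ v ∈ cyc g v := inv_apply_mem_cyc.2 ha
  have hab : v ≠ g⁻¹ v := fun h => hv (by conv_lhs => rw [h]; simp)
  have h1 := levels (fun j => (Lev j).card) (M - (d + 1) ^ 2 * L) (d ^ 2) (d - 1) fun j hj => by
    refine dcount _ _ (fun X => swPairs (off g v) X (cyc g v) v (g⁻¹ v))
      (fun X p => sw X v (g⁻¹ v) p.1 p.2) (fun Y => nb Y v ×ˢ nb Y (g⁻¹ v)) _ _
      (fun X hX => ?_) (fun X hX p hp => ?_) (fun Y hY => ?_) (fun X hX p hp => ?_)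
      fun X hX X' hX' p hp hp' h => ?_
    · rw [mem_filter] at hX
      have := card_swPairs (g := off g v)
        (mem_fixs.1 (mem_fixS.1 (mem_filter.1 hX.1).1).1).1 ha hb
      rw [card_cyc] at this
      have h2 : (d + 1) ^ 2 * per g v ≤ (d + 1) ^ 2 * L := by gcongr
      omega
    · rw [mem_filter] at hX
      have ok := mem_swPairs.1 hp
      obtain ⟨hX1, hX2, hX3, hX4⟩ := hX
      rw [pathSet, mem_filter] at hX1
      have hf := mem_fixs.1 (mem_fixS.1 hX1.1).1
      have hg := good_sw ok ha hb (off_of_mem ha) (off_of_mem hb)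
      have c1 := card_nb_sw ok ha hb v
      have c2 := card_nb_sw ok ha hb (g⁻¹ v)
      simp only [hab, hab.symm, if_true, if_false] at c1 c2
      refine mem_filter.2 ⟨mem_filter.2 ⟨fixS_up hX1.1 (mem_fixs.2 ⟨fun u => ?_,
        isAut_sw hf.2 (off_of_mem ha) (off_of_mem hb) ok.1 ok.2.1⟩) hg,
        le_sw ok (path_inside g v) hX1.2⟩, hX2.trans (card_le_card hg), by omega, by omega⟩
      by_cases u1 : u = v
      · subst u1; omega
      by_cases u2 : u = g⁻¹ v
      · subst u2; omega
      have := card_nb_sw ok ha hb u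
      simp only [u1, u2, if_false] at this
      exact this.trans (hf.1 u)
    · have := (mem_fixs.1 (mem_fixS.1 (mem_filter.1 (mem_filter.1 hY).1).1).1).1
      rw [card_product, sq]
      exact Nat.mul_le_mul (this _) (this _)
    · have ok := mem_swPairs.1 hp
      exact mem_product.2 ⟨mem_nb.2 (sw_adj_ax ok ha), mem_nb.2 (sw_adj_by ok hb)⟩
    · exact sw_inj (mem_swPairs.1 hp) (mem_swPairs.1 hp') h
  calc _ ≤ (Lev (d - 1)).card * (d ^ 2) ^ (d - 1) := h1
    _ ≤ _ := by gcongr; exact filter_subset _ _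

theorem move3 {d L M m T : ℕ} (hd : 3 ≤ d) {g : Perm V} {v : V} (hv : g v ≠ v)
    (hg : long L g = ∅) (hm : 4 * (d * g.support.card) ≤ m * (m - L - d))
    (hT : 4 * (Fintype.card V * d ^ 2) ≤ T * (M - (d + 1) ^ 2)) :
    (fixS d L M g).card * (M - (d + 1) ^ 2 * L) ^ (d - 1) ≤
      2 * ((d + 1) * L + L * m + T + 1) ^ d * (pathSet d L M g v).card * (d ^ 2) ^ (d - 1) := by
  have hper : ∀ x, per g x ≤ L := fun x => by
    have : x ∉ long L g := by simp [hg]
    rw [mem_long] at this
    omega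
  have hL : 0 < L := (per_pos g v).trans_le (hper v)
  have hs : 0 < g.support.card := card_pos.2 ⟨v, by simpa using hv⟩
  have hn : 0 < Fintype.card V := Fintype.card_pos_iff.2 ⟨v⟩
  set F := fixS d L M g with hF
  set p1 : SimpleGraph V → Prop := fun X =>
    L * m ≤ (g.support.filter fun x => (nb X x).card < d).card with hp1
  set p2 : SimpleGraph V → Prop := fun X =>
    T ≤ (univ.filter fun x => g x = x ∧ (nb X x).card + 2 ≤ d).card with hp2
  have b1 : 4 * (F.filter p1).card ≤ F.card := by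
    have := clean1 (d := d) (M := M) (m := m) hL hper
    refine Nat.le_of_mul_le_mul_right ?_ (show 0 < d * g.support.card by positivity)
    calc _ = (F.filter p1).card * (4 * (d * g.support.card)) := by ring
      _ ≤ _ := le_trans (by gcongr) this
  have b2 : 4 * (F.filter p2).card ≤ F.card := by
    have := clean2 (d := d) (M := M) (T := T) hg
    refine Nat.le_of_mul_le_mul_right ?_ (show 0 < Fintype.card V * d ^ 2 by positivity)
    calc _ = (F.filter p2).card * (4 * (Fintype.card V * d ^ 2)) := by ring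
      _ ≤ _ := le_trans (by gcongr) this
  have b3 : F.card ≤ 2 * (F.filter fun X => ¬ p1 X ∧ ¬ p2 X).card := by
    have : F ⊆ F.filter p1 ∪ F.filter p2 ∪ F.filter fun X => ¬ p1 X ∧ ¬ p2 X := by
      intro X hX
      simp only [mem_union, mem_filter, hX, true_and]
      tauto
    have h1 := (card_le_card this).trans (card_union_le _ _)
    have h2 := card_union_le (F.filter p1) (F.filter p2)
    omega
  have b4 := card_le_cut (d := d) (E := (d + 1) * L + L * m + T)
    (F.filter fun X => ¬ p1 X ∧ ¬ p2 X)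
    ((pathSet d L M g v).filter fun Y => M ≤ (good Y (off g v)).card ∧ (nb Y v).card ≤ 1 ∧
      (nb Y (g⁻¹ v)).card ≤ 1) (path_inside g v)
    ((filter_subset _ _).trans (filter_subset _ _)) (fun X hX => ?_)
    (fun Y => cyc g v ∪ (g.support.filter fun x => (nb Y x).card < d) ∪
      univ.filter fun x => g x = x ∧ (nb Y x).card + 2 ≤ d) (fun X hX u hu => ?_) fun X hX => ?_
  · calc _ ≤ 2 * (((d + 1) * L + L * m + T + 1) ^ d * _) * (M - (d + 1) ^ 2 * L) ^ (d - 1) :=
          Nat.mul_le_mul_right _ (b3.trans (Nat.mul_le_mul_left _ b4))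
      _ ≤ _ := by
          rw [mul_assoc, mul_assoc, mul_assoc, mul_assoc]
          exact Nat.mul_le_mul_left _ (Nat.mul_le_mul_left _ (sw_levels hv (hper v)))
  · have hX' := (mem_filter.1 hX).1
    refine mem_filter.2 ⟨base_mem (by omega) hv hX', ?_, ?_, ?_⟩
    · have := good_base (X := X) hv
      have h2 := (mem_fixS.1 hX').2
      rw [hg, card_empty] at h2
      omega
    · rw [nb_cut_sup_of_mem (self_mem_cyc g v)]; exact nb_path_self g v
    · rw [nb_cut_sup_of_mem (inv_apply_mem_cyc.2 (self_mem_cyc g v))]; exact nb_path_last g v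
  · have hf := mem_fixs.1 (mem_fixS.1 (mem_filter.1 hX).1).1
    have hu' := mem_nb.1 hu
    simp only [mem_union, mem_filter, Perm.mem_support, mem_univ, true_and]
    have hsub : nb (cut X (cyc g v)) u ⊆ (nb X u).erase v := fun y hy => by
      have := mem_nb.1 hy
      exact mem_erase.2 ⟨fun h => this.2.2 (h ▸ self_mem_cyc g v), mem_nb.2 this.1⟩
    have hvu : v ∈ nb X u := mem_nb.2 hu'.symm
    have hdu := hf.1 u
    have hpos := card_pos.2 ⟨v, hvu⟩
    by_cases hfix : g u = u
    · right
      refine ⟨hfix, ?_⟩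
      have hgv : g v ∈ (nb X u).erase v := mem_erase.2 ⟨hv, mem_nb.2 (by
        have := (hf.2 u v).2 hu'.symm
        rwa [hfix] at this)⟩
      have hsub' : nb (cut X (cyc g v)) u ⊆ ((nb X u).erase v).erase (g v) := fun y hy => by
        have := mem_nb.1 hy
        exact mem_erase.2 ⟨fun h => this.2.2 (h ▸ apply_mem_cyc.2 (self_mem_cyc g v)), hsub hy⟩
      have h1 := card_le_card hsub'
      have h2 := card_pos.2 ⟨_, hgv⟩
      rw [card_erase_of_mem hgv] at h1
      rw [card_erase_of_mem hvu] at h1 h2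
      omega
    · left; right
      have h1 := card_le_card hsub
      rw [card_erase_of_mem hvu] at h1
      exact ⟨hfix, by omega⟩
  · rw [mem_filter] at hX
    have hf := mem_fixs.1 (mem_fixS.1 hX.1).1
    have hnb : ∀ u, u ∉ ball X (cyc g v) → nb (cut X (cyc g v)) u = nb X u := by
      intro u hu
      rw [mem_ball, not_or] at hu
      ext y
      simp only [mem_nb, cut_adj, and_iff_left_iff_imp]
      exact fun h => ⟨hu.1, fun h' => hu.2 ⟨y, h', h.symm⟩⟩
    have : cyc g v ∪ (g.support.filter fun x => (nb (cut X (cyc g v)) x).card < d) ∪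
        (univ.filter fun x => g x = x ∧ (nb (cut X (cyc g v)) x).card + 2 ≤ d) ⊆
        ball X (cyc g v) ∪ (g.support.filter fun x => (nb X x).card < d) ∪
        (univ.filter fun x => g x = x ∧ (nb X x).card + 2 ≤ d) := by
      intro u hu
      by_cases hb : u ∈ ball X (cyc g v)
      · exact mem_union_left _ (mem_union_left _ hb)
      · simp only [mem_union, mem_filter, hnb u hb] at hu ⊢
        rcases hu with (h | h) | h
        · exact absurd (mem_ball.2 (Or.inl h)) hb
        · exact Or.inl (Or.inr h)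
        · exact Or.inr h
    have h1 := (card_le_card this).trans (card_union_le _ _)
    have h2 := card_union_le (ball X (cyc g v)) (g.support.filter fun x => (nb X x).card < d)
    have h3 := card_ball hf.1 (cyc g v)
    rw [card_cyc] at h3
    have h4 : (d + 1) * per g v ≤ (d + 1) * L := by gcongr; exact hper v
    have h5 := hX.2
    simp only [hp1, hp2, not_le] at h5
    omega

end Pool.Agent.Lib.MP_449609_pr
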