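import Pool.Agent.Lib.MP_449609_pr.Types

set_option autoImplicit false
set_option linter.unusedSectionVars false

open Finset Equiv
open Classical

namespace Pool.Agent.Lib.MP_449609_pr

variable {V : Type} [Fintype V] [DecidableEq V]

noncomputable def eps (d : ℕ) (f : SimpleGraph V → ℝ) (X : SimpleGraph V) : ℝ :=
  (∑ g ∈ auts X, aa d f (X, g)) / (auts X).card

theorem eps_nonneg (d : ℕ) (f : SimpleGraph V → ℝ) (X : SimpleGraph V) : 0 ≤ eps d f X :=
  div_nonneg (sum_nonneg fun _ _ => aa_nonneg _ _ _) (by positivity)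

noncomputable def EE (d : ℕ) (f : SimpleGraph V → ℝ) (X : SimpleGraph V) : ℝ :=
  ∑ σ, eps d f (act σ X)

theorem EE_nonneg (d : ℕ) (f : SimpleGraph V → ℝ) (X : SimpleGraph V) : 0 ≤ EE d f X :=
  sum_nonneg fun _ _ => eps_nonneg _ _ _

noncomputable def mu (f : SimpleGraph V → ℝ) (X : SimpleGraph V) : ℝ :=
  (∑ σ, f (act σ X)) / Fintype.card (Perm V)

theorem sum_act_act (φ : SimpleGraph V → ℝ) (τ : Perm V) (X : SimpleGraph V) :
    ∑ σ, φ (act σ (act τ X)) = ∑ σ, φ (act σ X) :=
  Equiv.sum_comp (Equiv.mulRight τ) fun σ => φ (act σ X)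

theorem EE_act (d : ℕ) (f : SimpleGraph V → ℝ) (τ : Perm V) (X : SimpleGraph V) :
    EE d f (act τ X) = EE d f X := sum_act_act _ _ _

theorem mu_act (f : SimpleGraph V → ℝ) (τ : Perm V) (X : SimpleGraph V) :
    mu f (act τ X) = mu f X := by unfold mu; rw [sum_act_act]

/-- same automorphisms after fixing two vertices -/
def Near (X Z : SimpleGraph V) : Prop :=
  ∃ u v, ∀ h : Perm V, h u = u → h v = v → (IsAut X h ↔ IsAut Z h)

theorem Near.act {X Z : SimpleGraph V} (h : Near X Z) (σ : Perm V) : Near (act σ X) (act σ Z) := by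
  obtain ⟨u, v, h⟩ := h
  refine ⟨σ u, σ v, fun g h1 h2 => ?_⟩
  rw [isAut_act, isAut_act]
  exact h _ (by simp [h1]) (by simp [h2])

theorem near_swap (X : SimpleGraph V) (a b : V) : Near (act (swap a b) X) X := by
  refine ⟨a, b, fun h h1 h2 => ?_⟩
  rw [isAut_act, swap_inv, mul_assoc, Equiv.mul_swap_eq_swap_mul, h1, h2, ← mul_assoc,
    swap_mul_self, one_mul]

theorem near_of_agree {X Z : SimpleGraph V} (u v : V)
    (h : ∀ x y, ¬ (x = u ∧ y = v) → ¬ (x = v ∧ y = u) → (X.Adj x y ↔ Z.Adj x y)) : Near X Z := by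
  have key : ∀ X Z : SimpleGraph V,
      (∀ x y, ¬ (x = u ∧ y = v) → ¬ (x = v ∧ y = u) → (X.Adj x y ↔ Z.Adj x y)) →
      ∀ g : Perm V, g u = u → g v = v → IsAut X g → IsAut Z g := by
    intro X Z h g h1 h2 hg x y
    by_cases c1 : x = u ∧ y = v
    · rw [c1.1, c1.2, h1, h2]
    by_cases c2 : x = v ∧ y = u
    · rw [c2.1, c2.2, h1, h2]
    rw [← h x y c1 c2, ← hg x y, h]
    · exact fun e => c1 ⟨g.injective (e.1.trans h1.symm), g.injective (e.2.trans h2.symm)⟩
    · exact fun e => c2 ⟨g.injective (e.1.trans h2.symm), g.injective (e.2.trans h1.symm)⟩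
  exact ⟨u, v, fun g h1 h2 => ⟨key X Z h g h1 h2,
    key Z X (fun x y a b => (h x y a b).symm) g h1 h2⟩⟩

theorem Near.bound {X Z : SimpleGraph V} (h : Near X Z) (d : ℕ) (f : SimpleGraph V → ℝ) :
    (f X - f Z) ^ 2 ≤ 2 * (Fintype.card V : ℝ) ^ 2 * (eps d f X + eps d f Z) := by
  obtain ⟨u, v, h⟩ := h
  set H := (auts X).filter fun g => g u = u ∧ g v = v with hH
  have e : H = (auts Z).filter fun g => g u = u ∧ g v = v := by
    ext g
    simp only [hH, mem_filter, mem_auts]
    exact and_congr_left fun c => h g c.1 c.2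
  have pos : (0 : ℝ) < H.card := by
    have : 1 ∈ H := mem_filter.2 ⟨mem_auts.2 (IsAut.one X), rfl, rfl⟩
    exact_mod_cast card_pos.2 ⟨1, this⟩
  have k : ∀ Y : SimpleGraph V, H = ((auts Y).filter fun g => g u = u ∧ g v = v) →
      ∑ g ∈ H, aa d f (Y, g) ≤ H.card * ((Fintype.card V : ℝ) ^ 2 * eps d f Y) := by
    intro Y e
    have h1 := card_auts_le Y u v univ fun _ _ => mem_univ _
    rw [← e, card_univ, Fintype.card_prod] at h1
    have h2 : ((auts Y).card : ℝ) ≤ H.card * (Fintype.card V : ℝ) ^ 2 := by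
      rw [sq]; exact_mod_cast h1
    have h3 : (0 : ℝ) < (auts Y).card := by exact_mod_cast card_auts_pos Y
    calc _ ≤ ∑ g ∈ auts Y, aa d f (Y, g) := by
          rw [e]
          exact sum_le_sum_of_subset_of_nonneg (filter_subset _ _) fun _ _ _ => aa_nonneg _ _ _
      _ = (auts Y).card * eps d f Y := by unfold eps; field_simp
      _ ≤ _ := by rw [← mul_assoc]; exact mul_le_mul_of_nonneg_right h2 (eps_nonneg _ _ _)
  have h4 : H.card * (f X - f Z) ^ 2 ≤ 2 * (∑ g ∈ H, aa d f (X, g) + ∑ g ∈ H, aa d f (Z, g)) := by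
    rw [← nsmul_eq_mul, ← sum_const, ← sum_add_distrib, mul_sum]
    refine sum_le_sum fun g _ => ?_
    simp only [aa]
    nlinarith [sq_nonneg (f X - mean d f g + (f Z - mean d f g))]
  refine le_of_mul_le_mul_left ?_ pos
  have := k X rfl
  have := k Z e
  linarith

theorem sq_avg_le {α : Type*} [Fintype α] [Nonempty α] (φ : α → ℝ) :
    Fintype.card α * ((∑ a, φ a) / Fintype.card α) ^ 2 ≤ ∑ a, φ a ^ 2 := by
  have pos : (0 : ℝ) < Fintype.card α := by exact_mod_cast Fintype.card_pos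
  have := sq_sum_le_card_mul_sum_sq (s := univ) (f := φ)
  rw [div_pow, ← mul_div_assoc, div_le_iff₀ (by positivity)]
  rw [card_univ] at this
  nlinarith [mul_le_mul_of_nonneg_left this pos.le]

theorem Near.mu_bound {X Z : SimpleGraph V} (h : Near X Z) (d : ℕ) (f : SimpleGraph V → ℝ) :
    Fintype.card (Perm V) * (mu f X - mu f Z) ^ 2 ≤
      2 * (Fintype.card V : ℝ) ^ 2 * (EE d f X + EE d f Z) := by
  unfold mu EE
  rw [← sub_div, ← sum_sub_distrib, ← sum_add_distrib, mul_sum]
  exact (sq_avg_le _).trans (sum_le_sum fun σ _ => (h.act σ).bound d f)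

theorem within (d : ℕ) (f : SimpleGraph V → ℝ) (X : SimpleGraph V) :
    ∑ σ, (f (act σ X) - mu f X) ^ 2 ≤
      4 * (Fintype.card V : ℝ) ^ 2 * (Fintype.card V + 1) ^ 2 * EE d f X := by
  set B := 4 * (Fintype.card V : ℝ) ^ 2 * EE d f X
  have B0 : 0 ≤ B := mul_nonneg (by positivity) (EE_nonneg _ _ _)
  have h1 : ∀ a b (π : Perm V), ∑ σ, (f (act (swap a b * π * σ) X) - f (act (π * σ) X)) ^ 2 ≤ B := by
    intro a b π
    refine (sum_le_sum fun σ _ => (near_swap (act (π * σ) X) a b).bound d f).trans ?_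
    rw [← mul_sum, sum_add_distrib]
    have e1 := Equiv.sum_comp (Equiv.mulLeft (swap a b * π)) fun σ => eps d f (act σ X)
    have e2 := Equiv.sum_comp (Equiv.mulLeft π) fun σ => eps d f (act σ X)
    simp only [coe_mulLeft, mul_assoc] at e1 e2
    simp only [← act_mul, e1, e2, B, EE]
    exact le_of_eq (by ring)
  have h2 : ∀ k : ℕ, ∀ π : Perm V, π.support.card ≤ k →
      ∑ σ, (f (act (π * σ) X) - f (act σ X)) ^ 2 ≤ (k + 1) ^ 2 * B := by
    intro k
    induction k with
    | zero =>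
      intro π hπ
      rw [Nat.le_zero, Perm.card_support_eq_zero] at hπ
      simpa [hπ] using B0
    | succ k ih =>
      intro π hπ
      by_cases h : π = 1
      · simp only [h, one_mul, sub_self]
        simp only [ne_eq, OfNat.ofNat_ne_zero, not_false_eq_true, zero_pow, sum_const_zero]
        positivity
      obtain ⟨x, hx⟩ : ∃ x, π x ≠ x := by
        by_contra! h'
        exact h (Equiv.ext h')
      have a1 := ih (swap x (π x) * π) (by have := Perm.card_support_swap_mul hx; omega)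
      have a2 := h1 x (π x) (swap x (π x) * π)
      rw [swap_mul_self_mul] at a2
      have k0 : (0 : ℝ) < k + 1 := by positivity
      refine le_of_mul_le_mul_left ?_ k0
      calc _ ≤ (k + 1) * (k + 2) * ∑ σ, (f (act (π * σ) X) - f (act (swap x (π x) * π * σ) X)) ^ 2 +
            (k + 2) * ∑ σ, (f (act (swap x (π x) * π * σ) X) - f (act σ X)) ^ 2 := by
            rw [mul_sum, mul_sum, mul_sum, ← sum_add_distrib]
            refine sum_le_sum fun σ _ => ?_
            nlinarith [sq_nonneg ((k + 1) * (f (act (π * σ) X) - f (act (swap x (π x) * π * σ) X)) -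
              (f (act (swap x (π x) * π * σ) X) - f (act σ X)))]
        _ ≤ (k + 1) * (k + 2) * B + (k + 2) * ((k + 1) ^ 2 * B) := by gcongr
        _ = _ := by push_cast; ring
  have pos : (0 : ℝ) < Fintype.card (Perm V) := by exact_mod_cast Fintype.card_pos
  refine le_of_mul_le_mul_left ?_ pos
  calc _ ≤ ∑ σ, ∑ π, (f (act (π * σ) X) - f (act σ X)) ^ 2 := by
        rw [mul_sum]
        refine sum_le_sum fun σ _ => le_trans (le_of_eq ?_) (sq_avg_le _)
        simp only [act_mul, sum_sub_distrib, sum_act_act, sum_const, card_univ, nsmul_eq_mul, mu]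
        field_simp
        ring
    _ ≤ ∑ _π : Perm V, (Fintype.card V + 1) ^ 2 * B := by
        rw [sum_comm]
        exact sum_le_sum fun π _ => h2 _ π (card_le_univ _)
    _ = _ := by simp only [sum_const, card_univ, nsmul_eq_mul, B]; ring

/-- delete the first `k` pairs -/
noncomputable def del (R : SimpleGraph V) (k : ℕ) : SimpleGraph V where
  Adj x y := R.Adj x y ∧ k ≤ Fintype.equivFin (V × V) (x, y) ∧ k ≤ Fintype.equivFin (V × V) (y, x)
  symm := ⟨fun _ _ h => ⟨h.1.symm, h.2.2, h.2.1⟩⟩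
  loopless := ⟨fun _ h => h.1.ne rfl⟩

theorem del_adj {R : SimpleGraph V} {k : ℕ} {x y : V} : (del R k).Adj x y ↔ R.Adj x y ∧
    k ≤ Fintype.equivFin (V × V) (x, y) ∧ k ≤ Fintype.equivFin (V × V) (y, x) := Iff.rfl

theorem nb_del (R : SimpleGraph V) (k : ℕ) (v : V) : nb (del R k) v ⊆ nb R v :=
  fun _ h => mem_nb.2 (mem_nb.1 h).1

theorem chain (d : ℕ) (f : SimpleGraph V → ℝ) (B R : SimpleGraph V) :
    Fintype.card (Perm V) * (mu f (B ⊔ R) - mu f B) ^ 2 ≤ 4 * (Fintype.card V : ℝ) ^ 4 *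
      ∑ k ∈ range (Fintype.card V ^ 2 + 1), EE d f (B ⊔ del R k) := by
  have hm : Fintype.card (V × V) = Fintype.card V ^ 2 := by simp [sq]
  set m := Fintype.card V ^ 2
  have e0 : del R 0 = R := by ext; simp [del_adj]
  have e1 : del R m = ⊥ := by
    ext x y
    have := (Fintype.equivFin (V × V) (x, y)).2
    simp only [del_adj, SimpleGraph.bot_adj, iff_false, not_and]
    omega
  have h1 : ∀ k < m, Near (B ⊔ del R k) (B ⊔ del R (k + 1)) := by
    intro k hk
    let p := (Fintype.equivFin (V × V)).symm ⟨k, hm ▸ hk⟩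
    have hp : ∀ q, (Fintype.equivFin (V × V) q : ℕ) = k → q = p := fun q e =>
      (Equiv.eq_symm_apply _).2 (Fin.ext e)
    refine near_of_agree p.1 p.2 fun x y c1 c2 => ?_
    have a1 : (Fintype.equivFin (V × V) (x, y) : ℕ) ≠ k := fun e => c1 (by simp [← hp _ e])
    have a2 : (Fintype.equivFin (V × V) (y, x) : ℕ) ≠ k := fun e => c2 (by simp [← hp _ e])
    simp only [SimpleGraph.sup_adj, del_adj]
    refine or_congr Iff.rfl (and_congr_right fun _ => ?_)
    omega
  have h2 := sum_range_sub' (fun k => mu f (B ⊔ del R k)) m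
  simp only [e0, e1, sup_bot_eq] at h2
  rw [← h2]
  have h3 := sq_sum_le_card_mul_sum_sq (s := range m)
    (f := fun k => mu f (B ⊔ del R k) - mu f (B ⊔ del R (k + 1)))
  have h4 := sum_le_sum fun k (hk : k ∈ range m) => (h1 k (mem_range.1 hk)).mu_bound d f
  rw [← mul_sum, ← mul_sum, sum_add_distrib] at h4
  have a1 := sum_range_succ (fun k => EE d f (B ⊔ del R k)) m
  have a2 := sum_range_succ' (fun k => EE d f (B ⊔ del R k)) m
  have a3 := EE_nonneg d f (B ⊔ del R m)
  have a4 := EE_nonneg d f (B ⊔ del R 0)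
  have hm' : ((range m).card : ℝ) = (Fintype.card V : ℝ) ^ 2 := by simp [m]
  rw [hm'] at h3
  calc _ ≤ Fintype.card (Perm V) * ((Fintype.card V : ℝ) ^ 2 * _) := by gcongr
    _ = (Fintype.card V : ℝ) ^ 2 * _ := mul_left_comm _ _ _
    _ ≤ (Fintype.card V : ℝ) ^ 2 * (2 * (Fintype.card V : ℝ) ^ 2 *
        (2 * ∑ k ∈ range (m + 1), EE d f (B ⊔ del R k))) := by
        refine mul_le_mul_of_nonneg_left (h4.trans ?_) (by positivity)
        gcongr
        linarith
    _ = _ := by ring

end Pool.Agent.Lib.MP_449609_pr
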