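import Pool.Agent.Lib.MP_449609_pr.Entry

set_option autoImplicit false
set_option linter.unusedSectionVars false

open Finset Equiv
open Classical

namespace Pool.Agent.Lib.MP_449609_pr

variable {V : Type} [Fintype V] [DecidableEq V]

/-- orbit under a subgroup -/
noncomputable def sorb (H : Subgroup (Perm V)) (u : V) : Finset V :=
  univ.filter fun v => ∃ h ∈ H, h u = v

theorem mem_sorb {H : Subgroup (Perm V)} {u v : V} : v ∈ sorb H u ↔ ∃ h ∈ H, h u = v := by
  simp [sorb]

theorem self_mem_sorb (H : Subgroup (Perm V)) (u : V) : u ∈ sorb H u :=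
  mem_sorb.2 ⟨1, H.one_mem, rfl⟩

theorem card_sorb_pos (H : Subgroup (Perm V)) (u : V) : 0 < (sorb H u).card :=
  card_pos.2 ⟨u, self_mem_sorb H u⟩

theorem sorb_mono {H K : Subgroup (Perm V)} (h : H ≤ K) (u : V) : sorb H u ⊆ sorb K u :=
  fun _ hv => by
    obtain ⟨a, ha, e⟩ := mem_sorb.1 hv
    exact mem_sorb.2 ⟨a, h ha, e⟩

theorem sorb_eq_of_mem {H : Subgroup (Perm V)} {u v : V} (h : v ∈ sorb H u) :
    sorb H v = sorb H u := by
  obtain ⟨g, hg, rfl⟩ := mem_sorb.1 h
  ext w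
  simp only [mem_sorb]
  exact ⟨fun ⟨a, ha, e⟩ => ⟨a * g, H.mul_mem ha hg, e⟩,
    fun ⟨a, ha, e⟩ => ⟨a * g⁻¹, H.mul_mem ha (H.inv_mem hg), by simpa using e⟩⟩

theorem image_sorb {H : Subgroup (Perm V)} {k : Perm V} (hk : k ∈ H) (u : V) :
    (sorb H u).image k = sorb H u := by
  ext w
  simp only [mem_image, mem_sorb]
  exact ⟨fun ⟨_, ⟨a, ha, e⟩, e'⟩ => ⟨k * a, H.mul_mem hk ha, by rw [← e', ← e]; rfl⟩,
    fun ⟨a, ha, e⟩ => ⟨_, ⟨k⁻¹ * a, H.mul_mem (H.inv_mem hk) ha, rfl⟩, by simpa using e⟩⟩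

/-- point stabiliser inside a subgroup -/
def st (H : Subgroup (Perm V)) (u : V) : Subgroup (Perm V) := H ⊓ MulAction.stabilizer (Perm V) u

theorem mem_st {H : Subgroup (Perm V)} {u : V} {h : Perm V} : h ∈ st H u ↔ h ∈ H ∧ h u = u :=
  Iff.rfl

theorem card_sub (H : Subgroup (Perm V)) : (univ.filter (· ∈ H)).card = Nat.card H := by
  rw [Nat.card_eq_fintype_card, Fintype.card_subtype]

theorem card_fib {H : Subgroup (Perm V)} {u v : V} (h : v ∈ sorb H u) :
    ((univ.filter (· ∈ H)).filter fun h => h u = v).card = Nat.card (st H u) := by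
  obtain ⟨g, hg, rfl⟩ := mem_sorb.1 h
  rw [← card_sub]
  refine card_bij (fun a _ => g⁻¹ * a) (fun a ha => ?_) (fun _ _ _ _ h => mul_left_cancel h)
    fun b hb => ⟨g * b, ?_, by simp⟩
  · simp only [mem_filter, mem_univ, true_and, mem_st] at ha ⊢
    exact ⟨H.mul_mem (H.inv_mem hg) ha.1, by simp [ha.2]⟩
  · simp only [mem_filter, mem_univ, true_and, mem_st] at hb ⊢
    exact ⟨H.mul_mem hg hb.1, by simp [hb.2]⟩

theorem card_sorb_mul (H : Subgroup (Perm V)) (u : V) :
    (sorb H u).card * Nat.card (st H u) = Nat.card H := by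
  rw [← card_sub H, card_eq_sum_card_fiberwise (s := univ.filter (· ∈ H)) (t := sorb H u)
    (f := fun h => h u) fun h hh => mem_coe.2 (mem_sorb.2 ⟨h, (mem_filter.1 hh).2, rfl⟩),
    sum_congr rfl fun v hv => card_fib hv]
  simp

theorem card_sorb_pow {p : ℕ} [hp : Fact p.Prime] {H : Subgroup (Perm V)} (hH : IsPGroup p H)
    (u : V) : ∃ e, (sorb H u).card = p ^ e := by
  obtain ⟨n, hn⟩ := IsPGroup.iff_card.1 hH
  obtain ⟨e, _, he⟩ := (Nat.dvd_prime_pow hp.out).1 (hn ▸ Dvd.intro _ (card_sorb_mul H u))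
  exact ⟨e, he⟩

theorem sylow_orbit (p : ℕ) [hp : Fact p.Prime] (G : Subgroup (Perm V)) :
    ∃ P ≤ G, IsPGroup p P ∧ ∀ u e, p ^ e ∣ (sorb G u).card → p ^ e ∣ (sorb P u).card := by
  obtain ⟨Q⟩ : Nonempty (Sylow p G) := inferInstance
  refine ⟨(Q : Subgroup G).map G.subtype, Subgroup.map_subtype_le _, Q.isPGroup'.map _,
    fun u e he => ?_⟩
  set P := (Q : Subgroup G).map G.subtype
  have h1 : Nat.card P = Nat.card Q := Subgroup.card_map_of_injective G.subtype_injective
  have h2 := (Q : Subgroup G).card_mul_index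
  obtain ⟨t, ht⟩ : Nat.card (st P u) ∣ Nat.card (st G u) :=
    Subgroup.card_dvd_of_le (inf_le_inf_right _ (Subgroup.map_subtype_le _))
  have h3 := card_sorb_mul G u
  have h4 := card_sorb_mul P u
  have h5 : (sorb G u).card * t = (sorb P u).card * (Q : Subgroup G).index := by
    refine Nat.eq_of_mul_eq_mul_right (Nat.card_pos (α := st P u)) ?_
    calc _ = (sorb G u).card * Nat.card (st G u) := by rw [ht]; ring
      _ = Nat.card P * (Q : Subgroup G).index := by rw [h3, ← h2, h1]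
      _ = _ := by rw [← h4]; ring
  refine Nat.Coprime.dvd_of_dvd_mul_right ?_ (h5 ▸ he.mul_right t)
  exact Nat.Coprime.pow_left _ ((Nat.Prime.coprime_iff_not_dvd hp.out).2 Q.not_dvd_index)

theorem conj_into (p : ℕ) [hp : Fact p.Prime] (A : Subgroup (Perm V)) :
    ∃ S ≤ A, IsPGroup p S ∧ ∀ P ≤ A, IsPGroup p P → ∃ a ∈ A, ∀ h ∈ P, a * h * a⁻¹ ∈ S := by
  obtain ⟨Q⟩ : Nonempty (Sylow p A) := inferInstance
  refine ⟨(Q : Subgroup A).map A.subtype, Subgroup.map_subtype_le _, Q.isPGroup'.map _,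
    fun P hP hp => ?_⟩
  obtain ⟨Q', hQ'⟩ := (hp.comap_subtype (K := A)).exists_le_sylow
  obtain ⟨a, rfl⟩ := MulAction.exists_smul_eq A Q' Q
  refine ⟨a, a.2, fun h hh => ⟨a * ⟨h, hP hh⟩ * a⁻¹, ?_, rfl⟩⟩
  have : (⟨h, hP hh⟩ : A) ∈ (Q' : Subgroup A) := hQ' hh
  exact Subgroup.smul_mem_pointwise_smul _ (MulAut.conj a) _ this

theorem exists_mid {p : ℕ} [hp : Fact p.Prime] {S : Subgroup (Perm V)} (hS : IsPGroup p S)
    (i : ℕ) (a : V) : ∃ K, st S a ≤ K ∧ K ≤ S ∧ (sorb K a).card ≤ p ^ i ∧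
      (p ^ i ≤ (sorb S a).card → p ^ i ≤ (sorb K a).card) := by
  obtain ⟨e, he⟩ := card_sorb_pow hS a
  rcases le_total e i with h | h
  · exact ⟨S, inf_le_left, le_rfl, he ▸ Nat.pow_le_pow_right hp.out.pos h, id⟩
  obtain ⟨t, ht⟩ := IsPGroup.iff_card.1 (hS.to_le (H := st S a) inf_le_left)
  have h1 := card_sorb_mul S a
  obtain ⟨K, k1, k2⟩ := Sylow.exists_subgroup_card_pow_prime_le (G := S) p (n := t) (m := i + t)
    (by rw [← h1, he, ht, ← pow_add]; exact pow_dvd_pow _ (by omega))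
    ((st S a).subgroupOf S)
    (by rw [← ht]; exact Nat.card_congr (Subgroup.subgroupOfEquivOfLe inf_le_left).toEquiv)
    (by omega)
  have l1 : st S a ≤ K.map S.subtype := fun g hg => ⟨⟨g, hg.1⟩, k2 hg, rfl⟩
  have l2 : K.map S.subtype ≤ S := Subgroup.map_subtype_le _
  have h2 := card_sorb_mul (K.map S.subtype) a
  have h3 : st (K.map S.subtype) a = st S a :=
    le_antisymm (inf_le_inf_right _ l2) (le_inf l1 inf_le_right)
  rw [h3, ht, Subgroup.card_map_of_injective S.subtype_injective, k1, pow_add] at h2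
  have h4 := Nat.eq_of_mul_eq_mul_right (pow_pos hp.out.pos t) h2
  exact ⟨_, l1, l2, h4.le, fun _ => h4.ge⟩

theorem exists_blocks {p : ℕ} [hp : Fact p.Prime] {S : Subgroup (Perm V)} (hS : IsPGroup p S)
    (i : ℕ) : ∃ β : V → Finset V, (∀ u, u ∈ β u) ∧ (∀ u v, v ∈ β u → β v = β u) ∧
      (∀ s ∈ S, ∀ u, β (s u) = (β u).image s) ∧ (∀ u, β u ⊆ sorb S u) ∧
      (∀ u, (β u).card ≤ p ^ i) ∧ ∀ u, p ^ i ≤ (sorb S u).card → p ^ i ≤ (β u).card := by
  choose K k1 k2 k3 k4 using exists_mid hS i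
  obtain ⟨rep, r1, r2⟩ : ∃ rep : V → V, (∀ u, rep u ∈ sorb S u) ∧
      ∀ u v, sorb S u = sorb S v → rep u = rep v := by
    have hne : ∀ u, (sorb S u).Nonempty := fun u => ⟨u, self_mem_sorb S u⟩
    have : ∀ (T T' : Finset V) (h : T.Nonempty) (h' : T'.Nonempty), T = T' →
        h.choose = h'.choose := by
      intro T T' h h' e; subst e; rfl
    exact ⟨fun u => (hne u).choose, fun u => (hne u).choose_spec, fun u v h => this _ _ _ _ h⟩
  have r3 : ∀ u, ∃ s ∈ S, s (rep u) = u := fun u => by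
    rw [← mem_sorb, sorb_eq_of_mem (r1 u)]; exact self_mem_sorb S u
  have r4 : ∀ s ∈ S, ∀ u, rep (s u) = rep u := fun s hs u =>
    r2 _ _ (sorb_eq_of_mem (mem_sorb.2 ⟨s, hs, rfl⟩))
  let β : V → Finset V := fun u =>
    univ.filter fun v => ∃ s ∈ S, ∃ k ∈ K (rep u), s (rep u) = u ∧ s (k (rep u)) = v
  have key : ∀ u, ∀ s ∈ S, s (rep u) = u → β u = (sorb (K (rep u)) (rep u)).image s := by
    intro u s hs e
    ext v
    simp only [β, mem_filter, mem_univ, true_and, mem_image, mem_sorb]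
    constructor
    · rintro ⟨t, ht, k, hk, e1, rfl⟩
      refine ⟨_, ⟨s⁻¹ * t * k, (K _).mul_mem (k1 _ ⟨S.mul_mem (S.inv_mem hs) ht, ?_⟩) hk, rfl⟩,
        by simp⟩
      change (s⁻¹ * t) (rep u) = rep u
      rw [Perm.mul_apply, e1, Perm.inv_eq_iff_eq, e]
    · rintro ⟨_, ⟨k, hk, rfl⟩, rfl⟩
      exact ⟨s, hs, k, hk, e, rfl⟩
  refine ⟨β, fun u => ?_, fun u v hv => ?_, fun s hs u => ?_, fun u v hv => ?_, fun u => ?_,
    fun u hu => ?_⟩
  · obtain ⟨s, hs, e⟩ := r3 u
    exact mem_filter.2 ⟨mem_univ _, s, hs, 1, (K _).one_mem, e, e⟩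
  · obtain ⟨s, hs, k, hk, e1, e2⟩ := (mem_filter.1 hv).2
    have hsk : s * k ∈ S := S.mul_mem hs (k2 _ hk)
    have e3 : rep v = rep u := by
      rw [← e2, ← Perm.mul_apply, r4 _ hsk]
      exact r2 _ _ (sorb_eq_of_mem (r1 u))
    rw [key v (s * k) hsk (by rw [e3]; exact e2), key u s hs e1, e3, Perm.coe_mul, ← image_image,
      image_sorb hk]
  · obtain ⟨t, ht, e⟩ := r3 u
    rw [key (s u) (s * t) (S.mul_mem hs ht) (by rw [r4 s hs, Perm.mul_apply, e]), key u t ht e,
      r4 s hs, Perm.coe_mul, image_image]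
  · obtain ⟨s, hs, k, hk, _, e2⟩ := (mem_filter.1 hv).2
    rw [← sorb_eq_of_mem (r1 u)]
    exact mem_sorb.2 ⟨s * k, S.mul_mem hs (k2 _ hk), e2⟩
  · obtain ⟨t, ht, e⟩ := r3 u
    rw [key u t ht e]
    exact card_image_le.trans (k3 _)
  · obtain ⟨t, ht, e⟩ := r3 u
    rw [key u t ht e, card_image_of_injective _ t.injective]
    exact k4 _ (by rwa [sorb_eq_of_mem (r1 u)])

theorem exists_action_code {p : ℕ} [hp : Fact p.Prime] {S : Subgroup (Perm V)}
    (hS : IsPGroup p S) (𝔅 : Finset (Finset V)) (h𝔅 : ∀ s ∈ S, ∀ B ∈ 𝔅, B.image s ∈ 𝔅) :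
    ∃ (a : ℕ) (ρ : Perm V → ℕ), a * (p - 1) ≤ 𝔅.card ∧ (∀ s ∈ S, ρ s < p ^ a) ∧
      ∀ s ∈ S, ∀ t ∈ S, ρ s = ρ t → ∀ B ∈ 𝔅, B.image s = B.image t := by
  let _ : MulAction S 𝔅 :=
    { smul := fun s B => ⟨B.1.image (s : Perm V), h𝔅 _ s.2 _ B.2⟩
      one_smul := fun B => Subtype.ext (by change B.1.image _ = _; simp)
      mul_smul := fun s t B => Subtype.ext (by
        change B.1.image _ = (B.1.image _).image _
        rw [image_image]; rfl) }
  let φ := MulAction.toPermHom S 𝔅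
  obtain ⟨a, ha⟩ := IsPGroup.iff_card.1 (hS.of_surjective φ.rangeRestrict
    φ.rangeRestrict_surjective)
  refine ⟨a, fun s => if h : s ∈ S then (Finite.equivFin φ.range (φ.rangeRestrict ⟨s, h⟩) : ℕ)
    else 0, ?_, fun s hs => ?_, fun s hs t ht e B hB => ?_⟩
  · have h1 : p ^ a ∣ (𝔅.card).factorial := by
      have := Subgroup.card_subgroup_dvd_card φ.range
      rwa [ha, Nat.card_perm, Nat.card_eq_fintype_card, Fintype.card_coe] at this
    have h2 := (padicValNat_dvd_iff_le (Nat.factorial_ne_zero _)).1 h1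
    have h3 := sub_one_mul_padicValNat_factorial (p := p) 𝔅.card
    calc a * (p - 1) ≤ padicValNat p (𝔅.card).factorial * (p - 1) := by gcongr
      _ ≤ _ := by rw [mul_comm, h3]; exact Nat.sub_le _ _
  · simp only [dif_pos hs]
    exact ha ▸ Fin.is_lt _
  · simp only [dif_pos hs, dif_pos ht] at e
    have e1 := congrArg Subtype.val ((Finite.equivFin φ.range).injective (Fin.ext e))
    exact congrArg Subtype.val (congrArg (fun σ : Perm 𝔅 => σ ⟨B, hB⟩) e1)

theorem greedy {p q : ℕ} [hp : Fact p.Prime] {P : Subgroup (Perm V)} (hP : IsPGroup p P)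
    (O : Finset V) (hq : 0 < q) (hO : ∀ u ∈ O, q ≤ (sorb P u).card) (k : ℕ) :
    ∃ g : Fin k → Perm V, (∀ i, g i ∈ P) ∧
      ∑ u ∈ O, (1 : ℝ) / (sorb (Subgroup.closure (Set.range g)) u).card ≤
        O.card / p ^ k + 2 * O.card / q := by
  have hp2 : (2 : ℝ) ≤ p := by exact_mod_cast hp.out.two_le
  have hq' : (0 : ℝ) < q := by exact_mod_cast hq
  induction k with
  | zero =>
    refine ⟨Fin.elim0, fun i => i.elim0, ?_⟩
    refine le_trans (sum_le_card_nsmul _ _ 1 fun u _ => ?_) ?_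
    · rw [div_le_one (by exact_mod_cast card_sorb_pos _ u)]
      exact_mod_cast card_sorb_pos _ u
    · simp only [nsmul_eq_mul, mul_one, pow_zero, div_one, le_add_iff_nonneg_right]; positivity
  | succ k ih =>
    obtain ⟨g, hg, ih⟩ := ih
    set H := Subgroup.closure (Set.range g)
    have hH : H ≤ P := (Subgroup.closure_le _).2 (by rintro _ ⟨i, rfl⟩; exact hg i)
    set N := ∑ u ∈ O, (1 : ℝ) / (sorb H u).card
    set PF := univ.filter (· ∈ P)
    have hsum : ∑ a ∈ PF, ∑ u ∈ O, (1 : ℝ) /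
        (sorb (Subgroup.closure (Set.range (Fin.cons a g : Fin (k + 1) → Perm V))) u).card ≤
        ∑ _a ∈ PF, (N / p + O.card / q) := by
      calc _ ≤ ∑ a ∈ PF, ∑ u ∈ O, ((1 : ℝ) / (sorb H u).card / p +
            if a u ∈ sorb H u then (1 : ℝ) / (sorb H u).card else 0) := by
            refine sum_le_sum fun a ha => sum_le_sum fun u _ => ?_
            set H' := Subgroup.closure (Set.range (Fin.cons a g : Fin (k + 1) → Perm V))
            have l1 : H ≤ H' := Subgroup.closure_mono (by simp)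
            have l2 : a ∈ H' := Subgroup.subset_closure (by simp)
            have l3 : H' ≤ P := (Subgroup.closure_le _).2 (by
              rw [Fin.range_cons]
              rintro _ (rfl | ⟨i, rfl⟩)
              · exact (mem_filter.1 ha).2
              · exact hg i)
            have c0 : (0 : ℝ) < (sorb H u).card := by exact_mod_cast card_sorb_pos _ u
            split_ifs with h
            · refine le_add_of_nonneg_of_le (by positivity) ?_
              gcongr
              exact sorb_mono l1 u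
            · obtain ⟨e, he⟩ := card_sorb_pow (hP.to_le hH) u
              obtain ⟨e', he'⟩ := card_sorb_pow (hP.to_le l3) u
              have lt := card_lt_card (s := sorb H u) (t := sorb H' u)
                ⟨sorb_mono l1 u, fun h' => h (h' (mem_sorb.2 ⟨a, l2, rfl⟩))⟩
              rw [he, he', Nat.pow_lt_pow_iff_right hp.out.one_lt] at lt
              rw [add_zero, div_div, he, he']
              push_cast
              rw [← pow_succ]
              gcongr
              · linarith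
              · exact lt
        _ ≤ _ := by
            simp only [sum_add_distrib, ← sum_div]
            gcongr
            rw [sum_comm, sum_const, nsmul_eq_mul, le_div_iff₀ hq', mul_comm (PF.card : ℝ),
              sum_mul, ← nsmul_eq_mul]
            refine sum_le_card_nsmul _ _ _ fun u hu => ?_
            rw [← sum_filter, sum_const, nsmul_eq_mul]
            have c0 : (0 : ℝ) < (sorb H u).card := by exact_mod_cast card_sorb_pos _ u
            have c1 : (PF.filter fun a => a u ∈ sorb H u).card ≤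
                Nat.card (st P u) * (sorb H u).card := by
              refine card_le_mul_card_image_of_maps_to (f := fun a : Perm V => a u)
                (fun a ha => (mem_filter.1 ha).2) _ fun v hv => ?_
              rw [← card_fib (sorb_mono hH u hv)]
              exact card_le_card (filter_subset_filter _ (filter_subset _ _))
            have c2 : q * Nat.card (st P u) ≤ PF.card := by
              rw [card_sub, ← card_sorb_mul P u]; gcongr; exact hO u hu
            have c1' : ((PF.filter fun a => a u ∈ sorb H u).card : ℝ) ≤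
                Nat.card (st P u) * (sorb H u).card := by exact_mod_cast c1
            have c2' : (q : ℝ) * Nat.card (st P u) ≤ PF.card := by exact_mod_cast c2
            rw [mul_one_div, div_mul_eq_mul_div, div_le_iff₀ c0]
            nlinarith
    obtain ⟨a, ha, h⟩ := exists_le_of_sum_le ⟨1, mem_filter.2 ⟨mem_univ _, P.one_mem⟩⟩ hsum
    refine ⟨Fin.cons a g, fun i => Fin.cases (mem_filter.1 ha).2 hg i, h.trans ?_⟩
    have h1 : N / p ≤ (O.card / p ^ k + 2 * O.card / q) / p := by gcongr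
    have h2 : (2 * O.card / q : ℝ) / p ≤ 2 * O.card / q / 2 := by gcongr
    rw [add_div, div_div, ← pow_succ] at h1
    have h3 : (2 * O.card / q : ℝ) = 2 * (O.card / q) := by ring
    linarith

theorem exists_reps {H : Subgroup (Perm V)} (O : Finset V) (hO : ∀ u ∈ O, sorb H u ⊆ O) {ν : ℕ}
    (hν : ∑ u ∈ O, (1 : ℝ) / (sorb H u).card < ν + 1) {u₀ : V} (hu₀ : u₀ ∈ O) :
    ∃ R : Fin ν → V, (∀ i, R i ∈ O) ∧ ∀ u ∈ O, ∃ i, u ∈ sorb H (R i) := by
  have h1 : ((O.image (sorb H)).card : ℝ) = ∑ u ∈ O, (1 : ℝ) / (sorb H u).card := by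
    rw [← sum_fiberwise_of_maps_to (t := O.image (sorb H)) (g := sorb H)
      (fun u hu => mem_image_of_mem _ hu), card_eq_sum_ones, Nat.cast_sum]
    refine sum_congr rfl fun ω hω => ?_
    obtain ⟨a, ha, rfl⟩ := mem_image.1 hω
    have e : (O.filter fun u => sorb H u = sorb H a) = sorb H a := by
      ext u
      rw [mem_filter]
      exact ⟨fun h => h.2 ▸ self_mem_sorb H u, fun h => ⟨hO a ha h, sorb_eq_of_mem h⟩⟩
    rw [sum_congr rfl (g := fun _ => (1 : ℝ) / (sorb H a).card)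
      (fun u hu => by rw [(mem_filter.1 hu).2]), e, sum_const, nsmul_eq_mul]
    have c0 : (0 : ℝ) < (sorb H a).card := by exact_mod_cast card_sorb_pos _ a
    field_simp
    simp
  have h2 : (O.image (sorb H)).card ≤ ν := by
    rw [← h1] at hν
    exact Nat.lt_succ_iff.1 (by exact_mod_cast hν)
  have h3 : ∀ ω : O.image (sorb H), ∃ a ∈ O, sorb H a = ω := fun ω => mem_image.1 ω.2
  choose r r1 r2 using h3
  refine ⟨fun i => if h : (i : ℕ) < (O.image (sorb H)).card then
    r ((O.image (sorb H)).equivFin.symm ⟨i, h⟩) else u₀, fun i => ?_, fun u hu => ?_⟩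
  · simp only
    split_ifs
    · exact r1 _
    · exact hu₀
  · let j := (O.image (sorb H)).equivFin ⟨sorb H u, mem_image_of_mem _ hu⟩
    refine ⟨⟨j, j.2.trans_le h2⟩, ?_⟩
    simp only [j.2, dif_pos, Fin.eta, r2]
    simpa [j] using self_mem_sorb H u

end Pool.Agent.Lib.MP_449609_pr
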