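import Pool.Agent.Lib.MP_449609_pr.PGrp

set_option autoImplicit false
set_option linter.unusedSectionVars false

open Finset Equiv
open Classical

namespace Pool.Agent.Lib.MP_449609_pr

variable {V : Type} [Fintype V] [DecidableEq V]

theorem IsAut.nb_apply {Z : SimpleGraph V} {h : Perm V} (hh : IsAut Z h) (x : V) :
    nb Z (h x) = (nb Z x).image h := by
  ext y
  obtain ⟨z, rfl⟩ := h.surjective y
  simp [hh x z]

theorem card_pi_subs {d E : ℕ} (O : Finset V) (c : V → Finset V) (hc : ∀ u ∈ O, (c u).card ≤ E) :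
    (Fintype.piFinset fun u => if u ∈ O then subs d (c u) else {∅}).card ≤
      (E + 1) ^ (d * O.card) := by
  rw [Fintype.card_piFinset, pow_mul, ← prod_const, ← prod_filter_mul_prod_filter_not univ (· ∈ O),
    prod_eq_one (s := univ.filter fun u => ¬ u ∈ O) fun u hu => by simp [(mem_filter.1 hu).2],
    mul_one, filter_mem_eq_inter, univ_inter]
  refine prod_le_prod' fun u hu => ?_
  rw [if_pos hu]
  exact (card_subs _ _).trans (by gcongr; exact hc u hu)

theorem ext_count {p q d i k ν : ℕ} [hp : Fact p.Prime] {S : Subgroup (Perm V)}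
    (hS : IsPGroup p S) {O U : Finset V} (hO : O.Nonempty) (hOU : O ⊆ U)
    (iO : ∀ u ∈ O, sorb S u ⊆ O) (iU : ∀ u ∈ U, sorb S u ⊆ U)
    (hU : ∀ u ∈ U, p ^ i ≤ (sorb S u).card) (hq : 0 < q)
    (hν : (O.card : ℝ) / p ^ k + 2 * O.card / q < ν + 1) (𝒵 : Finset (SimpleGraph V))
    (h1 : ∀ Z ∈ 𝒵, Deg d Z ∧ (∀ u ∈ O, nb Z u ⊆ U) ∧
      ∃ P ≤ S, (∀ h ∈ P, IsAut Z h) ∧ ∀ u ∈ O, q ≤ (sorb P u).card)
    (h2 : ∀ Z ∈ 𝒵, ∀ Z' ∈ 𝒵, (∀ u ∈ O, nb Z u = nb Z' u) → Z = Z') :
    ∃ a, a * (p - 1) * p ^ i ≤ U.card ∧ 𝒵.card ≤ (d * p ^ i * p ^ i + 1) ^ (d * O.card) *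
      ((p ^ a) ^ k * (Fintype.card V + 1) ^ ((d * p ^ i + 1) * ν)) := by
  obtain ⟨β, b1, b2, b3, b4, b5, b6⟩ := exists_blocks hS i
  set 𝔅 := U.image β with h𝔅
  obtain ⟨a, ρ, r1, r2, r3⟩ := exists_action_code hS 𝔅 fun s hs B hB => by
    obtain ⟨u, hu, rfl⟩ := mem_image.1 hB
    rw [← b3 s hs]
    exact mem_image_of_mem _ (iU u hu (mem_sorb.2 ⟨s, hs, rfl⟩))
  have hm : 𝔅.card * p ^ i ≤ U.card := by
    rw [card_eq_sum_card_image β U, ← smul_eq_mul]
    refine card_nsmul_le_sum _ _ _ fun B hB => ?_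
    obtain ⟨u, hu, rfl⟩ := mem_image.1 hB
    exact (b6 u (hU u hu)).trans (card_le_card fun v hv =>
      mem_filter.2 ⟨iU u hu (b4 u hv), b2 u v hv⟩)
  refine ⟨a, le_trans (by gcongr) hm, ?_⟩
  obtain ⟨u₀, hu₀⟩ := hO
  have h3 : ∀ Z : SimpleGraph V, ∃ (g : Fin k → Perm V) (R : Fin ν → V), Z ∈ 𝒵 →
      (∀ j, g j ∈ S ∧ IsAut Z (g j)) ∧ (∀ j, R j ∈ O) ∧
      ∀ u ∈ O, ∃ j, u ∈ sorb (Subgroup.closure (Set.range g)) (R j) := by
    intro Z
    by_cases hZ : Z ∈ 𝒵
    · obtain ⟨_, _, P, hP, a1, a2⟩ := h1 Z hZ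
      obtain ⟨g, g1, g2⟩ := greedy (hS.to_le hP) O hq a2 k
      have l : Subgroup.closure (Set.range g) ≤ S :=
        (Subgroup.closure_le _).2 (by rintro _ ⟨i, rfl⟩; exact hP (g1 i))
      obtain ⟨R, R1, R2⟩ := exists_reps O (fun u hu => (sorb_mono l u).trans (iO u hu))
        (g2.trans_lt hν) hu₀
      exact ⟨g, R, fun _ => ⟨fun j => ⟨hP (g1 j), a1 _ (g1 j)⟩, R1, R2⟩⟩
    · exact ⟨fun _ => 1, fun _ => u₀, fun h => absurd h hZ⟩
  choose g R hgR using h3
  let NB : SimpleGraph V → Finset V → Finset (Finset V) := fun Z B => (B.biUnion (nb Z)).image β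
  have n1 : ∀ Z ∈ 𝒵, ∀ u, (NB Z (β u)).card ≤ d * p ^ i := fun Z hZ u =>
    card_image_le.trans ((card_biUnion_le_card_mul _ _ _ fun x _ => (h1 Z hZ).1 x).trans
      (by rw [mul_comm]; gcongr; exact b5 u))
  have n2 : ∀ Z ∈ 𝒵, ∀ u ∈ O, NB Z (β u) ⊆ 𝔅 := fun Z hZ u hu =>
    image_subset_image (biUnion_subset.2 fun x hx => (h1 Z hZ).2.1 x (iO u hu (b4 u hx)))
  have n3 : ∀ Z, ∀ h ∈ S, IsAut Z h → ∀ u,
      NB Z (β (h u)) = (NB Z (β u)).image (image h) := fun Z h hh ha u => by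
    simp only [NB, b3 h hh, image_biUnion, biUnion_image, ha.nb_apply, image_image]
    congr 1
    ext x B
    simp [b3 h hh]
  refine (card_le_of_code 𝒵 ((Fintype.piFinset fun _ : Fin k => range (p ^ a)) ×ˢ
      (univ : Finset (Fin ν → V)) ×ˢ Fintype.piFinset fun _ : Fin ν => subs (d * p ^ i) 𝔅)
    (fun Z => (fun j => ρ (g Z j), R Z, fun j => NB Z (β (R Z j))))
    (fun Z u => if u ∈ O then nb Z u else ∅)
    (fun Z => Fintype.piFinset fun u =>
      if u ∈ O then subs d ((NB Z (β u)).biUnion id) else {∅}) _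
    (fun Z hZ => ?_) (fun Z hZ => card_pi_subs (E := d * p ^ i * p ^ i) O _ fun u hu => ?_)
    (fun Z hZ Z' hZ' e => ?_)
    fun Z hZ Z' hZ' _ e => h2 Z hZ Z' hZ' fun u hu => ?_).trans ?_
  · simp only [mem_product, Fintype.mem_piFinset, mem_range, mem_univ, true_and, mem_subs]
    exact ⟨fun j => r2 _ ((hgR Z hZ).1 j).1,
      fun j => ⟨n2 Z hZ _ ((hgR Z hZ).2.1 j), n1 Z hZ _⟩⟩
  · refine (card_biUnion_le_card_mul _ _ (p ^ i) fun B hB => ?_).trans (by gcongr; exact n1 Z hZ u)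
    obtain ⟨y, _, rfl⟩ := mem_image.1 hB
    exact b5 y
  · simp only [Prod.mk.injEq] at e
    obtain ⟨e1, e2, e3⟩ := e
    set A := O.filter fun u => NB Z (β u) = NB Z' (β u)
    have c1 : ∀ h ∈ Subgroup.closure (Set.range (g Z)), A.image h = A := by
      intro h hh
      induction hh using Subgroup.closure_induction with
      | mem x hx =>
        obtain ⟨j, rfl⟩ := hx
        refine eq_of_subset_of_card_le (fun v hv => ?_)
          (card_image_of_injective _ (g Z j).injective).ge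
        obtain ⟨u, hu, rfl⟩ := mem_image.1 hv
        obtain ⟨hu1, hu2⟩ := mem_filter.1 hu
        obtain ⟨s1, s2⟩ := (hgR Z hZ).1 j
        obtain ⟨s3, s4⟩ := (hgR Z' hZ').1 j
        have t := r3 _ s1 _ s3 (congrFun e1 j)
        refine mem_filter.2 ⟨iO u hu1 (mem_sorb.2 ⟨_, s1, rfl⟩), ?_⟩
        have t1 : β (g Z j u) = β (g Z' j u) := by
          rw [b3 _ s1, b3 _ s3, t _ (mem_image_of_mem _ (hOU hu1))]
        conv_rhs => rw [t1]
        rw [n3 Z _ s1 s2, n3 Z' _ s3 s4, ← hu2]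
        exact image_congr fun B hB => t B (n2 Z hZ u hu1 hB)
      | one => simp
      | mul x y _ _ hx hy => rw [Perm.coe_mul, ← image_image, hy, hx]
      | inv x _ hx =>
        conv_lhs => rw [← hx]
        rw [image_image]
        simp
    rw [Fintype.mem_piFinset]
    intro u
    split_ifs with hu
    · have hA : u ∈ A := by
        obtain ⟨j, hj⟩ := (hgR Z hZ).2.2 u hu
        obtain ⟨h, hh, rfl⟩ := mem_sorb.1 hj
        rw [← c1 h hh]
        refine mem_image_of_mem _ (mem_filter.2 ⟨(hgR Z hZ).2.1 j, ?_⟩)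
        have := congrFun e3 j
        simp only [← e2] at this
        exact this
      rw [mem_subs, (mem_filter.1 hA).2]
      refine ⟨fun y hy => mem_biUnion.2 ⟨β y, mem_image_of_mem _ ?_, b1 y⟩, (h1 Z' hZ').1 u⟩
      exact mem_biUnion.2 ⟨u, b1 u, hy⟩
    · simp
  · simpa [hu] using congrFun e u
  · gcongr
    simp only [card_product, Fintype.card_piFinset, prod_const, card_range, card_univ,
      Fintype.card_fin, Fintype.card_pi]
    gcongr
    rw [add_mul, one_mul, pow_add, mul_comm, pow_mul]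
    gcongr
    · refine (card_subs _ _).trans ?_
      gcongr
      exact card_image_le.trans (card_le_univ _)
    · omega

theorem exists_prime_pow {q s : ℕ} (hs : 2 ^ (8 * q) < s) :
    ∃ p e, p.Prime ∧ q ≤ p ^ e ∧ p ^ e ∣ s := by
  by_contra! h
  have hs0 : s ≠ 0 := (Nat.zero_lt_of_lt hs).ne'
  have h1 : s ∣ Nat.lcmUpto q := by
    rw [← Nat.factorization_prime_le_iff_dvd hs0 (Nat.lcmUpto_ne_zero q)]
    intro p hp
    rw [Nat.factorization_lcmUpto q hp]
    refine Nat.le_log_of_pow_le hp.one_lt ?_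
    by_contra! h'
    exact h p _ hp h'.le (Nat.ordProj_dvd s p)
  have h2 := Nat.le_of_dvd (Nat.lcmUpto_pos q) h1
  have h3 := Chebyshev.psi_le_const_mul_self (x := q) (by positivity)
  rw [Chebyshev.psi_eq_log_lcmUpto] at h3
  have h4 : Real.log ((2 ^ (8 * q) : ℕ) : ℝ) < Real.log (Nat.lcmUpto q) :=
    Real.log_lt_log (by positivity) (by exact_mod_cast hs.trans_le h2)
  have h5 : Real.log 4 = 2 * Real.log 2 := by
    rw [show (4 : ℝ) = 2 ^ 2 by norm_num, Real.log_pow]; norm_num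
  push_cast at h4
  rw [Real.log_pow] at h4
  push_cast at h4
  have := Real.log_two_gt_d9
  have : (0 : ℝ) ≤ q := by positivity
  nlinarith

theorem ext_num {p q d κ a n x y b c s : ℕ} (hp : p.Prime) (hq : 0 < q) (hκ : 0 < κ)
    (hx : n + 1 ≤ 2 ^ x) (hy : q ≤ 2 ^ y) (hb : 2 * (d + 1) * y ≤ κ * b) (hc : x ≤ c * q)
    (ha : a * (p - 1) * p ^ Nat.log p κ ≤ (d + 1) * s) :
    (d * p ^ Nat.log p κ * p ^ Nat.log p κ + 1) ^ (d * s) *
      ((p ^ a) ^ (Nat.log p q + 1) * (n + 1) ^ ((d * p ^ Nat.log p κ + 1) * (3 * s / q))) ≤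
      2 ^ ((d + 1 + b + 3 * c * (d * κ + 1) + d ^ 2 * κ ^ 2) * s) := by
  set l := p ^ Nat.log p κ
  have l1 : l ≤ κ := Nat.pow_log_le_self p hκ.ne'
  have l2 : κ < l * p := Nat.lt_pow_succ_log_self hp.one_lt κ
  have l0 : 1 ≤ l := Nat.one_le_pow _ _ hp.pos
  have p2 := hp.two_le
  have e1 : (d * l * l + 1) ^ (d * s) ≤ 2 ^ (d ^ 2 * κ ^ 2 * s) := by
    calc _ ≤ (2 ^ (d * κ * κ)) ^ (d * s) := by
          gcongr
          exact Nat.lt_two_pow_self.trans_le (by gcongr; norm_num)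
      _ = _ := by rw [← pow_mul]; congr 1; ring
  have e2 : p ^ a ≤ 2 ^ ((d + 1) * s) := by
    calc p ^ a ≤ (2 ^ (p - 1)) ^ a := by
          gcongr
          have := Nat.lt_two_pow_self (n := p - 1)
          omega
      _ ≤ _ := by
          rw [← pow_mul]
          exact Nat.pow_le_pow_right two_pos (le_trans
            (by rw [mul_comm]; exact Nat.le_mul_of_pos_right _ l0) ha)
  have e3 : (p ^ a) ^ Nat.log p q ≤ 2 ^ (b * s) := by
    have h1 : κ * a ≤ 2 * (d + 1) * s := by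
      obtain ⟨t, rfl⟩ : ∃ t, p = t + 2 := ⟨p - 2, by omega⟩
      have : t + 2 - 1 = t + 1 := by omega
      rw [this] at ha
      nlinarith [Nat.zero_le (a * l * t)]
    have h2 : y * a ≤ b * s := by
      refine Nat.le_of_mul_le_mul_left ?_ hκ
      calc κ * (y * a) = y * (κ * a) := by ring
        _ ≤ y * (2 * (d + 1) * s) := by gcongr
        _ = 2 * (d + 1) * y * s := by ring
        _ ≤ κ * b * s := by gcongr
        _ = _ := by ring
    calc _ = (p ^ Nat.log p q) ^ a := by rw [← pow_mul, ← pow_mul, mul_comm]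
      _ ≤ (2 ^ y) ^ a := Nat.pow_le_pow_left ((Nat.pow_log_le_self p hq.ne').trans hy) _
      _ ≤ _ := by rw [← pow_mul]; exact Nat.pow_le_pow_right two_pos h2
  have e4 : (n + 1) ^ ((d * l + 1) * (3 * s / q)) ≤ 2 ^ (3 * c * (d * κ + 1) * s) := by
    calc _ ≤ (2 ^ x) ^ ((d * l + 1) * (3 * s / q)) := by gcongr
      _ ≤ _ := by
          rw [← pow_mul]
          refine Nat.pow_le_pow_right two_pos ?_
          have := Nat.mul_div_le (3 * s) q
          calc _ ≤ c * q * ((d * κ + 1) * (3 * s / q)) := by gcongr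
            _ = c * (d * κ + 1) * (q * (3 * s / q)) := by ring
            _ ≤ c * (d * κ + 1) * (3 * s) := by gcongr
            _ = _ := by ring
  rw [pow_succ]
  calc _ ≤ 2 ^ (d ^ 2 * κ ^ 2 * s) * (2 ^ (b * s) * 2 ^ ((d + 1) * s) *
        2 ^ (3 * c * (d * κ + 1) * s)) := by gcongr
    _ = _ := by simp only [← pow_add]; congr 1; ring

/-- the colour classes are the orbits -/
def Col (X : SimpleGraph V) (χ : V → ℕ) : Prop :=
  (∀ g, IsAut X g → ∀ u, χ (g u) = χ u) ∧ ∀ u v, χ u = χ v → ∃ g, IsAut X g ∧ g u = v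

/-- edges touching the first `j` colours -/
def upto (χ : V → ℕ) (j : ℕ) (X : SimpleGraph V) : SimpleGraph V where
  Adj x y := X.Adj x y ∧ (χ x < j ∨ χ y < j)
  symm := ⟨fun _ _ h => ⟨h.1.symm, h.2.symm⟩⟩
  loopless := ⟨fun _ h => h.1.ne rfl⟩

theorem upto_adj {χ : V → ℕ} {j : ℕ} {X : SimpleGraph V} {x y : V} :
    (upto χ j X).Adj x y ↔ X.Adj x y ∧ (χ x < j ∨ χ y < j) := Iff.rfl

/-- colour preserving permutations -/
def colG (χ : V → ℕ) : Subgroup (Perm V) where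
  carrier := {g | ∀ u, χ (g u) = χ u}
  one_mem' := fun _ => rfl
  mul_mem' := fun {g h} hg hh u => (hg (h u)).trans (hh u)
  inv_mem' := fun {g} hg u => by simpa using (hg (g⁻¹ u)).symm

theorem Col.act' {X : SimpleGraph V} {χ χ' : V → ℕ} (h : Col X χ) {a : Perm V}
    (ha : ∀ u, χ' (a u) = χ u) : Col (act a X) χ' := by
  refine ⟨fun g hg u => ?_, fun u v e => ?_⟩
  · obtain ⟨w, rfl⟩ := a.surjective u
    have := h.1 _ (isAut_act.1 hg) w
    rw [← ha, ← ha] at this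
    simpa using this
  · obtain ⟨w, rfl⟩ := a.surjective u
    obtain ⟨z, rfl⟩ := a.surjective v
    rw [ha, ha] at e
    obtain ⟨g, hg, rfl⟩ := h.2 _ _ e
    refine ⟨a * g * a⁻¹, isAut_act.2 ?_, by simp⟩
    have : a⁻¹ * (a * g * a⁻¹) * a = g := by group
    rwa [this]

theorem upto_act {X : SimpleGraph V} {χ : V → ℕ} {a : Perm V} (ha : a ∈ colG χ) (j : ℕ) :
    upto χ j (act a X) = act a (upto χ j X) := by
  ext x y
  simp only [upto_adj, act_adj, (colG χ).inv_mem ha _]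

theorem isAut_upto {X : SimpleGraph V} {χ : V → ℕ} {a : Perm V} (ha : a ∈ colG χ)
    (h : IsAut X a) (j : ℕ) : IsAut (upto χ j X) a := by
  rw [isAut_iff_act, ← upto_act ha, isAut_iff_act.1 h]

theorem stage {d q κ x y b c : ℕ} (hq : (d + 1) * κ ≤ q) (hκ : 0 < κ)
    (hx : Fintype.card V + 1 ≤ 2 ^ x) (hy : q ≤ 2 ^ y) (hb : 2 * (d + 1) * y ≤ κ * b)
    (hc : x ≤ c * q) (χ : V → ℕ) (j : ℕ) (Y : SimpleGraph V) :
    ∃ Ext : Finset (SimpleGraph V), Ext.card ≤ 2 ^ (x * d * (2 ^ (8 * q) + 1) +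
      (d + 1 + b + 3 * c * (d * κ + 1) + d ^ 2 * κ ^ 2) * (univ.filter fun u => χ u = j).card) ∧
      ∀ X, Deg d X → Col X χ → upto χ j X = Y →
        ∃ a ∈ colG χ, upto χ (j + 1) (act a X) ∈ Ext := by
  set O := univ.filter fun u => χ u = j with hO
  have mO : ∀ u, u ∈ O ↔ χ u = j := fun u => by simp [hO]
  set Base := univ.filter fun Z : SimpleGraph V =>
    Deg d Z ∧ upto χ j Z = Y ∧ upto χ (j + 1) Z = Z with hBase
  have hdet : ∀ Z ∈ Base, ∀ Z' ∈ Base, (∀ u ∈ O, nb Z u = nb Z' u) → Z = Z' := by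
    have key : ∀ Z ∈ Base, ∀ Z' ∈ Base, (∀ u ∈ O, nb Z u = nb Z' u) → Z ≤ Z' := by
      intro Z hZ Z' hZ' h u v huv
      obtain ⟨_, a1, a2⟩ := (mem_filter.1 hZ).2
      obtain ⟨_, a3, _⟩ := (mem_filter.1 hZ').2
      by_cases c1 : χ u < j ∨ χ v < j
      · have : (upto χ j Z).Adj u v := ⟨huv, c1⟩
        rw [a1, ← a3] at this
        exact this.1
      · have := huv
        rw [← a2] at this
        rcases this.2 with c2 | c2
        · rw [← mem_nb, ← h u ((mO u).2 (by omega))]; exact mem_nb.2 huv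
        · rw [Z'.adj_comm, ← mem_nb, ← h v ((mO v).2 (by omega))]; exact mem_nb.2 huv.symm
    exact fun Z hZ Z' hZ' h => le_antisymm (key Z hZ Z' hZ' h)
      (key Z' hZ' Z hZ fun u hu => (h u hu).symm)
  have hbase : ∀ X, Deg d X → upto χ j X = Y → upto χ (j + 1) X ∈ Base := by
    intro X h1 h2
    refine mem_filter.2 ⟨mem_univ _, fun v => le_trans (card_le_card fun y hy => ?_) (h1 v), ?_, ?_⟩
    · exact mem_nb.2 (mem_nb.1 hy).1
    · rw [← h2]; ext u v; simp only [upto_adj, and_assoc, and_congr_right_iff]; omega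
    · ext u v; simp only [upto_adj, and_assoc, and_self]
  rcases le_or_gt O.card (2 ^ (8 * q)) with hs | hs
  · refine ⟨Base, ?_, fun X h1 _ h2 => ⟨1, (colG χ).one_mem, hbase X h1 h2⟩⟩
    have := card_le_card_of_injOn (s := Base)
      (t := Fintype.piFinset fun u => if u ∈ O then subs d univ else {∅})
      (fun Z u => if u ∈ O then nb Z u else ∅) (fun Z hZ => by
        rw [mem_coe, Fintype.mem_piFinset]
        intro u
        simp only
        split_ifs
        · exact mem_subs.2 ⟨subset_univ _, (mem_filter.1 hZ).2.1 u⟩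
        · simp) fun Z hZ Z' hZ' e => hdet Z hZ Z' hZ' fun u hu => by
          simpa [hu] using congrFun e u
    refine this.trans ((card_pi_subs (E := Fintype.card V) O (fun _ => univ)
      fun _ _ => card_univ.le).trans ?_)
    calc _ ≤ (2 ^ x) ^ (d * O.card) := by gcongr
      _ ≤ _ := by
          rw [← pow_mul]
          refine Nat.pow_le_pow_right two_pos (le_add_right ?_)
          rw [mul_assoc]
          gcongr
          omega
  obtain ⟨p, e, hp, pe1, pe2⟩ := exists_prime_pow hs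
  have : Fact p.Prime := ⟨hp⟩
  obtain ⟨S, S1, S2, S3⟩ := conj_into p (autG Y ⊓ colG χ)
  have hq0 : 0 < q := lt_of_lt_of_le (by positivity) hq
  obtain ⟨u₀, hu₀⟩ : O.Nonempty := card_pos.1 (Nat.zero_lt_of_lt hs)
  let U : Finset V → Finset V := fun N => O ∪ univ.filter fun u => χ u ∈ N.image χ
  let 𝒵 : Finset V → Finset (SimpleGraph V) := fun N => Base.filter fun Z =>
    ((U N).card ≤ (d + 1) * O.card ∧ ∀ u ∈ U N, p ^ Nat.log p κ ≤ (sorb S u).card) ∧
    (∀ u ∈ O, nb Z u ⊆ U N) ∧ ∃ P ≤ S, (∀ h ∈ P, IsAut Z h) ∧ ∀ u ∈ O, q ≤ (sorb P u).card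
  have hcol : ∀ u v, v ∈ sorb S u → χ v = χ u := fun u v hv => by
    obtain ⟨s, hs, rfl⟩ := mem_sorb.1 hv
    exact (S1 hs).2 u
  refine ⟨(subs d univ).biUnion 𝒵, ?_, fun X h1 h2 h3 => ?_⟩
  · refine (card_biUnion_le_card_mul _ _
      (2 ^ ((d + 1 + b + 3 * c * (d * κ + 1) + d ^ 2 * κ ^ 2) * O.card)) fun N _ => ?_).trans ?_
    · rcases (𝒵 N).eq_empty_or_nonempty with h | ⟨Z₀, hZ₀⟩
      · simp [h]
      obtain ⟨⟨z1, z2⟩, _⟩ := (mem_filter.1 hZ₀).2
      obtain ⟨a, a1, a2⟩ := ext_count (d := d) (k := Nat.log p q + 1) (ν := 3 * O.card / q) S2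
        ⟨u₀, hu₀⟩ (U := U N) subset_union_left
        (fun u hu v hv => (mO v).2 ((hcol u v hv).trans ((mO u).1 hu)))
        (fun u hu v hv => by
          simp only [U, mem_union, mO, mem_filter, mem_univ, true_and, hcol u v hv] at hu ⊢
          exact hu) z2 hq0 (by
          have k1 : (q : ℝ) ≤ p ^ (Nat.log p q + 1) := by
            exact_mod_cast (Nat.lt_pow_succ_log_self hp.one_lt q).le
          have k0 : (0 : ℝ) < q := by exact_mod_cast hq0
          have k2 : (O.card : ℝ) / p ^ (Nat.log p q + 1) ≤ O.card / q := by gcongr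
          have k3 : ((3 * O.card : ℕ) : ℝ) < q * ((3 * O.card / q : ℕ) + 1) := by
            exact_mod_cast Nat.lt_mul_div_succ _ hq0
          rw [← div_lt_iff₀' k0] at k3
          push_cast at k3
          have : (3 * O.card / q : ℝ) = O.card / q + 2 * O.card / q := by ring
          linarith) (𝒵 N)
        (fun Z hZ => ⟨(mem_filter.1 (mem_filter.1 hZ).1).2.1, (mem_filter.1 hZ).2.2⟩)
        fun Z hZ Z' hZ' => hdet Z (mem_filter.1 hZ).1 Z' (mem_filter.1 hZ').1
      exact a2.trans (ext_num hp hq0 hκ hx hy hb hc (a1.trans z1))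
    · rw [pow_add]
      gcongr
      refine (card_subs _ _).trans ?_
      calc _ ≤ (2 ^ x) ^ d := by rw [card_univ]; gcongr
        _ ≤ _ := by
            rw [← pow_mul]
            exact Nat.pow_le_pow_right two_pos (Nat.le_mul_of_pos_right _ (by positivity))
  · obtain ⟨P₀, P1, P2, P3⟩ := sylow_orbit p (autG X)
    have hGA : autG X ≤ autG Y ⊓ colG χ := fun g hg =>
      ⟨h3 ▸ isAut_upto (h2.1 g hg) hg j, h2.1 g hg⟩
    obtain ⟨a, ha, ha'⟩ := S3 P₀ (P1.trans hGA) P2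
    refine ⟨a, ha.2, ?_⟩
    have d' := h1.act a
    have c' := h2.act' (χ' := χ) ha.2
    have u' : upto χ j (act a X) = Y := by rw [upto_act ha.2, h3]; exact isAut_iff_act.1 ha.1
    have hP : ∀ u ∈ O, q ≤ (sorb (S ⊓ autG (act a X)) u).card := by
      intro v hv
      obtain ⟨u, rfl⟩ := a.surjective v
      have hu : χ u = j := (ha.2 u).symm.trans ((mO _).1 hv)
      have e1 : sorb (autG X) u = O := by
        ext w
        rw [mem_sorb, mO]
        exact ⟨fun ⟨g, hg, e⟩ => e ▸ (h2.1 g hg u).trans hu, fun h => h2.2 u w (hu.trans h.symm)⟩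
      have e2 := Nat.le_of_dvd (card_sorb_pos _ _) (P3 u e (e1 ▸ pe2))
      refine pe1.trans (e2.trans ?_)
      rw [← card_image_of_injective _ a.injective]
      refine card_le_card fun w hw => ?_
      obtain ⟨_, hw', rfl⟩ := mem_image.1 hw
      obtain ⟨g, hg, rfl⟩ := mem_sorb.1 hw'
      refine mem_sorb.2 ⟨a * g * a⁻¹, ⟨ha' g hg, isAut_act.2 ?_⟩, by simp⟩
      have : a⁻¹ * (a * g * a⁻¹) * a = g := by group
      rw [this]
      exact P1 hg
    generalize act a X = X' at *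
    have hball : U (nb X' u₀) ⊆ ball X' O := by
      intro y hy
      rcases mem_union.1 hy with h | h
      · exact mem_ball.2 (Or.inl h)
      · obtain ⟨y₀, hy₀, e⟩ := mem_image.1 (mem_filter.1 h).2
        obtain ⟨g, hg, rfl⟩ := c'.2 _ _ e
        exact mem_ball.2 (Or.inr ⟨g u₀, (mO _).2 ((c'.1 g hg u₀).trans ((mO _).1 hu₀)),
          (hg _ _).2 (mem_nb.1 hy₀)⟩)
    refine mem_biUnion.2 ⟨nb X' u₀, mem_subs.2 ⟨subset_univ _, d' u₀⟩, mem_filter.2
      ⟨hbase X' d' u', ⟨(card_le_card hball).trans (card_ball d' O), fun y hy => ?_⟩,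
        fun u hu y hy => ?_, S ⊓ autG X', inf_le_left,
        fun h hh => isAut_upto (S1 hh.1).2 hh.2 _, hP⟩⟩
    · have l1 : p ^ Nat.log p κ ≤ κ := Nat.pow_log_le_self p hκ.ne'
      refine l1.trans (le_trans ?_ (card_le_card (sorb_mono (inf_le_left (b := autG X')) y)))
      refine Nat.le_of_mul_le_mul_left (hq.trans ?_) (Nat.succ_pos d)
      rcases mem_ball.1 (hball hy) with h | ⟨u, hu, h⟩
      · exact (hP y h).trans (Nat.le_mul_of_pos_left _ (Nat.succ_pos d))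
      · refine (hP u hu).trans (le_trans (card_le_card fun w hw => ?_) (card_ball d' _))
        obtain ⟨g, hg, rfl⟩ := mem_sorb.1 hw
        exact mem_ball.2 (Or.inr ⟨g y, mem_sorb.2 ⟨g, hg, rfl⟩, (hg.2 _ _).2 h.symm⟩)
    · obtain ⟨g, hg, rfl⟩ := c'.2 u₀ u (((mO _).1 hu₀).trans ((mO _).1 hu).symm)
      obtain ⟨z, rfl⟩ := g.surjective y
      refine mem_union_right _ (mem_filter.2 ⟨mem_univ _, mem_image.2 ⟨z, mem_nb.2 ?_,
        (c'.1 g hg z).symm⟩⟩)
      exact (hg _ _).1 (mem_nb.1 hy).1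

end Pool.Agent.Lib.MP_449609_pr
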