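import Pool.Agent.Lib.MP_449609_pr.Cyc

set_option autoImplicit false
set_option linter.unusedSectionVars false

open Finset Equiv
open Classical

namespace Pool.Agent.Lib.MP_449609_pr

variable {V : Type} [Fintype V] [DecidableEq V]

/-- fixed vertices with a fixed neighbour -/
noncomputable def good (X : SimpleGraph V) (g : Perm V) : Finset V :=
  univ.filter fun x => g x = x ∧ ∃ y, X.Adj x y ∧ g y = y

theorem mem_good {X : SimpleGraph V} {g : Perm V} {x : V} :
    x ∈ good X g ↔ g x = x ∧ ∃ y, X.Adj x y ∧ g y = y := by simp [good]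

theorem good_mono {X Y : SimpleGraph V} (h : X ≤ Y) (g : Perm V) : good X g ⊆ good Y g := by
  intro x hx
  rw [mem_good] at *
  obtain ⟨h1, y, h2, h3⟩ := hx
  exact ⟨h1, y, h h2, h3⟩

/-- the orbit of an edge -/
def orb (g : Perm V) (u v : V) : SimpleGraph V :=
  SimpleGraph.fromRel fun x y => ∃ i : ℤ, x = (g ^ i) u ∧ y = (g ^ i) v

theorem orb_adj {g : Perm V} {u v x y : V} : (orb g u v).Adj x y ↔ x ≠ y ∧
    ((∃ i : ℤ, x = (g ^ i) u ∧ y = (g ^ i) v) ∨ ∃ i : ℤ, y = (g ^ i) u ∧ x = (g ^ i) v) := by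
  simp [orb, SimpleGraph.fromRel_adj]

theorem isAut_orb (g : Perm V) (u v : V) : IsAut (orb g u v) g := by
  have key : ∀ x y, (∃ i : ℤ, g x = (g ^ i) u ∧ g y = (g ^ i) v) ↔
      ∃ i : ℤ, x = (g ^ i) u ∧ y = (g ^ i) v := by
    intro x y
    constructor
    · rintro ⟨i, h1, h2⟩
      refine ⟨-1 + i, ?_, ?_⟩ <;> simp [zpow_add, ← h1, ← h2]
    · rintro ⟨i, h1, h2⟩
      refine ⟨1 + i, ?_, ?_⟩ <;> simp [zpow_add, ← h1, ← h2]
  intro x y
  simp only [orb_adj, key, ne_eq, EmbeddingLike.apply_eq_iff_eq]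

/-- pairs whose edge orbit can be added -/
def OrbOK (g : Perm V) (X : SimpleGraph V) (u v : V) : Prop :=
  per g u = per g v ∧ v ∉ cyc g u ∧ ¬ X.Adj u v

theorem orb_mem {g : Perm V} {u v x y : V} (h : (orb g u v).Adj x y) :
    x ∈ cyc g u ∪ cyc g v := by
  rcases (orb_adj.1 h).2 with ⟨i, h1, _⟩ | ⟨i, _, h1⟩
  · exact mem_union_left _ (h1 ▸ zpow_mem_cyc g u i)
  · exact mem_union_right _ (h1 ▸ zpow_mem_cyc g v i)

theorem card_nb_orb {g : Perm V} {u v : V} (hp : per g u = per g v) (hc : v ∉ cyc g u) (x : V) :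
    (nb (orb g u v) x).card ≤ 1 := by
  refine card_le_one.2 fun y hy z hz => ?_
  have hdis : ∀ i j : ℤ, (g ^ i) u ≠ (g ^ j) v := fun i j h => by
    apply hc
    rw [← zpow_apply_mem_cyc j, ← h]
    exact zpow_mem_cyc g u i
  rcases (orb_adj.1 (mem_nb.1 hy)).2 with ⟨i, h1, h2⟩ | ⟨i, h1, h2⟩ <;>
  rcases (orb_adj.1 (mem_nb.1 hz)).2 with ⟨j, h3, h4⟩ | ⟨j, h3, h4⟩
  · rw [h2, h4, zpow_eq_zpow_iff, ← hp, ← zpow_eq_zpow_iff, ← h1, ← h3]
  · exact absurd (h1.symm.trans h4) (hdis _ _)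
  · exact absurd (h3.symm.trans h2) (hdis _ _)
  · rw [h1, h3, zpow_eq_zpow_iff, hp, ← zpow_eq_zpow_iff, ← h2, ← h4]

theorem nb_sup (X Y : SimpleGraph V) (x : V) : nb (X ⊔ Y) x = nb X x ∪ nb Y x := by
  ext; simp

theorem nb_sup_orb_of_not_mem {X : SimpleGraph V} {g : Perm V} {u v x : V}
    (hx : x ∉ cyc g u ∪ cyc g v) : nb (X ⊔ orb g u v) x = nb X x := by
  ext y
  simp only [mem_nb, SimpleGraph.sup_adj, or_iff_left_iff_imp]
  exact fun h => absurd (orb_mem h) hx

theorem card_nb_sup_orb {X : SimpleGraph V} {g : Perm V} {u v : V} (h : OrbOK g X u v) (x : V) :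
    (nb (X ⊔ orb g u v) x).card ≤ (nb X x).card + 1 := by
  rw [nb_sup]
  exact (card_union_le _ _).trans (by gcongr; exact card_nb_orb h.1 h.2.1 x)

theorem IsAut.card_nb_of_mem {X : SimpleGraph V} {g : Perm V} (hX : IsAut X g) {u x : V}
    (hx : x ∈ cyc g u) : (nb X x).card = (nb X u).card := by
  obtain ⟨i, rfl⟩ := mem_cyc.1 hx
  exact (hX.zpow i).card_nb u

theorem deg_sup_orb {d : ℕ} {X : SimpleGraph V} {g : Perm V} {u v : V} (hX : X ∈ fixs d g)
    (h : OrbOK g X u v) (hu : (nb X u).card < d) (hv : (nb X v).card < d) :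
    X ⊔ orb g u v ∈ fixs d g := by
  rw [mem_fixs] at *
  refine ⟨fun x => ?_, hX.2.sup (isAut_orb g u v)⟩
  by_cases hx : x ∈ cyc g u ∪ cyc g v
  · have := card_nb_sup_orb h x
    rcases mem_union.1 hx with hx | hx
    · rw [hX.2.card_nb_of_mem hx] at this; omega
    · rw [hX.2.card_nb_of_mem hx] at this; omega
  · rw [nb_sup_orb_of_not_mem hx]; exact hX.1 x

theorem not_adj_of_orb {X : SimpleGraph V} {g : Perm V} {u v x y : V} (hX : IsAut X g)
    (h : ¬ X.Adj u v) (ho : (orb g u v).Adj x y) : ¬ X.Adj x y := by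
  rcases (orb_adj.1 ho).2 with ⟨i, rfl, rfl⟩ | ⟨i, rfl, rfl⟩
  · rwa [hX.zpow i]
  · rwa [hX.zpow i, X.adj_comm]

theorem orb_count {g : Perm V} {d : ℕ} (A B : Finset (SimpleGraph V)) (U : Finset V)
    (P : SimpleGraph V → Finset (V × V)) (a : ℕ) (hA : ∀ X ∈ A, IsAut X g)
    (hP : ∀ X ∈ A, a ≤ (P X).card)
    (hok : ∀ X ∈ A, ∀ p ∈ P X, OrbOK g X p.1 p.2 ∧ p.1 ∈ U ∧ X ⊔ orb g p.1 p.2 ∈ B)
    (hB : ∀ Y ∈ B, Deg d Y) : A.card * a ≤ B.card * (d * U.card) := by
  refine dcount A B P (fun X p => X ⊔ orb g p.1 p.2) (fun Y => arcsFrom Y U) a _ hP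
    (fun X hX p hp => (hok X hX p hp).2.2) (fun Y hY => card_arcsFrom (hB Y hY) U)
    (fun X hX p hp => ?_) fun X hX X' hX' p hp hp' h => ?_
  · obtain ⟨h1, h2, _⟩ := hok X hX p hp
    simp only [arcsFrom, mem_filter, mem_univ, true_and, h2, SimpleGraph.sup_adj]
    right
    rw [orb_adj]
    refine ⟨fun h => h1.2.1 (h ▸ self_mem_cyc g p.1), Or.inl ⟨0, by simp⟩⟩
  · ext x y
    have e := congrArg (fun Z : SimpleGraph V => Z.Adj x y) h
    simp only [SimpleGraph.sup_adj, eq_iff_iff] at e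
    by_cases ho : (orb g p.1 p.2).Adj x y
    · exact iff_of_false (not_adj_of_orb (hA X hX) (hok X hX p hp).1.2.2 ho)
        (not_adj_of_orb (hA X' hX') (hok X' hX' p hp').1.2.2 ho)
    · simpa [ho] using e

noncomputable def orbPairs (g : Perm V) (X : SimpleGraph V) (A : Finset V) : Finset (V × V) :=
  (A ×ˢ A).filter fun p => OrbOK g X p.1 p.2

theorem card_orbPairs {g : Perm V} {X : SimpleGraph V} {d L m : ℕ} (hX : Deg d X) (A : Finset V)
    (hL : 0 < L) (hA : ∀ x ∈ A, per g x ≤ L) (hm : L * m ≤ A.card) :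
    m * (m - L - d) ≤ (orbPairs g X A).card := by
  obtain ⟨l, hl, hl'⟩ := exists_le_card_fiber_of_mul_le_card_of_maps_to (s := A) (t := Icc 1 L)
    (f := per g) (n := m) (fun x hx => mem_Icc.2 ⟨per_pos g x, hA x hx⟩)
    (nonempty_Icc.2 hL) (by simpa using hm)
  set A' := A.filter fun x => per g x = l with hA'
  have h1 : ∀ u ∈ A', m - L - d ≤ (A' \ (cyc g u ∪ nb X u)).card := by
    intro u hu
    have h2 := le_card_sdiff (cyc g u ∪ nb X u) A'
    have h3 := card_union_le (cyc g u) (nb X u)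
    have h4 := hX u
    have h5 := hA u (mem_filter.1 hu).1
    rw [card_cyc] at h3
    omega
  calc m * (m - L - d) ≤ A'.card * (m - L - d) := by gcongr
    _ ≤ ∑ u ∈ A', (A' \ (cyc g u ∪ nb X u)).card := by
        rw [← smul_eq_mul]; exact card_nsmul_le_sum _ _ _ h1
    _ = (A'.sigma fun u => A' \ (cyc g u ∪ nb X u)).card := (card_sigma _ _).symm
    _ ≤ _ := by
        refine card_le_card_of_injOn (fun q => (q.1, q.2)) (fun q hq => ?_) fun q _ q' _ h => ?_
        · simp only [coe_sigma, Set.mem_sigma_iff, mem_coe, hA', mem_filter, mem_sdiff, mem_union,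
            not_or, mem_nb] at hq
          simp only [orbPairs, coe_filter, mem_product, Set.mem_ofPred_eq]
          exact ⟨⟨hq.1.1, hq.2.1.1⟩, hq.1.2.trans hq.2.1.2.symm, hq.2.2.1, hq.2.2.2⟩
        · obtain ⟨a, b⟩ := q
          obtain ⟨a', b'⟩ := q'
          simp only [Prod.mk.injEq] at h
          obtain ⟨rfl, rfl⟩ := h
          rfl

/-- remove `x y`, add `a x` and `b y` -/
def sw (X : SimpleGraph V) (a b x y : V) : SimpleGraph V :=
  (X \ SimpleGraph.edge x y) ⊔ SimpleGraph.edge a x ⊔ SimpleGraph.edge b y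

theorem sw_adj {X : SimpleGraph V} {a b x y u v : V} : (sw X a b x y).Adj u v ↔
    (X.Adj u v ∧ ¬ (u = x ∧ v = y ∨ u = y ∧ v = x)) ∨
      ((u = a ∧ v = x ∨ u = x ∧ v = a) ∧ u ≠ v) ∨ ((u = b ∧ v = y ∨ u = y ∧ v = b) ∧ u ≠ v) := by
  simp only [sw, SimpleGraph.sup_adj, SimpleGraph.sdiff_adj, SimpleGraph.edge_adj, or_assoc]
  refine or_congr (and_congr_right fun h => ?_) Iff.rfl
  simp [h.ne]

/-- admissible switchings -/
def SwOK (g : Perm V) (X : SimpleGraph V) (C : Finset V) (a b x y : V) : Prop :=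
  g x = x ∧ g y = y ∧ X.Adj x y ∧ x ∉ C ∧ y ∉ C ∧ ¬ X.Adj a x ∧ ¬ X.Adj b y

theorem isAut_sw {g : Perm V} {X : SimpleGraph V} {a b x y : V} (hX : IsAut X g) (ha : g a = a)
    (hb : g b = b) (hx : g x = x) (hy : g y = y) : IsAut (sw X a b x y) g := by
  have e : ∀ z u, g z = z → (g u = z ↔ u = z) := fun z u hz => by
    conv_lhs => rw [← hz]
    simp
  intro u v
  simp only [sw_adj, hX u v, e _ _ ha, e _ _ hb, e _ _ hx, e _ _ hy, ne_eq,
    EmbeddingLike.apply_eq_iff_eq]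

theorem card_nb_sw {g : Perm V} {X : SimpleGraph V} {C : Finset V} {a b x y : V}
    (h : SwOK g X C a b x y) (ha : a ∈ C) (hb : b ∈ C) (u : V) :
    (nb (sw X a b x y) u).card ≤
      (nb X u).card + (if u = a then 1 else 0) + (if u = b then 1 else 0) := by
  obtain ⟨_, _, hxy, hx, hy, _, _⟩ := h
  have hxa : x ≠ a := fun h => hx (h ▸ ha)
  have hxb : x ≠ b := fun h => hx (h ▸ hb)
  have hya : y ≠ a := fun h => hy (h ▸ ha)
  have hyb : y ≠ b := fun h => hy (h ▸ hb)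
  have hne := hxy.ne
  by_cases hux : u = x
  · subst hux
    have : nb (sw X a b u y) u ⊆ insert a ((nb X u).erase y) := by
      intro v hv
      simp only [mem_nb, sw_adj] at hv
      simp only [mem_insert, mem_erase, mem_nb]
      tauto
    have h1 := (card_le_card this).trans (card_insert_le _ _)
    rw [card_erase_of_mem (mem_nb.2 hxy)] at h1
    have := card_pos.2 ⟨y, mem_nb.2 hxy⟩
    omega
  by_cases huy : u = y
  · subst huy
    have : nb (sw X a b x u) u ⊆ insert b ((nb X u).erase x) := by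
      intro v hv
      simp only [mem_nb, sw_adj] at hv
      simp only [mem_insert, mem_erase, mem_nb]
      tauto
    have h1 := (card_le_card this).trans (card_insert_le _ _)
    rw [card_erase_of_mem (mem_nb.2 hxy.symm)] at h1
    have := card_pos.2 ⟨x, mem_nb.2 hxy.symm⟩
    omega
  have : nb (sw X a b x y) u ⊆ nb X u ∪ (if u = a then {x} else ∅) ∪
      (if u = b then {y} else ∅) := by
    intro v hv
    simp only [mem_nb, sw_adj] at hv
    simp only [mem_union, mem_nb]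
    rcases hv with h | h | h
    · exact Or.inl (Or.inl h.1)
    · rcases h.1 with h | h
      · left; right; simp [h.1, h.2]
      · exact absurd h.1 hux
    · rcases h.1 with h | h
      · right; simp [h.1, h.2]
      · exact absurd h.1 huy
  refine (card_le_card this).trans ((card_union_le _ _).trans ?_)
  gcongr
  · refine (card_union_le _ _).trans ?_
    gcongr
    split_ifs <;> simp
  · split_ifs <;> simp

theorem sw_adj_ax {g : Perm V} {X : SimpleGraph V} {C : Finset V} {a b x y : V}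
    (h : SwOK g X C a b x y) (ha : a ∈ C) : (sw X a b x y).Adj a x := by
  have hxa : a ≠ x := fun h' => h.2.2.2.1 (h' ▸ ha)
  simp [sw_adj, hxa]

theorem sw_adj_by {g : Perm V} {X : SimpleGraph V} {C : Finset V} {a b x y : V}
    (h : SwOK g X C a b x y) (hb : b ∈ C) : (sw X a b x y).Adj b y := by
  have hyb : b ≠ y := fun h' => h.2.2.2.2.1 (h' ▸ hb)
  simp [sw_adj, hyb]

theorem good_sw {g : Perm V} {X : SimpleGraph V} {C : Finset V} {a b x y : V}
    (h : SwOK g X C a b x y) (ha : a ∈ C) (hb : b ∈ C) (ga : g a = a) (gb : g b = b) :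
    good X g ⊆ good (sw X a b x y) g := by
  intro u hu
  rw [mem_good] at *
  obtain ⟨h1, v, h2, h3⟩ := hu
  refine ⟨h1, ?_⟩
  by_cases hux : u = x
  · exact ⟨a, hux ▸ (sw_adj_ax h ha).symm, ga⟩
  by_cases huy : u = y
  · exact ⟨b, huy ▸ (sw_adj_by h hb).symm, gb⟩
  exact ⟨v, sw_adj.2 (Or.inl ⟨h2, by tauto⟩), h3⟩

theorem le_sw {g : Perm V} {X H : SimpleGraph V} {C : Finset V} {a b x y : V}
    (h : SwOK g X C a b x y) (hH : Inside H C) (hle : H ≤ X) : H ≤ sw X a b x y := by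
  intro u v huv
  refine sw_adj.2 (Or.inl ⟨hle huv, ?_⟩)
  have := hH _ _ huv
  rintro (⟨rfl, rfl⟩ | ⟨rfl, rfl⟩)
  · exact h.2.2.2.1 this
  · exact h.2.2.2.2.1 this

theorem sw_inj {g : Perm V} {X X' : SimpleGraph V} {C : Finset V} {a b x y : V}
    (h : SwOK g X C a b x y) (h' : SwOK g X' C a b x y) (e : sw X a b x y = sw X' a b x y) :
    X = X' := by
  ext u v
  have e' := congrArg (fun Z : SimpleGraph V => Z.Adj u v) e
  simp only [sw_adj, eq_iff_iff] at e'
  obtain ⟨_, _, h1, _, _, h2, h3⟩ := h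
  obtain ⟨_, _, h1', _, _, h2', h3'⟩ := h'
  by_cases c1 : u = x ∧ v = y ∨ u = y ∧ v = x
  · rcases c1 with ⟨rfl, rfl⟩ | ⟨rfl, rfl⟩
    · exact iff_of_true h1 h1'
    · exact iff_of_true h1.symm h1'.symm
  by_cases c2 : u = a ∧ v = x ∨ u = x ∧ v = a
  · rcases c2 with ⟨rfl, rfl⟩ | ⟨rfl, rfl⟩
    · exact iff_of_false h2 h2'
    · exact iff_of_false (fun h => h2 h.symm) (fun h => h2' h.symm)
  by_cases c3 : u = b ∧ v = y ∨ u = y ∧ v = b
  · rcases c3 with ⟨rfl, rfl⟩ | ⟨rfl, rfl⟩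
    · exact iff_of_false h3 h3'
    · exact iff_of_false (fun h => h3 h.symm) (fun h => h3' h.symm)
  simpa [c1, c2, c3] using e'

noncomputable def swPairs (g : Perm V) (X : SimpleGraph V) (C : Finset V) (a b : V) :
    Finset (V × V) := univ.filter fun p => SwOK g X C a b p.1 p.2

theorem mem_swPairs {g : Perm V} {X : SimpleGraph V} {C : Finset V} {a b : V} {p : V × V} :
    p ∈ swPairs g X C a b ↔ SwOK g X C a b p.1 p.2 := by simp [swPairs]

theorem card_swPairs {g : Perm V} {X : SimpleGraph V} {d : ℕ} (hX : Deg d X) {C : Finset V}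
    {a b : V} (ha : a ∈ C) (hb : b ∈ C) :
    (good X g).card - (d + 1) ^ 2 * C.card ≤ (swPairs g X C a b).card := by
  have h1 := card_ball hX C
  have h2 := card_ball hX (ball X C)
  have h3 := le_card_sdiff (ball X (ball X C)) (good X g)
  have h4 : good X g \ ball X (ball X C) ⊆ (swPairs g X C a b).image Prod.fst := by
    intro x hx
    rw [mem_sdiff, mem_good] at hx
    obtain ⟨⟨g1, y, g2, g3⟩, g4⟩ := hx
    refine mem_image.2 ⟨(x, y), mem_swPairs.2 ⟨g1, g3, g2, fun h => g4 ?_, fun h => g4 ?_,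
      fun h => g4 ?_, fun h => g4 ?_⟩, rfl⟩
    · exact mem_ball.2 (Or.inl (mem_ball.2 (Or.inl h)))
    · exact mem_ball.2 (Or.inl (mem_ball.2 (Or.inr ⟨y, h, g2.symm⟩)))
    · exact mem_ball.2 (Or.inl (mem_ball.2 (Or.inr ⟨a, ha, h⟩)))
    · exact mem_ball.2 (Or.inr ⟨y, mem_ball.2 (Or.inr ⟨b, hb, h⟩), g2.symm⟩)
  have h5 := (card_le_card h4).trans card_image_le
  have h6 : (ball X (ball X C)).card ≤ (d + 1) ^ 2 * C.card := by
    calc _ ≤ (d + 1) * ((d + 1) * C.card) := h2.trans (by gcongr)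
      _ = _ := by ring
  omega

end Pool.Agent.Lib.MP_449609_pr
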