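import Pool.Agent.Lib.MP_449609_pr.Entry

set_option autoImplicit false
set_option linter.unusedSectionVars false

open Finset Equiv
open Classical

namespace Pool.Agent.Lib.MP_449609_pr

variable {V : Type} [Fintype V] [DecidableEq V]

/-- connected component -/
noncomputable def comp (X : SimpleGraph V) (v : V) : Finset V := univ.filter (X.Reachable v)

theorem mem_comp {X : SimpleGraph V} {v u : V} : u ∈ comp X v ↔ X.Reachable v u := by simp [comp]

theorem self_mem_comp (X : SimpleGraph V) (v : V) : v ∈ comp X v := mem_comp.2 .rfl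

/-- no edge leaves `S` -/
def Closed (X : SimpleGraph V) (S : Finset V) : Prop := ∀ x ∈ S, ∀ y, X.Adj x y → y ∈ S

theorem closed_comp (X : SimpleGraph V) (v : V) : Closed X (comp X v) := fun _ hx _ h =>
  mem_comp.2 ((mem_comp.1 hx).trans h.reachable)

theorem Closed.comp_subset {X : SimpleGraph V} {S : Finset V} (h : Closed X S) {v : V}
    (hv : v ∈ S) : comp X v ⊆ S := by
  intro u hu
  rw [mem_comp, SimpleGraph.reachable_iff_reflTransGen] at hu
  induction hu with
  | refl => exact hv
  | tail _ h2 ih => exact h _ ih _ h2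

theorem comp_eq_of_mem {X : SimpleGraph V} {v u : V} (h : u ∈ comp X v) : comp X u = comp X v := by
  ext w
  simp only [mem_comp] at *
  exact ⟨fun h' => h.trans h', fun h' => h.symm.trans h'⟩

/-- restriction to `S` -/
def res (X : SimpleGraph V) (S : Finset V) : SimpleGraph V where
  Adj x y := X.Adj x y ∧ x ∈ S ∧ y ∈ S
  symm := ⟨fun _ _ h => ⟨h.1.symm, h.2.2, h.2.1⟩⟩
  loopless := ⟨fun _ h => h.1.ne rfl⟩

theorem res_adj {X : SimpleGraph V} {S : Finset V} {x y : V} :
    (res X S).Adj x y ↔ X.Adj x y ∧ x ∈ S ∧ y ∈ S := Iff.rfl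

/-- isomorphism type of the component of `v` -/
noncomputable def ty (X : SimpleGraph V) (v : V) : Finset (Finset V × SimpleGraph V) :=
  univ.image fun σ : Perm V => ((comp X v).image σ, act σ (res X (comp X v)))

theorem ty_eq_iff {X X' : SimpleGraph V} {v v' : V} : ty X v = ty X' v' ↔ ∃ σ : Perm V,
    (comp X v).image σ = comp X' v' ∧ act σ (res X (comp X v)) = res X' (comp X' v') := by
  constructor
  · intro h
    have : (comp X' v', res X' (comp X' v')) ∈ ty X' v' :=
      mem_image.2 ⟨1, mem_univ _, by simp [act_one]⟩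
    rw [← h] at this
    obtain ⟨σ, _, e⟩ := mem_image.1 this
    exact ⟨σ, by simpa using e⟩
  · rintro ⟨σ, h1, h2⟩
    unfold ty
    rw [← h2, ← h1]
    ext p
    simp only [mem_image, mem_univ, true_and, image_image, ← act_mul, ← Perm.coe_mul]
    exact ⟨fun ⟨τ, h⟩ => ⟨τ * σ⁻¹, by simpa using h⟩, fun ⟨τ, h⟩ => ⟨_, h⟩⟩

theorem ty_eq_of_mem {X : SimpleGraph V} {v u : V} (h : u ∈ comp X v) : ty X u = ty X v := by
  unfold ty; rw [comp_eq_of_mem h]

theorem comp_local {X X' : SimpleGraph V} {v : V}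
    (h : ∀ x ∈ comp X v, ∀ y, X.Adj x y ↔ X'.Adj x y) : comp X' v = comp X v := by
  refine Subset.antisymm (Closed.comp_subset (fun x hx y e => closed_comp X v x hx y
    ((h x hx y).2 e)) (self_mem_comp X v)) fun u hu => ?_
  rw [mem_comp, SimpleGraph.reachable_iff_reflTransGen] at hu
  induction hu with
  | refl => exact self_mem_comp _ _
  | tail h1 h2 ih =>
    exact closed_comp X' v _ ih _ ((h _ (mem_comp.2
      ((SimpleGraph.reachable_iff_reflTransGen _ _).2 h1)) _).1 h2)

theorem ty_local {X X' : SimpleGraph V} {v : V}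
    (h : ∀ x ∈ comp X v, ∀ y, X.Adj x y ↔ X'.Adj x y) : ty X' v = ty X v := by
  unfold ty
  have : res X' (comp X v) = res X (comp X v) := by
    ext x y
    simp only [res_adj]
    exact and_congr_left fun e => (h x e.1 y).symm
  rw [comp_local h, this]

theorem comp_act (σ : Perm V) (X : SimpleGraph V) (v : V) :
    comp (act σ X) (σ v) = (comp X v).image σ := by
  have key : ∀ (σ : Perm V) (X : SimpleGraph V) (v : V),
      (comp X v).image σ ⊆ comp (act σ X) (σ v) := by
    intro σ X v u hu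
    obtain ⟨w, hw, rfl⟩ := mem_image.1 hu
    exact mem_comp.2 ((mem_comp.1 hw).map (G' := act σ X) ⟨σ, fun h => act_adj'.2 h⟩)
  refine Subset.antisymm (fun u hu => ?_) (key σ X v)
  have := key σ⁻¹ (act σ X) (σ v) (mem_image_of_mem _ hu)
  rw [← act_mul, inv_mul_cancel, act_one] at this
  exact mem_image.2 ⟨σ⁻¹ u, by simpa using this, by simp⟩

theorem ty_act (σ : Perm V) (X : SimpleGraph V) (v : V) : ty (act σ X) (σ v) = ty X v := by
  refine (ty_eq_iff.2 ⟨σ, (comp_act σ X v).symm, ?_⟩).symm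
  ext x y
  obtain ⟨x, rfl⟩ := σ.surjective x
  obtain ⟨y, rfl⟩ := σ.surjective y
  simp [act_adj', res_adj, comp_act]

theorem ty_eq_bot_iff {X : SimpleGraph V} {v w : V} : ty X v = ty ⊥ w ↔ nb X v = ∅ := by
  have hb : ∀ (Y : SimpleGraph V) (u : V), nb Y u = ∅ → comp Y u = {u} := fun Y u h =>
    Subset.antisymm (Closed.comp_subset (fun x hx y e => by
      rw [mem_singleton.1 hx] at e
      simpa [h] using mem_nb.2 e) (mem_singleton_self u)) (by simp [self_mem_comp])
  have hw := hb ⊥ w (by ext; simp)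
  rw [ty_eq_iff]
  constructor
  · rintro ⟨σ, h1, _⟩
    refine eq_empty_of_forall_notMem fun y hy => ?_
    have a1 := mem_image_of_mem σ (self_mem_comp X v)
    have a2 := mem_image_of_mem σ (closed_comp X v _ (self_mem_comp X v) _ (mem_nb.1 hy))
    rw [h1, hw, mem_singleton] at a1 a2
    exact (mem_nb.1 hy).ne (σ.injective (a1.trans a2.symm))
  · intro h
    refine ⟨swap v w, by simp [hb X v h, hw], ?_⟩
    ext x y
    simp only [act_adj, res_adj, hb X v h, mem_singleton, SimpleGraph.bot_adj, false_and,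
      iff_false, not_and]
    exact fun e e1 e2 => e.ne (e1.trans e2.symm)

/-- number of vertices of `S` of a given type -/
noncomputable def cnt (X : SimpleGraph V) (S : Finset V) (j : Finset (Finset V × SimpleGraph V)) :
    ℕ := (S.filter fun v => ty X v = j).card

theorem cnt_split {X : SimpleGraph V} {S : Finset V} (hS : Closed X S) {v : V} (hv : v ∈ S)
    (j : Finset (Finset V × SimpleGraph V)) :
    cnt X S j = cnt X (S \ comp X v) j + if ty X v = j then (comp X v).card else 0 := by
  unfold cnt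
  conv_lhs => rw [← sdiff_union_of_subset (hS.comp_subset hv), filter_union]
  rw [card_union_of_disjoint (disjoint_filter_filter sdiff_disjoint)]
  congr 1
  split_ifs with h
  · rw [filter_true_of_mem fun u hu => (ty_eq_of_mem hu).trans h]
  · rw [filter_false_of_mem fun u hu e => h ((ty_eq_of_mem hu).symm.trans e), card_empty]

theorem Closed.sdiff_comp {X : SimpleGraph V} {S : Finset V} (hS : Closed X S) (v : V) :
    Closed X (S \ comp X v) := fun x hx y h => by
  rw [mem_sdiff] at *
  exact ⟨hS x hx.1 y h, fun e => hx.2 (closed_comp X v y e x h.symm)⟩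

theorem iso_of_cnt_aux (X X' : SimpleGraph V) (S : Finset V) : ∀ S', Closed X S → Closed X' S' →
    (∀ j, cnt X S j = cnt X' S' j) → ∃ φ : V → V, (∀ x ∈ S, φ x ∈ S') ∧
      (∀ x ∈ S, ∀ y ∈ S, φ x = φ y → x = y) ∧
      ∀ x ∈ S, ∀ y ∈ S, X'.Adj (φ x) (φ y) ↔ X.Adj x y := by
  induction S using Finset.strongInduction with
  | H S ih =>
    intro S' hS hS' h
    rcases S.eq_empty_or_nonempty with rfl | ⟨v, hv⟩
    · exact ⟨id, by simp, by simp, by simp⟩
    have : 0 < cnt X' S' (ty X v) := h _ ▸ card_pos.2 ⟨v, mem_filter.2 ⟨hv, rfl⟩⟩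
    obtain ⟨v', hv'⟩ := card_pos.1 this
    obtain ⟨hv', e⟩ := mem_filter.1 hv'
    obtain ⟨σ, s1, s2⟩ := ty_eq_iff.1 e.symm
    obtain ⟨φ, f1, f2, f3⟩ := ih (S \ comp X v)
      (sdiff_ssubset (hS.comp_subset hv) ⟨v, self_mem_comp X v⟩) (S' \ comp X' v')
      (hS.sdiff_comp v) (hS'.sdiff_comp v') fun j => by
        have a1 := cnt_split hS hv j
        have a2 := cnt_split hS' hv' j
        rw [e, ← s1, card_image_of_injective _ σ.injective, s1] at a2
        have := h j
        omega
    have m1 : ∀ x ∈ comp X v, σ x ∈ comp X' v' := fun x hx => s1 ▸ mem_image_of_mem _ hx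
    have m2 : ∀ x ∈ S, x ∉ comp X v → φ x ∉ comp X' v' := fun x hx hx' =>
      (mem_sdiff.1 (f1 x (mem_sdiff.2 ⟨hx, hx'⟩))).2
    refine ⟨fun x => if x ∈ comp X v then σ x else φ x, fun x hx => ?_, fun x hx y hy => ?_,
      fun x hx y hy => ?_⟩
    · simp only
      split_ifs with c
      · exact hS'.comp_subset hv' (m1 x c)
      · exact (mem_sdiff.1 (f1 x (mem_sdiff.2 ⟨hx, c⟩))).1
    · simp only
      split_ifs with c1 c2 c2
      · exact fun e => σ.injective e
      · exact fun e => absurd (e ▸ m1 x c1) (m2 y hy c2)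
      · exact fun e => absurd (e ▸ m1 y c2) (m2 x hx c1)
      · exact f2 x (mem_sdiff.2 ⟨hx, c1⟩) y (mem_sdiff.2 ⟨hy, c2⟩)
    · simp only
      split_ifs with c1 c2 c2
      · have := congrArg (fun Z : SimpleGraph V => Z.Adj (σ x) (σ y)) s2
        simpa [act_adj', res_adj, c1, c2, m1 x c1, m1 y c2] using this.symm
      · exact iff_of_false (fun e => m2 y hy c2 (closed_comp _ _ _ (m1 x c1) _ e))
          fun e => c2 (closed_comp _ _ _ c1 _ e)
      · exact iff_of_false (fun e => m2 x hx c1 (closed_comp _ _ _ (m1 y c2) _ e.symm))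
          fun e => c1 (closed_comp _ _ _ c2 _ e.symm)
      · exact f3 x (mem_sdiff.2 ⟨hx, c1⟩) y (mem_sdiff.2 ⟨hy, c2⟩)

theorem iso_of_cnt {X X' : SimpleGraph V} (h : ∀ j, cnt X univ j = cnt X' univ j) :
    ∃ σ, X' = act σ X := by
  obtain ⟨φ, _, f2, f3⟩ := iso_of_cnt_aux X X' univ univ (fun _ _ _ _ => mem_univ _)
    (fun _ _ _ _ => mem_univ _) h
  have hb : Function.Bijective φ :=
    Finite.injective_iff_bijective.1 fun x y => f2 x (mem_univ _) y (mem_univ _)
  refine ⟨Equiv.ofBijective φ hb, ?_⟩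
  ext x y
  obtain ⟨x, rfl⟩ := (Equiv.ofBijective φ hb).surjective x
  obtain ⟨y, rfl⟩ := (Equiv.ofBijective φ hb).surjective y
  rw [act_adj']
  exact f3 x (mem_univ _) y (mem_univ _)

theorem cnt_act (σ : Perm V) (X : SimpleGraph V) (j : Finset (Finset V × SimpleGraph V)) :
    cnt (act σ X) univ j = cnt X univ j := by
  symm
  refine card_bij (fun v _ => σ v) (fun v hv => ?_) (fun _ _ _ _ h => σ.injective h)
    fun w hw => ⟨σ⁻¹ w, ?_, by simp⟩
  · simpa [ty_act] using hv
  · rw [mem_filter, ← ty_act σ]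
    simpa using hw

/-- two graphs without common non-isolated vertex -/
def Disj (B R : SimpleGraph V) : Prop := ∀ v, nb B v = ∅ ∨ nb R v = ∅

theorem Disj.symm {B R : SimpleGraph V} (h : Disj B R) : Disj R B := fun v => (h v).symm

theorem Disj.deg {d : ℕ} {B R : SimpleGraph V} (h : Disj B R) (hB : Deg d B) (hR : Deg d R) :
    Deg d (B ⊔ R) := fun v => by
  rw [nb_sup]
  rcases h v with e | e <;> simp [e, hB v, hR v]

theorem Disj.ty_sup {B R : SimpleGraph V} (h : Disj B R) {v : V} (hv : nb R v = ∅) :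
    ty (B ⊔ R) v = ty B v := by
  refine ty_local fun x hx y => ?_
  have : nb R x = ∅ := by
    rw [mem_comp, SimpleGraph.reachable_iff_reflTransGen] at hx
    cases hx with
    | refl => exact hv
    | tail _ h2 => exact (h x).resolve_left (ne_empty_of_mem (mem_nb.2 h2.symm))
  have : ¬ R.Adj x y := fun e => by simpa [this] using mem_nb.2 e
  simp [this]

theorem Disj.cnt_sup {B R : SimpleGraph V} (h : Disj B R) {w : V}
    {j : Finset (Finset V × SimpleGraph V)} (hj : j ≠ ty ⊥ w) :
    cnt (B ⊔ R) univ j = cnt B univ j + cnt R univ j := by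
  unfold cnt
  rw [← card_union_of_disjoint, ← filter_or]
  · congr 1
    refine filter_congr fun v _ => ?_
    rcases h v with e | e
    · rw [sup_comm, h.symm.ty_sup e, (ty_eq_bot_iff (w := w)).2 e]
      simp [hj.symm]
    · rw [h.ty_sup e, (ty_eq_bot_iff (X := R) (w := w)).2 e]
      simp [hj.symm]
  · refine disjoint_filter.2 fun v _ e1 e2 => hj ?_
    rcases h v with e | e
    · exact e1.symm.trans (ty_eq_bot_iff.2 e)
    · exact e2.symm.trans (ty_eq_bot_iff.2 e)

theorem exists_disj (B R : SimpleGraph V)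
    (h : (univ.filter fun v => nb B v ≠ ∅).card + (univ.filter fun v => nb R v ≠ ∅).card ≤
      Fintype.card V) : ∃ σ, Disj (act σ B) R := by
  obtain ⟨T, h1, h2⟩ := exists_subset_card_eq (s := (univ.filter fun v => nb R v ≠ ∅)ᶜ)
    (n := (univ.filter fun v => nb B v ≠ ∅).card) (by rw [card_compl]; omega)
  obtain ⟨σ, h3⟩ := Perm.exists_map_finset_eq _ _ h2.symm
  refine ⟨σ, fun v => ?_⟩
  obtain ⟨u, rfl⟩ := σ.surjective v
  by_cases hu : nb B u = ∅
  · left; rw [nb_act, hu, map_empty]
  · right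
    have : σ u ∈ T := h3 ▸ mem_map_of_mem σ.toEmbedding (mem_filter.2 ⟨mem_univ _, hu⟩)
    simpa using h1 this

/-- the component of `v` is a path or a cycle -/
def Line (X : SimpleGraph V) (v : V) (m : ℕ) (b : Prop) : Prop :=
  ∃ p : ℕ → V, (∀ i < m, ∀ j < m, p i = p j → i = j) ∧ comp X v = (range m).image p ∧
    ∀ i < m, ∀ j < m, X.Adj (p i) (p j) ↔
      (j = i + 1 ∨ i = j + 1 ∨ (b ∧ (i = 0 ∧ j + 1 = m ∨ j = 0 ∧ i + 1 = m)))

theorem Line.ty_eq {X X' : SimpleGraph V} {v v' : V} {m : ℕ} {b : Prop} (h : Line X v m b)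
    (h' : Line X' v' m b) : ty X v = ty X' v' := by
  obtain ⟨p, p1, p2, p3⟩ := h
  obtain ⟨q, q1, q2, q3⟩ := h'
  obtain ⟨σ, hσ⟩ := Perm.exists_extending_pair (fun i : Fin m => p i) (fun i : Fin m => q i)
    (fun i j e => Fin.ext (p1 _ i.2 _ j.2 e)) (fun i j e => Fin.ext (q1 _ i.2 _ j.2 e))
  have s : ∀ i < m, σ (p i) = q i := fun i hi => hσ ⟨i, hi⟩
  have e : (comp X v).image σ = comp X' v' := by
    rw [p2, q2, image_image]
    exact image_congr fun i hi => s i (by simpa using hi)
  refine ty_eq_iff.2 ⟨σ, e, ?_⟩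
  ext x y
  obtain ⟨x, rfl⟩ := σ.surjective x
  obtain ⟨y, rfl⟩ := σ.surjective y
  rw [act_adj', res_adj, res_adj, ← e, σ.injective.mem_finset_image, σ.injective.mem_finset_image]
  refine and_congr_left fun c => ?_
  rw [p2] at c
  obtain ⟨i, hi, rfl⟩ := mem_image.1 c.1
  obtain ⟨j, hj, rfl⟩ := mem_image.1 c.2
  rw [mem_range] at hi hj
  rw [s i hi, s j hj, p3 i hi j hj, q3 i hi j hj]

theorem exists_line {X : SimpleGraph V} (hX : Deg 2 X) (v : V) :
    ∃ m ≤ Fintype.card V, ∃ b, Line X v m b := by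
  let P : ℕ → Prop := fun m => ∃ p : ℕ → V, (∀ i < m, ∀ j < m, p i = p j → i = j) ∧
    p 0 ∈ comp X v ∧ ∀ i, i + 1 < m → X.Adj (p i) (p (i + 1))
  have hb : ∀ m, P m → m ≤ Fintype.card V := by
    rintro m ⟨p, p1, _⟩
    have := card_le_univ ((range m).image p)
    rwa [card_image_of_injOn fun i hi j hj => p1 i (by simpa using hi) j (by simpa using hj),
      card_range] at this
  have h1 : P 1 := ⟨fun _ => v, fun i hi j hj _ => by omega, self_mem_comp X v,
    fun i hi => by omega⟩
  set m := Nat.findGreatest P (Fintype.card V)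
  have m1 : 1 ≤ m := Nat.le_findGreatest (hb 1 h1) h1
  have m2 : ¬ P (m + 1) := fun h => by
    have := Nat.le_findGreatest (hb _ h) h
    omega
  obtain ⟨p, p1, p2, p3⟩ : P m := Nat.findGreatest_spec (hb 1 h1) h1
  have k1 : ∀ i, 0 < i → i + 1 < m → ∀ y, X.Adj (p i) y → y = p (i + 1) ∨ y = p (i - 1) := by
    intro i h0 hi y hy
    have a1 := p3 (i - 1) (by omega)
    rw [show i - 1 + 1 = i by omega] at a1
    have a2 : ({p (i + 1), p (i - 1)} : Finset V) = nb X (p i) := by
      refine eq_of_subset_of_card_le ?_ ?_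
      · exact insert_subset (mem_nb.2 (p3 i hi)) (singleton_subset_iff.2 (mem_nb.2 a1.symm))
      · rw [card_pair fun e => by have := p1 _ hi _ (by omega) e; omega]
        exact hX _
    simpa [← a2] using mem_nb.2 hy
  have k2 : Closed X ((range m).image p) := by
    intro x hx y hy
    obtain ⟨i, hi, rfl⟩ := mem_image.1 hx
    rw [mem_range] at hi
    by_contra hn
    have hn' : ∀ k < m, p k ≠ y := fun k hk e => hn (mem_image.2 ⟨k, mem_range.2 hk, e⟩)
    rcases Nat.eq_zero_or_pos i with rfl | h0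
    · refine m2 ⟨fun k => if k = 0 then y else p (k - 1), fun a ha b hb => ?_, ?_, fun a ha => ?_⟩
      · simp only
        split_ifs with c1 c2 c2
        · omega
        · exact fun e => absurd e.symm (hn' _ (by omega))
        · exact fun e => absurd e (hn' _ (by omega))
        · intro e
          have := p1 _ (by omega) _ (by omega) e
          omega
      · exact closed_comp X v _ p2 _ hy
      · rcases a with _ | a
        · simpa using hy.symm
        · simpa using p3 a (by omega)
    rcases (Nat.succ_le_of_lt hi).lt_or_eq with h1 | h1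
    · rcases k1 i h0 h1 y hy with e | e
      · exact hn' _ h1 e.symm
      · exact hn' _ (by omega) e.symm
    · refine m2 ⟨fun k => if k = m then y else p k, fun a ha b hb => ?_, ?_, fun a ha => ?_⟩
      · simp only
        split_ifs with c1 c2 c2
        · omega
        · exact fun e => absurd e.symm (hn' _ (by omega))
        · exact fun e => absurd e (hn' _ (by omega))
        · exact p1 _ (by omega) _ (by omega)
      · simpa [show 0 ≠ m by omega] using p2
      · simp only [show a ≠ m by omega, if_false]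
        split_ifs with c
        · rwa [show a = i by omega]
        · exact p3 a (by omega)
  have k3 : ∀ i < m, p i ∈ comp X v := by
    intro i hi
    induction i with
    | zero => exact p2
    | succ i ih => exact closed_comp X v _ (ih (by omega)) _ (p3 i hi)
  refine ⟨m, Nat.findGreatest_le _, X.Adj (p 0) (p (m - 1)), p, p1, ?_, fun i hi j hj => ?_⟩
  · refine Subset.antisymm ?_ fun x hx => ?_
    · rw [← comp_eq_of_mem p2]
      exact k2.comp_subset (mem_image.2 ⟨0, mem_range.2 m1, rfl⟩)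
    · obtain ⟨i, hi, rfl⟩ := mem_image.1 hx
      exact k3 i (mem_range.1 hi)
  constructor
  · intro h
    have hne : i ≠ j := fun e => h.ne (e ▸ rfl)
    by_cases c1 : 0 < i ∧ i + 1 < m
    · rcases k1 i c1.1 c1.2 _ h with e | e
      · exact Or.inl (p1 _ hj _ c1.2 e)
      · have := p1 _ hj _ (by omega) e
        omega
    by_cases c2 : 0 < j ∧ j + 1 < m
    · rcases k1 j c2.1 c2.2 _ h.symm with e | e
      · exact Or.inr (Or.inl (p1 _ hi _ c2.2 e))
      · have := p1 _ hi _ (by omega) e
        omega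
    refine Or.inr (Or.inr ?_)
    rcases Nat.eq_zero_or_pos i with rfl | h0
    · exact ⟨by rwa [show m - 1 = j by omega], by omega⟩
    · exact ⟨by rw [show m - 1 = i by omega, show 0 = j by omega]; exact h.symm, by omega⟩
  · rintro (rfl | rfl | ⟨h, ⟨rfl, e⟩ | ⟨rfl, e⟩⟩)
    · exact p3 i hj
    · exact (p3 j hi).symm
    · rwa [show j = m - 1 by omega]
    · rw [show i = m - 1 by omega]; exact h.symm

/-- all component types -/
noncomputable def types (V : Type) [Fintype V] [DecidableEq V] (d : ℕ) :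
    Finset (Finset (Finset V × SimpleGraph V)) :=
  (univ.filter fun p : SimpleGraph V × V => Deg d p.1).image fun p => ty p.1 p.2

theorem ty_mem_types {d : ℕ} {X : SimpleGraph V} (hX : Deg d X) (v : V) : ty X v ∈ types V d :=
  mem_image.2 ⟨(X, v), mem_filter.2 ⟨mem_univ _, hX⟩, rfl⟩

theorem card_types {d : ℕ} (hd : d ≤ 2) : (types V d).card ≤ 2 * (Fintype.card V + 1) := by
  have : types V d ⊆ (range (Fintype.card V + 1) ×ˢ (univ : Finset Prop)).biUnion fun q =>
      (types V d).filter fun j => ∃ X v, Line X v q.1 q.2 ∧ ty X v = j := by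
    intro j hj
    obtain ⟨p, hp, rfl⟩ := mem_image.1 hj
    obtain ⟨m, hm, b, h⟩ := exists_line (fun v => ((mem_filter.1 hp).2 v).trans hd) p.2
    exact mem_biUnion.2 ⟨(m, b), mem_product.2 ⟨mem_range.2 (Nat.lt_succ_of_le hm), mem_univ _⟩,
      mem_filter.2 ⟨hj, _, _, h, rfl⟩⟩
  refine (card_le_card this).trans ((card_biUnion_le_card_mul _ _ 1 fun q _ => ?_).trans ?_)
  · refine card_le_one.2 fun a ha b hb => ?_
    obtain ⟨_, _, h1, rfl⟩ := (mem_filter.1 ha).2
    obtain ⟨_, _, h2, rfl⟩ := (mem_filter.1 hb).2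
    exact h1.ty_eq h2
  · simp [mul_comm]

end Pool.Agent.Lib.MP_449609_pr
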